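import Pool.Agent.Helper18.Dub.Part

/-!
# Regular representations: from algebras given by structure constants to algebras of matrices
-/

open scoped BigOperators
open Finset MvPowerSeries

namespace Pool.Agent.Helper18.Dub

namespace AlgStr

variable {R : Type} [CommRing R] {ι : Type} [Fintype ι] [DecidableEq ι] (A : AlgStr R ι)

/-- the matrix of multiplication by a basis vector -/
def matOf (a : ι) : Matrix ι ι R := Matrix.of fun k b => A.m a b k

theorem leftMulMatrix_eq_matOf (a : ι) : Algebra.leftMulMatrix A.basis (A.basis a) = A.matOf a := by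
  ext k b
  rw [leftMulMatrix_basis]; rfl

theorem adjoin_basis : Algebra.adjoin R (Set.range fun a => A.basis a) = ⊤ := by
  rw [eq_top_iff]
  intro x _
  rw [← A.basis.sum_repr x]
  refine Subalgebra.sum_mem _ fun c _ => Subalgebra.smul_mem _ ?_ _
  exact Algebra.subset_adjoin (s := Set.range fun a => A.basis a) ⟨c, rfl⟩

theorem map_adjoin {α : Type} (f : α → ι) :
    (Algebra.adjoin R (Set.range fun a => A.basis (f a))).map (Algebra.leftMulMatrix A.basis) =
      Algebra.adjoin R (Set.range fun a => A.matOf (f a)) := by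
  rw [AlgHom.map_adjoin, ← Set.range_comp]
  congr 2
  funext a
  exact A.leftMulMatrix_eq_matOf (f a)

theorem isSemisimple_adjoin_iff {α : Type} (f : α → ι) :
    IsSemisimpleRing (Algebra.adjoin R (Set.range fun a => A.basis (f a))) ↔
      IsSemisimpleRing (Algebra.adjoin R (Set.range fun a => A.matOf (f a))) := by
  rw [← A.map_adjoin f]
  exact (Subalgebra.equivMapOfInjective _ (Algebra.leftMulMatrix A.basis)
    (Algebra.leftMulMatrix_injective A.basis)).toRingEquiv.isSemisimpleRing_iff

theorem isSemisimple_iff : IsSemisimpleRing A.Carrier ↔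
    IsSemisimpleRing (Algebra.adjoin R (Set.range fun a => A.matOf a)) := by
  rw [← A.isSemisimple_adjoin_iff (fun a => a), A.adjoin_basis]
  exact (Subalgebra.topEquiv (R := R) (A := A.Carrier)).symm.toRingEquiv.isSemisimpleRing_iff

end AlgStr

namespace FanoGW

section one

variable {ι : Type} [Fintype ι] [DecidableEq ι] (X : FanoGW ι)

theorem isGenericallySemisimple_iff : X.IsGenericallySemisimple ↔ X.QH.GenericallySemisimple := by
  rw [IsGenericallySemisimple, AlgStr.GenericallySemisimple, AlgStr.isSemisimple_iff, matAlg]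
  rfl

theorem smallMat_eq (a : ι) : X.smallMat a = X.smallQH.matOf a := by
  ext k b
  show ∑ l, X.pair⁻¹ k l * X.corr {a, b, l} = X.smallQH.m a b k
  rw [smallQH_m]

theorem isSemisimple_small_iff : IsSemisimpleRing X.smallQH.Carrier ↔
    IsSemisimpleRing (Algebra.adjoin ℂ (Set.range X.smallMat)) := by
  rw [AlgStr.isSemisimple_iff]
  have : X.smallMat = fun a => X.smallQH.matOf a := funext X.smallMat_eq
  rw [this]

theorem minpoly_chernMat : minpoly ℂ X.chernMat = minpoly ℂ X.c1class := by
  rw [chernMat_eq]
  exact minpoly.algHom_eq _ (Algebra.leftMulMatrix_injective X.smallQH.basis) _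

theorem rank_sub (u : ℂ) :
    (X.chernMat - Matrix.scalar ι u).rank + Module.finrank ℂ (X.chernMul.eigenspace u) =
      Fintype.card ι := by
  have h1 : Matrix.toLin X.smallQH.basis X.smallQH.basis (X.chernMat - Matrix.scalar ι u) =
      X.chernMul - u • 1 := by
    apply (LinearMap.toMatrix X.smallQH.basis X.smallQH.basis).injective
    rw [LinearMap.toMatrix_toLin, map_sub, map_smul, LinearMap.toMatrix_one, chernMat_eq]
    congr 1
    ext i j
    by_cases hij : i = j
    · subst hij; simp
    · simp [hij]
  rw [Matrix.rank_eq_finrank_range_toLin _ X.smallQH.basis X.smallQH.basis, h1,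
    Module.End.eigenspace_def, LinearMap.finrank_range_add_finrank_ker, finrank_carrier]

theorem rootMultiplicity_eq (u : ℂ) : X.chernMat.charpoly.rootMultiplicity u =
    Module.finrank ℂ (X.chernMul.maxGenEigenspace u) := by
  rw [LinearMap.finrank_maxGenEigenspace_eq, charpoly_chernMul]

theorem rank_chern :
    X.chernMat.rank + Module.finrank ℂ (LinearMap.ker X.chernMul) = Fintype.card ι := by
  have h := X.rank_sub 0
  rw [map_zero, sub_zero, Module.End.eigenspace_def, zero_smul, sub_zero] at h
  exact h

end one

section split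

variable {κ ν : Type} [Fintype κ] [DecidableEq κ] [Fintype ν] [DecidableEq ν]
variable (X : FanoGW (κ ⊕ ν))

theorem matAlg_res_iff : IsSemisimpleRing (matAlg X.resMat) ↔ X.QHres.GenericallySemisimple := by
  rw [AlgStr.GenericallySemisimple, AlgStr.isSemisimple_iff, matAlg]
  rfl

theorem matAlg_res_inl_iff : IsSemisimpleRing (matAlg fun a : κ => X.resMat (Sum.inl a)) ↔
    IsSemisimpleRing (X.QHres.map (algebraMap (MvPowerSeries κ ℂ)
      (FractionRing (MvPowerSeries κ ℂ)))).invPart := by
  rw [AlgStr.invPart, AlgStr.isSemisimple_adjoin_iff, matAlg]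
  rfl

theorem small_inl_iff : IsSemisimpleRing X.smallQH.invPart ↔
    IsSemisimpleRing (Algebra.adjoin ℂ (Set.range fun a : κ => X.smallMat (Sum.inl a))) := by
  rw [AlgStr.invPart, AlgStr.isSemisimple_adjoin_iff]
  have : (fun a : κ => X.smallMat (Sum.inl a)) = fun a => X.smallQH.matOf (Sum.inl a) :=
    funext fun a => X.smallMat_eq (Sum.inl a)
  rw [this]

end split

end FanoGW

end Pool.Agent.Helper18.Dub
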