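import Pool.Agent.Helper18.Dub.GW

/-!
# The big quantum cohomology algebra and the flatness identity
-/

open scoped BigOperators
open Finset MvPowerSeries

namespace Pool.Agent.Helper18.Dub

namespace FanoGW

variable {ι : Type} [Fintype ι] [DecidableEq ι] (X : FanoGW ι)

/-- The inverse pairing is homogeneous as well. -/
theorem pairInv_deg (i j : ι) (h : X.pair⁻¹ i j ≠ 0) : X.deg i + X.deg j = X.dim := by
  -- P η⁻¹ = η⁻¹ (D - P)
  let P : Matrix ι ι ℂ := Matrix.diagonal fun i => (X.deg i : ℂ)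
  have h1 : X.pair * P = ((X.dim : ℂ) • (1 : Matrix ι ι ℂ) - P) * X.pair := by
    ext a b
    rw [Matrix.mul_diagonal, Matrix.sub_mul, Matrix.sub_apply, Matrix.smul_mul, Matrix.one_mul,
      Matrix.smul_apply, Matrix.diagonal_mul, smul_eq_mul]
    by_cases h0 : X.pair a b = 0
    · rw [h0]; ring
    · have := X.pair_deg a b h0
      have h2 : (X.deg a : ℂ) + (X.deg b : ℂ) = (X.dim : ℂ) := by exact_mod_cast this
      rw [← h2]; ring
  have h3 : P * X.pair⁻¹ = X.pair⁻¹ * ((X.dim : ℂ) • (1 : Matrix ι ι ℂ) - P) := by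
    calc P * X.pair⁻¹ = X.pair⁻¹ * (X.pair * P) * X.pair⁻¹ := by
          rw [← Matrix.mul_assoc, X.inv_mul_pair, Matrix.one_mul]
      _ = X.pair⁻¹ * ((X.dim : ℂ) • (1 : Matrix ι ι ℂ) - P) * (X.pair * X.pair⁻¹) := by
          rw [h1]; simp only [Matrix.mul_assoc]
      _ = X.pair⁻¹ * ((X.dim : ℂ) • (1 : Matrix ι ι ℂ) - P) := by
          rw [X.pair_mul_inv, Matrix.mul_one]
  have h4 := congrFun (congrFun h3 i) j
  rw [Matrix.diagonal_mul, Matrix.mul_sub, Matrix.sub_apply, Matrix.mul_smul, Matrix.mul_one,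
    Matrix.smul_apply, Matrix.mul_diagonal, smul_eq_mul] at h4
  have h5 : X.pair⁻¹ i j * ((X.deg i : ℂ) + (X.deg j : ℂ) - (X.dim : ℂ)) = 0 := by
    linear_combination h4
  rcases mul_eq_zero.1 h5 with h6 | h6
  · exact absurd h6 h
  · have : (X.deg i : ℂ) + (X.deg j : ℂ) = (X.dim : ℂ) := by linear_combination h6
    exact_mod_cast this

/-- The matrix of quantum multiplication by the Euler field:
`umat k b = (E • φ_b)_k`. -/
noncomputable def umat (k b : ι) : MvPowerSeries ι ℂ := ∑ c, X.euler c * X.sc c b k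

theorem pderiv_euler (a c : ι) : pderiv ℂ a (X.euler c) =
    if a = c then C (1 - (X.deg a : ℂ)) else 0 := by
  rw [euler, map_add, pderiv_C, add_zero, Derivation.leibniz, pderiv_C, smul_zero, add_zero,
    pderiv_X]
  by_cases h : a = c
  · subst h
    simp
  · rw [if_neg h]
    simp [h]

theorem pderiv_sc (a b c k : ι) : pderiv ℂ a (X.sc c b k) = pderiv ℂ c (X.sc a b k) := by
  simp only [sc, map_sum]
  refine Finset.sum_congr rfl fun l _ => ?_
  rw [Derivation.leibniz, Derivation.leibniz, pderiv_C, pderiv_C, smul_zero, smul_zero, add_zero,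
    add_zero, pderiv_ser, pderiv_ser]
  congr 2
  exact Multiset.cons_swap _ _ _

theorem euler_sc (a b k : ι) : ∑ c, X.euler c * pderiv ℂ c (X.sc a b k) =
    C ((X.deg a : ℂ) + (X.deg b : ℂ) - (X.deg k : ℂ)) * X.sc a b k := by
  simp only [sc, map_sum, Finset.mul_sum]
  rw [Finset.sum_comm]
  refine Finset.sum_congr rfl fun l _ => ?_
  have h1 : ∀ c, X.euler c * pderiv ℂ c (C (X.pair⁻¹ k l) * X.ser {a, b, l}) =
      C (X.pair⁻¹ k l) * (X.euler c * pderiv ℂ c (X.ser {a, b, l})) := by
    intro c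
    rw [Derivation.leibniz, pderiv_C, smul_zero, add_zero, smul_eq_mul]
    ring
  rw [Finset.sum_congr rfl fun c _ => h1 c, ← Finset.mul_sum, X.euler_ser _ (le_refl _)]
  by_cases h0 : X.pair⁻¹ k l = 0
  · rw [h0, map_zero, zero_mul, zero_mul, mul_zero]
  · have h2 := X.pairInv_deg k l h0
    have h3 : X.wt {a, b, l} = (X.deg a : ℂ) + (X.deg b : ℂ) - (X.deg k : ℂ) := by
      have h4 : (X.deg k : ℂ) + (X.deg l : ℂ) = (X.dim : ℂ) := by exact_mod_cast h2
      have h5 : (({a, b, l} : Multiset ι).map X.deg).sum = X.deg a + (X.deg b + X.deg l) := by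
        simp [Multiset.insert_eq_cons]
      have h6 : Multiset.card ({a, b, l} : Multiset ι) = 3 := rfl
      rw [wt, h5, h6]
      push_cast
      rw [← h4]
      ring
    rw [h3]
    ring

/-- The flatness identity `∂_a U = C_a + [C_a, P]`, where `U` is quantum multiplication by `E`,
`C_a` quantum multiplication by `φ_a` and `P` the degree operator. -/
theorem pderiv_umat (a k b : ι) : pderiv ℂ a (X.umat k b) =
    C (1 + (X.deg b : ℂ) - (X.deg k : ℂ)) * X.sc a b k := by
  rw [umat, map_sum]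
  have h1 : ∀ c, pderiv ℂ a (X.euler c * X.sc c b k) =
      X.euler c * pderiv ℂ c (X.sc a b k) +
        (if a = c then C (1 - (X.deg a : ℂ)) * X.sc a b k else 0) := by
    intro c
    rw [Derivation.leibniz, smul_eq_mul, smul_eq_mul, X.pderiv_sc a b c k, pderiv_euler]
    by_cases h : a = c
    · subst h
      rw [if_pos rfl, if_pos rfl]
      ring
    · rw [if_neg h, if_neg h, mul_zero]
  rw [Finset.sum_congr rfl fun c _ => h1 c, Finset.sum_add_distrib, X.euler_sc,
    Finset.sum_ite_eq, if_pos (Finset.mem_univ a), ← add_mul, ← map_add]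
  congr 2
  ring

end FanoGW

end Pool.Agent.Helper18.Dub
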