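import Pool.Agent.Helper18.Dub.Eig

/-!
# The small quantum cohomology algebra, multiplication by `c_1`, and the index
-/

open scoped BigOperators
open Finset MvPowerSeries

namespace Pool.Agent.Helper18.Dub

namespace FanoGW

variable {ι : Type} [Fintype ι] [DecidableEq ι] (X : FanoGW ι)

/-- The Euler field as an element of big quantum cohomology. -/
noncomputable def eulerElt : X.QH.Carrier := fun k => X.euler k

/-- The big quantum cohomology with its Euler field as a flat algebra. -/
noncomputable def flatAlg : FlatAlg ι where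
  A := X.QH
  E := X.eulerElt
  p := fun k => (X.deg k : ℂ)
  flat := fun a k b => by
    have h1 : (X.eulerElt * X.QH.basis b) k = X.umat k b := by
      rw [AlgStr.mul_apply, umat]
      refine Finset.sum_congr rfl fun c _ => ?_
      rw [Finset.sum_eq_single b]
      · rw [AlgStr.basis_apply, if_pos rfl, mul_one]
        rfl
      · intro j _ hj
        rw [AlgStr.basis_apply, if_neg (Ne.symm hj), mul_zero, zero_mul]
      · intro h'
        exact absurd (Finset.mem_univ _) h'
    rw [h1]
    exact X.pderiv_umat a k b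

theorem flatAlg_c0 : X.flatAlg.c0 = X.c1class := by
  funext k
  show constantCoeff (X.euler k) = X.chern k
  rw [euler, map_add, map_mul]
  simp

theorem simple_of_eigenspace (hss : X.QH.GenericallySemisimple) (u : ℂ)
    (h : Module.finrank ℂ (X.chernMul.eigenspace u) ≤ 1) :
    Module.finrank ℂ (X.chernMul.maxGenEigenspace u) ≤ 1 := by
  have h1 := X.flatAlg.simple_of_eigenspace (X.QH.genericallySemisimple_iff.1 hss) u
  rw [flatAlg_c0] at h1
  exact h1 h

/-- The three-point structure constants of small quantum cohomology. -/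
theorem smallQH_m (a b k : ι) : X.smallQH.m a b k = ∑ l, X.pair⁻¹ k l * X.corr {a, b, l} := by
  show constantCoeff (X.sc a b k) = _
  rw [sc, map_sum]
  refine Finset.sum_congr rfl fun l _ => ?_
  rw [map_mul]
  have h1 : constantCoeff (X.ser {a, b, l}) = X.corr {a, b, l} := by
    rw [← coeff_zero_eq_constantCoeff_apply, coeff_ser]
    simp
  rw [h1]
  simp

theorem chernMat_apply (k b : ι) : X.chernMat k b = ∑ a, X.chern a * X.smallQH.m a b k := by
  rw [chernMat, Matrix.sum_apply]
  refine Finset.sum_congr rfl fun a _ => ?_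
  rw [Matrix.smul_apply, smul_eq_mul, smallQH_m]
  rfl

theorem chernMat_eq : X.chernMat = Algebra.leftMulMatrix X.smallQH.basis X.c1class := by
  ext k b
  rw [chernMat_apply, Algebra.leftMulMatrix_eq_repr_mul, AlgStr.basis_repr, AlgStr.mul_apply]
  refine Finset.sum_congr rfl fun a _ => ?_
  rw [Finset.sum_eq_single b]
  · rw [AlgStr.basis_apply, if_pos rfl, mul_one]; rfl
  · intro j _ hj
    rw [AlgStr.basis_apply, if_neg (Ne.symm hj), mul_zero, zero_mul]
  · intro h'
    exact absurd (Finset.mem_univ _) h'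

theorem charpoly_chernMul : X.chernMul.charpoly = X.chernMat.charpoly := by
  rw [← LinearMap.charpoly_toMatrix X.chernMul X.smallQH.basis, chernMat_eq]
  congr 1

/-- Degrees modulo the index. -/
theorem smallQH_deg {r : ℕ} (hr : ∀ β, r ∣ X.c1 β) (a b k : ι) (h : X.smallQH.m a b k ≠ 0) :
    ∃ q : ℕ, X.deg a + X.deg b = X.deg k + r * q := by
  rw [smallQH_m] at h
  obtain ⟨l, -, hl⟩ := Finset.exists_ne_zero_of_sum_ne_zero h
  have h1 : X.pair⁻¹ k l ≠ 0 := left_ne_zero_of_mul hl
  have h2 : X.corr {a, b, l} ≠ 0 := right_ne_zero_of_mul hl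
  have h3 : ∃ β, X.inv β {a, b, l} ≠ 0 := by
    by_contra hc
    push Not at hc
    apply h2
    rw [GWData.corr]
    rw [finsum_congr hc, finsum_zero]
  obtain ⟨β, hβ⟩ := h3
  have h4 := X.dimension β _ hβ
  have h5 := X.pairInv_deg k l h1
  have h6 : (({a, b, l} : Multiset ι).map X.deg).sum = X.deg a + (X.deg b + X.deg l) := by
    simp [Multiset.insert_eq_cons]
  have h7 : Multiset.card ({a, b, l} : Multiset ι) = 3 := rfl
  rw [h6, h7] at h4
  obtain ⟨q, hq⟩ := hr β
  refine ⟨q, ?_⟩
  rw [hq] at h4
  omega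

theorem zeta_chernMat {r : ℕ} (hr : ∀ β, r ∣ X.c1 β) {ζ : ℂ} (hζ : ζ ^ r = 1) (k b : ι) :
    ζ ^ X.deg k * X.chernMat k b = ζ * X.chernMat k b * ζ ^ X.deg b := by
  rw [chernMat_apply, Finset.mul_sum, Finset.mul_sum, Finset.sum_mul]
  refine Finset.sum_congr rfl fun a _ => ?_
  by_cases h1 : X.chern a = 0
  · rw [h1]; ring
  by_cases h2 : X.smallQH.m a b k = 0
  · rw [h2]; ring
  obtain ⟨q, hq⟩ := X.smallQH_deg hr a b k h2
  rw [X.chern_deg a h1] at hq
  have h3 : ζ * ζ ^ X.deg b = ζ ^ X.deg k := by
    rw [← pow_succ', add_comm, hq, pow_add, pow_mul, hζ, one_pow, mul_one]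
  rw [← h3]; ring

open Polynomial in
theorem charpoly_coeff {r : ℕ} (hr0 : 0 < r) (hr : ∀ β, r ∣ X.c1 β) (j : ℕ)
    (hj : X.chernMul.charpoly.coeff j ≠ 0) (hjn : j ≤ Fintype.card ι) :
    r ∣ Fintype.card ι - j := by
  set ζ : ℂ := Complex.exp (2 * Real.pi * Complex.I / r) with hζdef
  have hζ : IsPrimitiveRoot ζ r := Complex.isPrimitiveRoot_exp r hr0.ne'
  have hζ0 : ζ ≠ 0 := hζ.ne_zero hr0.ne'
  set M := X.chernMat with hM
  rw [charpoly_chernMul] at hj
  let D : Matrix ι ι ℂ := Matrix.diagonal fun k => ζ ^ X.deg k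
  have hD : D * M = ζ • M * D := by
    ext k b
    rw [Matrix.diagonal_mul, Matrix.mul_diagonal, Matrix.smul_apply, smul_eq_mul]
    exact X.zeta_chernMat hr hζ.pow_eq_one k b
  have hDdet : D.det ≠ 0 := by
    rw [Matrix.det_diagonal, Finset.prod_ne_zero_iff]
    exact fun k _ => pow_ne_zero _ hζ0
  have heval : ∀ z : ℂ, M.charpoly.eval (ζ * z) = ζ ^ Fintype.card ι * M.charpoly.eval z := by
    intro z
    rw [Matrix.eval_charpoly, Matrix.eval_charpoly]
    have h1 : D * (Matrix.scalar ι (ζ * z) - M) * 1 = (Matrix.scalar ι (ζ * z) - ζ • M) * D := by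
      rw [Matrix.mul_one, Matrix.mul_sub, Matrix.sub_mul, hD]
      congr 1
      exact (Matrix.scalar_commute (ζ * z) (fun s => mul_comm _ _) D).symm.eq
    have h2 := congrArg Matrix.det h1
    rw [Matrix.det_mul, Matrix.det_mul, Matrix.det_mul, Matrix.det_one, mul_one] at h2
    have h3 : (Matrix.scalar ι (ζ * z) - M).det = (Matrix.scalar ι (ζ * z) - ζ • M).det := by
      have : D.det * (Matrix.scalar ι (ζ * z) - M).det =
          D.det * (Matrix.scalar ι (ζ * z) - ζ • M).det := by
        rw [h2]; ring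
      exact mul_left_cancel₀ hDdet this
    rw [h3]
    have h4 : Matrix.scalar ι (ζ * z) - ζ • M = ζ • (Matrix.scalar ι z - M) := by
      rw [smul_sub]
      congr 1
      ext i j
      by_cases hij : i = j
      · subst hij; simp
      · simp [Matrix.scalar_apply, Matrix.diagonal_apply_ne _ hij]
    rw [h4, Matrix.det_smul]
  have hpoly : M.charpoly.comp (Polynomial.C ζ * Polynomial.X) =
      Polynomial.C (ζ ^ Fintype.card ι) * M.charpoly := by
    refine Polynomial.funext fun z => ?_
    rw [eval_comp, eval_mul, Polynomial.eval_C, Polynomial.eval_X, eval_mul, Polynomial.eval_C]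
    exact heval z
  have h5 := congrArg (fun p => Polynomial.coeff p j) hpoly
  simp only [comp_C_mul_X_coeff, Polynomial.coeff_C_mul] at h5
  have h6 : ζ ^ j = ζ ^ Fintype.card ι := by
    have : M.charpoly.coeff j * (ζ ^ j - ζ ^ Fintype.card ι) = 0 := by linear_combination h5
    rcases mul_eq_zero.1 this with h7 | h7
    · exact absurd h7 hj
    · exact sub_eq_zero.1 h7
  have h8 : ζ ^ (Fintype.card ι - j) = 1 := by
    have h9 : ζ ^ j * ζ ^ (Fintype.card ι - j) = ζ ^ j * 1 := by
      rw [← pow_add, mul_one, h6]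
      congr 1
      omega
    exact mul_left_cancel₀ (pow_ne_zero _ hζ0) h9
  exact hζ.dvd_of_pow_eq_one _ h8

theorem finrank_carrier (A : AlgStr ℂ ι) : Module.finrank ℂ A.Carrier = Fintype.card ι := by
  rw [Module.finrank_eq_card_basis A.basis]

/-- `N` is congruent modulo the index to the multiplicity of the eigenvalue zero. -/
theorem card_modEq {r : ℕ} (hr0 : 0 < r) (hr : ∀ β, r ∣ X.c1 β) :
    Fintype.card ι ≡ Module.finrank ℂ (X.chernMul.maxGenEigenspace 0) [MOD r] := by
  have hle : Module.finrank ℂ (X.chernMul.maxGenEigenspace 0) ≤ Fintype.card ι := by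
    rw [← finrank_carrier X.smallQH]
    exact Submodule.finrank_le _
  have h1 : X.chernMul.charpoly.coeff (Module.finrank ℂ (X.chernMul.maxGenEigenspace 0)) ≠ 0 := by
    rw [LinearMap.finrank_maxGenEigenspace_zero_eq]
    have := Polynomial.trailingCoeff_nonzero_iff_nonzero.2
      (LinearMap.charpoly_monic X.chernMul).ne_zero
    exact this
  have h2 := X.charpoly_coeff hr0 hr _ h1 hle
  exact ((Nat.modEq_iff_dvd' hle).2 h2).symm

/-- Under generic semisimplicity a kernel of dimension at most one is the whole generalized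
kernel. -/
theorem finrank_ker_eq (hss : X.QH.GenericallySemisimple)
    (hker : Module.finrank ℂ (LinearMap.ker X.chernMul) ≤ 1) :
    Module.finrank ℂ (LinearMap.ker X.chernMul) =
      Module.finrank ℂ (X.chernMul.maxGenEigenspace 0) := by
  have he : X.chernMul.eigenspace 0 = LinearMap.ker X.chernMul := by
    rw [Module.End.eigenspace_def, zero_smul, sub_zero]
  have h1 := X.simple_of_eigenspace hss 0 (by rw [he]; exact hker)
  have hle : LinearMap.ker X.chernMul ≤ X.chernMul.maxGenEigenspace 0 := by
    rw [← he]; exact Module.End.eigenspace_le_maxGenEigenspace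
  have h3 := Submodule.finrank_mono hle
  rcases Nat.eq_zero_or_pos (Module.finrank ℂ (LinearMap.ker X.chernMul)) with h4 | h4
  · -- injective, so the generalized eigenspace vanishes
    have h5 : LinearMap.ker X.chernMul = ⊥ := Submodule.finrank_eq_zero.1 h4
    have h6 : X.chernMul.maxGenEigenspace 0 = ⊥ := by
      rw [Submodule.eq_bot_iff]
      intro x hx
      rw [Module.End.mem_maxGenEigenspace] at hx
      obtain ⟨k, hk⟩ := hx
      rw [zero_smul, sub_zero] at hk
      induction k with
      | zero => simpa using hk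
      | succ k ih =>
        apply ih
        rw [pow_succ'] at hk
        have h7 : (X.chernMul ^ k) x ∈ LinearMap.ker X.chernMul := hk
        rw [h5, Submodule.mem_bot] at h7
        exact h7
    rw [h4, h6, finrank_bot]
  · omega

/-- The index theorem. -/
theorem card_modEq_ker (hss : X.QH.GenericallySemisimple) {r : ℕ} (hr0 : 0 < r)
    (hr : ∀ β, r ∣ X.c1 β) (hker : Module.finrank ℂ (LinearMap.ker X.chernMul) ≤ 1) :
    Fintype.card ι ≡ Module.finrank ℂ (LinearMap.ker X.chernMul) [MOD r] := by
  rw [X.finrank_ker_eq hss hker]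
  exact X.card_modEq hr0 hr

end FanoGW

end Pool.Agent.Helper18.Dub
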