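import Pool.Agent.Helper18.Dub.AlgDefs

/-!
# Discriminants and semisimplicity
-/

open scoped BigOperators
open Finset

namespace Pool.Agent.Helper18.Dub

namespace AlgStr

universe u v

variable {R : Type u} [CommRing R] {ι : Type v} [Fintype ι] [DecidableEq ι]

theorem basis_apply (A : AlgStr R ι) (a k : ι) : A.basis a k = if a = k then 1 else 0 := by
  have : A.basis a = (Pi.single a (1 : R) : ι → R) := Pi.basisFun_apply R ι a
  rw [this]
  rw [Pi.single_apply]
  by_cases h : a = k
  · simp [h]
  · rw [if_neg h, if_neg (fun h' => h h'.symm)]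

theorem basis_repr (A : AlgStr R ι) (x : A.Carrier) (k : ι) : A.basis.repr x k = x k :=
  Pi.basisFun_repr R ι x k

theorem basis_mul_basis (A : AlgStr R ι) (a b k : ι) : (A.basis a * A.basis b) k = A.m a b k := by
  rw [mul_apply]
  simp only [basis_apply]
  simp only [ite_mul, mul_ite, mul_one, zero_mul, mul_zero]
  simp

theorem basis_one (A : AlgStr R ι) : A.basis A.one = 1 := by
  funext k
  rw [basis_apply, one_apply]

theorem leftMulMatrix_basis (A : AlgStr R ι) (a k b : ι) :
    Algebra.leftMulMatrix A.basis (A.basis a) k b = A.m a b k := by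
  rw [Algebra.leftMulMatrix_eq_repr_mul, basis_repr, basis_mul_basis]

theorem map_m (A : AlgStr R ι) {S : Type*} [CommRing S] (f : R →+* S) (a b k : ι) :
    (A.map f).m a b k = f (A.m a b k) := rfl

/-- The discriminant: determinant of the trace form in the standard basis. -/
noncomputable def disc (A : AlgStr R ι) : R := Algebra.discr R A.basis

theorem traceForm_basis (A : AlgStr R ι) (a b : ι) :
    Algebra.traceForm R A.Carrier (A.basis a) (A.basis b) = ∑ k, ∑ l, A.m a l k * A.m b k l := by
  rw [Algebra.traceForm_apply, Algebra.trace_eq_matrix_trace A.basis, map_mul, Matrix.trace]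
  refine Finset.sum_congr rfl fun k _ => ?_
  rw [Matrix.diag_apply, Matrix.mul_apply]
  refine Finset.sum_congr rfl fun l _ => ?_
  rw [leftMulMatrix_basis, leftMulMatrix_basis]

theorem disc_map (A : AlgStr R ι) {S : Type*} [CommRing S] (f : R →+* S) :
    (A.map f).disc = f A.disc := by
  rw [disc, disc, Algebra.discr_def, Algebra.discr_def, RingHom.map_det]
  congr 1
  ext a b
  rw [RingHom.mapMatrix_apply, Matrix.map_apply, Algebra.traceMatrix_apply,
    Algebra.traceMatrix_apply, traceForm_basis, traceForm_basis]
  simp only [map_sum, map_mul, map_m]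

end AlgStr

section reduced

variable {K : Type*} [Field K] [CharZero K] {B : Type*} [CommRing B] [Algebra K B]
  [FiniteDimensional K B] {ι : Type*} [Fintype ι] [DecidableEq ι]

/-- In a finite-dimensional commutative algebra over a field of characteristic zero, an element
orthogonal to everything for the trace form is nilpotent. -/
theorem isNilpotent_of_trace_mul_eq_zero (x : B)
    (h : ∀ y : B, Algebra.trace K B (x * y) = 0) : IsNilpotent x := by
  classical
  have : IsArtinianRing B := IsArtinianRing.of_finite K B
  -- the descending chain of ideals (x^n) stabilises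
  let f : ℕ →o (Ideal B)ᵒᵈ :=
    ⟨fun n => OrderDual.toDual (Ideal.span {x ^ n}), fun m n hmn => by
      show Ideal.span {x ^ n} ≤ Ideal.span {x ^ m}
      rw [Ideal.span_singleton_le_span_singleton]
      exact pow_dvd_pow x hmn⟩
  obtain ⟨n, hn⟩ := IsArtinian.monotone_stabilizes (R := B) (M := B) f
  have h2 : Ideal.span {x ^ n} = Ideal.span {x ^ (n + n)} := hn (n + n) (by omega)
  have h3 : x ^ n ∈ Ideal.span {x ^ (n + n)} := by
    rw [← h2]; exact Ideal.mem_span_singleton_self _
  obtain ⟨y, hy⟩ := Ideal.mem_span_singleton'.1 h3
  -- e = x^n y is idempotent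
  set e : B := x ^ n * y with he
  have hidem : e * e = e := by
    have : x ^ n * y * (x ^ n * y) = (y * x ^ (n + n)) * y := by ring
    rw [he, this, hy]
  have hxe : x ^ n * e = x ^ n := by
    have : x ^ n * (x ^ n * y) = y * x ^ (n + n) := by ring
    rw [he, this, hy]
  by_cases hn0 : n = 0
  · -- x^0 = 1 = y x^0, then 1 = y * x^0, trace of 1?  use n+1
    subst hn0
    -- all powers generate the unit ideal: x is a unit
    have h4 : Ideal.span {x ^ 0} = Ideal.span {x ^ 1} := hn 1 (by omega)
    have h5 : (1 : B) ∈ Ideal.span {x} := by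
      have : (1 : B) ∈ Ideal.span {x ^ 0} := by simp
      rw [h4] at this
      simpa using this
    obtain ⟨z, hz⟩ := Ideal.mem_span_singleton'.1 h5
    have h6 := h z
    rw [mul_comm, hz] at h6
    have h7 : Algebra.trace K B 1 = (Module.finrank K B : K) := by
      have := Algebra.trace_algebraMap (R := K) (S := B) (1 : K)
      rw [map_one] at this
      rw [this]; simp
    rw [h7, Nat.cast_eq_zero] at h6
    have : Subsingleton B := Module.finrank_zero_iff.1 h6
    exact ⟨1, Subsingleton.elim _ _⟩
  · -- e is a multiple of x, so its trace vanishes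
    have htr : Algebra.trace K B e = 0 := by
      obtain ⟨k, rfl⟩ : ∃ k, n = k + 1 := ⟨n - 1, by omega⟩
      have : e = x * (x ^ k * y) := by rw [he]; ring
      rw [this]
      exact h _
    have hlin : IsIdempotentElem (Algebra.lmul K B e) := by
      show Algebra.lmul K B e * Algebra.lmul K B e = Algebra.lmul K B e
      rw [← map_mul, hidem]
    have hr : LinearMap.trace K B (Algebra.lmul K B e) = 0 := htr
    have hproj := (LinearMap.IsIdempotentElem.isProj_range _ hlin).trace
    rw [hproj, Nat.cast_eq_zero] at hr
    have hbot : LinearMap.range (Algebra.lmul K B e) = ⊥ := Submodule.finrank_eq_zero.1 hr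
    have he0 : e = 0 := by
      have : Algebra.lmul K B e 1 ∈ LinearMap.range (Algebra.lmul K B e) := ⟨1, rfl⟩
      rw [hbot, Submodule.mem_bot] at this
      simpa using this
    refine ⟨n, ?_⟩
    rw [← hxe, he0, mul_zero]

/-- A finite-dimensional commutative algebra over a field of characteristic zero is reduced iff
its discriminant is nonzero. -/
theorem isReduced_iff_discr_ne_zero (b : Module.Basis ι K B) :
    IsReduced B ↔ Algebra.discr K b ≠ 0 := by
  constructor
  · intro hred h0
    rw [Algebra.discr_def] at h0
    obtain ⟨v, hv0, hv⟩ := Matrix.exists_mulVec_eq_zero_iff.2 h0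
    let x : B := ∑ i, v i • b i
    have hx : ∀ j, Algebra.trace K B (x * b j) = 0 := by
      intro j
      have := congrFun hv j
      rw [Matrix.mulVec, dotProduct] at this
      simp only [Algebra.traceMatrix_apply, Algebra.traceForm_apply, Pi.zero_apply] at this
      have h2 : x * b j = ∑ i, v i • (b j * b i) := by
        simp only [x, Finset.sum_mul]
        refine Finset.sum_congr rfl fun i _ => ?_
        rw [smul_mul_assoc, mul_comm]
      rw [h2, map_sum, ← this]
      refine Finset.sum_congr rfl fun i _ => ?_
      rw [map_smul, smul_eq_mul, mul_comm]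
    have hxy : ∀ y, Algebra.trace K B (x * y) = 0 := by
      intro y
      rw [← b.sum_repr y, Finset.mul_sum, map_sum]
      refine Finset.sum_eq_zero fun j _ => ?_
      rw [mul_smul_comm, map_smul, hx j, smul_zero]
    have hnil := isNilpotent_of_trace_mul_eq_zero x hxy
    have hx0 : x = 0 := hnil.eq_zero
    apply hv0
    funext i
    have := b.repr_sum_self v
    have h3 : b.repr x = 0 := by rw [hx0, map_zero]
    have h4 : (b.repr x) i = v i := by
      have := congrFun (b.repr_sum_self v) i
      exact this
    rw [← h4, h3]; rfl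
  · intro hne
    refine ⟨fun x hx => ?_⟩
    have htr : ∀ y, Algebra.trace K B (x * y) = 0 := fun y =>
      (Algebra.isNilpotent_trace_of_isNilpotent ((Commute.all x y).isNilpotent_mul_right hx)).eq_zero
    rw [Algebra.discr_def] at hne
    have hv : (Algebra.traceMatrix K b).mulVec (fun i => b.repr x i) = 0 := by
      funext j
      rw [Matrix.mulVec, dotProduct]
      simp only [Algebra.traceMatrix_apply, Algebra.traceForm_apply, Pi.zero_apply]
      have h2 := htr (b j)
      rw [← b.sum_repr x, Finset.sum_mul, map_sum] at h2
      rw [← h2]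
      refine Finset.sum_congr rfl fun i _ => ?_
      rw [smul_mul_assoc, map_smul, smul_eq_mul, mul_comm (b i) (b j), mul_comm]
    have hz : (fun i => b.repr x i) = 0 := by
      by_contra hz
      exact hne (Matrix.exists_mulVec_eq_zero_iff.1 ⟨_, hz, hv⟩)
    have : b.repr x = 0 := by
      ext i
      exact congrFun hz i
    exact (LinearEquiv.map_eq_zero_iff _).1 this

theorem isSemisimpleRing_iff_isReduced (K : Type*) [Field K] (B : Type*) [CommRing B]
    [Algebra K B] [FiniteDimensional K B] : IsSemisimpleRing B ↔ IsReduced B := by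
  have : IsArtinianRing B := IsArtinianRing.of_finite K B
  constructor
  · intro h
    infer_instance
  · intro h
    exact IsArtinianRing.isSemisimpleRing_of_isReduced B

end reduced

namespace AlgStr

variable {K : Type*} [Field K] [CharZero K] {ι : Type*} [Fintype ι] [DecidableEq ι]

theorem isReduced_iff (A : AlgStr K ι) : IsReduced A.Carrier ↔ A.disc ≠ 0 :=
  isReduced_iff_discr_ne_zero A.basis

theorem isSemisimpleRing_iff (A : AlgStr K ι) : IsSemisimpleRing A.Carrier ↔ A.disc ≠ 0 :=
  (isSemisimpleRing_iff_isReduced K _).trans A.isReduced_iff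

end AlgStr

end Pool.Agent.Helper18.Dub
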