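import Mathlib

/-!
# Commutative algebras given by structure constants, discriminants and semisimplicity
-/

open scoped BigOperators
open Finset

namespace Pool.Agent.Helper18.Dub

universe u v

/-- A commutative, associative, unital multiplication on the free module `ι → R`, given by
structure constants: `e_a * e_b = ∑ k, m a b k • e_k`, with unit `e_one`. -/
structure AlgStr (R : Type u) [CommRing R] (ι : Type v) [Fintype ι] [DecidableEq ι] where
  m : ι → ι → ι → R
  one : ι
  comm : ∀ a b k, m a b k = m b a k
  one_mul : ∀ b k, m one b k = if b = k then 1 else 0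
  assoc : ∀ a b c k, ∑ l, m a b l * m l c k = ∑ l, m b c l * m a l k

namespace AlgStr

variable {R : Type u} [CommRing R] {ι : Type v} [Fintype ι] [DecidableEq ι]

/-- The underlying type of the algebra. -/
def Carrier (_A : AlgStr R ι) : Type (max u v) := ι → R

instance (A : AlgStr R ι) : AddCommGroup A.Carrier := inferInstanceAs (AddCommGroup (ι → R))
instance (A : AlgStr R ι) : Module R A.Carrier := inferInstanceAs (Module R (ι → R))
instance (A : AlgStr R ι) : Module.Free R A.Carrier := inferInstanceAs (Module.Free R (ι → R))
instance (A : AlgStr R ι) : Module.Finite R A.Carrier :=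
  inferInstanceAs (Module.Finite R (ι → R))

theorem add_apply (A : AlgStr R ι) (x y : A.Carrier) (k : ι) : (x + y) k = x k + y k := rfl
theorem smul_apply (A : AlgStr R ι) (r : R) (x : A.Carrier) (k : ι) : (r • x) k = r * x k := rfl
theorem zero_apply (A : AlgStr R ι) (k : ι) : (0 : A.Carrier) k = 0 := rfl

/-- The multiplication. -/
def mulFun (A : AlgStr R ι) (x y : A.Carrier) : A.Carrier :=
  fun k => ∑ a, ∑ b, x a * y b * A.m a b k

theorem mulFun_comm (A : AlgStr R ι) (x y : A.Carrier) : A.mulFun x y = A.mulFun y x := by
  funext k
  simp only [mulFun]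
  rw [Finset.sum_comm]
  refine Finset.sum_congr rfl fun a _ => Finset.sum_congr rfl fun b _ => ?_
  rw [A.comm b a k]; ring

theorem mulFun_assoc (A : AlgStr R ι) (x y z : A.Carrier) :
    A.mulFun (A.mulFun x y) z = A.mulFun x (A.mulFun y z) := by
  funext k
  have h1 : A.mulFun (A.mulFun x y) z k =
      ∑ a, ∑ b, ∑ c, x a * y b * z c * ∑ l, A.m a b l * A.m l c k := by
    simp only [mulFun, Finset.sum_mul, Finset.mul_sum]
    rw [Finset.sum_comm]
    have : ∀ c : ι, (∑ l, ∑ a, ∑ b, x a * y b * A.m a b l * z c * A.m l c k) =
        ∑ a, ∑ b, ∑ l, x a * y b * z c * (A.m a b l * A.m l c k) := by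
      intro c
      rw [Finset.sum_comm]
      refine Finset.sum_congr rfl fun a _ => ?_
      rw [Finset.sum_comm]
      refine Finset.sum_congr rfl fun b _ => Finset.sum_congr rfl fun l _ => ?_
      ring
    rw [Finset.sum_congr rfl fun c _ => this c]
    rw [Finset.sum_comm]
    refine Finset.sum_congr rfl fun a _ => ?_
    rw [Finset.sum_comm]
  have h2 : A.mulFun x (A.mulFun y z) k =
      ∑ a, ∑ b, ∑ c, x a * y b * z c * ∑ l, A.m b c l * A.m a l k := by
    simp only [mulFun, Finset.sum_mul, Finset.mul_sum]
    refine Finset.sum_congr rfl fun a _ => ?_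
    rw [Finset.sum_comm]
    refine Finset.sum_congr rfl fun b _ => ?_
    rw [Finset.sum_comm]
    refine Finset.sum_congr rfl fun c _ => Finset.sum_congr rfl fun l _ => ?_
    ring
  rw [h1, h2]
  refine Finset.sum_congr rfl fun a _ => Finset.sum_congr rfl fun b _ =>
    Finset.sum_congr rfl fun c _ => ?_
  rw [A.assoc]

/-- The unit. -/
def oneFun (A : AlgStr R ι) : A.Carrier := fun k => if A.one = k then 1 else 0

theorem oneFun_mul (A : AlgStr R ι) (x : A.Carrier) : A.mulFun A.oneFun x = x := by
  funext k
  simp only [mulFun, oneFun]
  simp only [ite_mul, zero_mul, Finset.sum_ite_irrel, Finset.sum_const_zero]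
  rw [Finset.sum_ite_eq]
  simp only [Finset.mem_univ, if_true, A.one_mul, mul_ite, mul_one, mul_zero, _root_.one_mul]
  have key : ∀ f : ι → R, (∑ j, if j = k then f j else 0) = f k := fun f => by simp
  exact key x

instance instCommRing (A : AlgStr R ι) : CommRing A.Carrier :=
  { (inferInstance : AddCommGroup A.Carrier) with
    mul := A.mulFun
    one := A.oneFun
    mul_assoc := A.mulFun_assoc
    mul_comm := A.mulFun_comm
    one_mul := A.oneFun_mul
    mul_one := fun x => (A.mulFun_comm x A.oneFun).trans (A.oneFun_mul x)
    left_distrib := fun x y z => by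
      show A.mulFun x (y + z) = A.mulFun x y + A.mulFun x z
      funext k
      rw [add_apply]
      simp only [mulFun]
      rw [← Finset.sum_add_distrib]
      refine Finset.sum_congr rfl fun a _ => ?_
      rw [← Finset.sum_add_distrib]
      refine Finset.sum_congr rfl fun b _ => ?_
      rw [add_apply]; ring
    right_distrib := fun x y z => by
      show A.mulFun (x + y) z = A.mulFun x z + A.mulFun y z
      funext k
      rw [add_apply]
      simp only [mulFun]
      rw [← Finset.sum_add_distrib]
      refine Finset.sum_congr rfl fun a _ => ?_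
      rw [← Finset.sum_add_distrib]
      refine Finset.sum_congr rfl fun b _ => ?_
      rw [add_apply]; ring
    zero_mul := fun x => by
      show A.mulFun 0 x = 0
      funext k
      simp [mulFun, zero_apply]
    mul_zero := fun x => by
      show A.mulFun x 0 = 0
      funext k
      simp [mulFun, zero_apply] }

theorem mul_apply (A : AlgStr R ι) (x y : A.Carrier) (k : ι) :
    (x * y) k = ∑ a, ∑ b, x a * y b * A.m a b k := rfl

theorem one_apply (A : AlgStr R ι) (k : ι) : (1 : A.Carrier) k = if A.one = k then 1 else 0 := rfl

instance instAlgebra (A : AlgStr R ι) : Algebra R A.Carrier :=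
  Algebra.ofModule
    (fun r x y => by
      funext k
      rw [mul_apply, smul_apply, mul_apply, Finset.mul_sum]
      refine Finset.sum_congr rfl fun a _ => ?_
      rw [Finset.mul_sum]
      refine Finset.sum_congr rfl fun b _ => ?_
      rw [smul_apply]; ring)
    (fun r x y => by
      funext k
      rw [mul_apply, smul_apply, mul_apply, Finset.mul_sum]
      refine Finset.sum_congr rfl fun a _ => ?_
      rw [Finset.mul_sum]
      refine Finset.sum_congr rfl fun b _ => ?_
      rw [smul_apply]; ring)

/-- The standard basis. -/
noncomputable def basis (A : AlgStr R ι) : Module.Basis ι R A.Carrier := Pi.basisFun R ι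

/-- Base change of structure constants along a ring homomorphism. -/
def map (A : AlgStr R ι) {S : Type*} [CommRing S] (f : R →+* S) : AlgStr S ι where
  m := fun a b k => f (A.m a b k)
  one := A.one
  comm := fun a b k => by rw [A.comm]
  one_mul := fun b k => by
    rw [A.one_mul]
    split_ifs <;> simp
  assoc := fun a b c k => by
    simp only [← map_mul, ← map_sum]
    rw [A.assoc]

/-- The algebra is semisimple at the generic point of `Spec R`. -/
def GenericallySemisimple [IsDomain R] (A : AlgStr R ι) : Prop :=
  IsSemisimpleRing (A.map (algebraMap R (FractionRing R))).Carrier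

end AlgStr

end Pool.Agent.Helper18.Dub
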