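import Pool.Agent.Helper18.Dub.Infin

/-!
# The invariant part as a flat algebra
-/

open scoped BigOperators
open Finset MvPowerSeries

namespace Pool.Agent.Helper18.Dub

section kill

variable {κ ν : Type} [Fintype κ] [DecidableEq κ] [Fintype ν] [DecidableEq ν]

omit [DecidableEq κ] [Fintype κ] [Fintype ν] [DecidableEq ν] in
theorem pderiv_killCompl (a : κ) (F : MvPowerSeries (κ ⊕ ν) ℂ) :
    pderiv ℂ a (killCompl (R := ℂ) (Function.Embedding.inl : κ ↪ κ ⊕ ν) F) =
      killCompl (R := ℂ) (Function.Embedding.inl : κ ↪ κ ⊕ ν) (pderiv ℂ (Sum.inl a) F) := by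
  ext m
  rw [coeff_pderiv, coeff_killCompl, coeff_killCompl, coeff_pderiv]
  have h1 : Finsupp.embDomain (Function.Embedding.inl : κ ↪ κ ⊕ ν) (m + Finsupp.single a 1) =
      Finsupp.embDomain (Function.Embedding.inl : κ ↪ κ ⊕ ν) m +
        Finsupp.single (Sum.inl a : κ ⊕ ν) 1 := by
    rw [Finsupp.embDomain_add, Finsupp.embDomain_single]
    rfl
  have h2 : (Finsupp.embDomain (Function.Embedding.inl : κ ↪ κ ⊕ ν) m) (Sum.inl a) = m a :=
    Finsupp.embDomain_apply_self (Function.Embedding.inl : κ ↪ κ ⊕ ν) m a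
  rw [h1, h2]

omit [DecidableEq κ] [Fintype κ] [Fintype ν] [DecidableEq ν] in
theorem killCompl_X_inl (a : κ) :
    killCompl (R := ℂ) (Function.Embedding.inl : κ ↪ κ ⊕ ν)
      (MvPowerSeries.X (Sum.inl a)) = MvPowerSeries.X a := by
  have h : (Finsupp.single (Sum.inl a : κ ⊕ ν) 1) =
      Finsupp.embDomain (Function.Embedding.inl : κ ↪ κ ⊕ ν) (Finsupp.single a 1) := by
    rw [Finsupp.embDomain_single]
    rfl
  rw [MvPowerSeries.X, h, killCompl_monomial_embDomain]
  rfl

omit [DecidableEq κ] [Fintype κ] [Fintype ν] [DecidableEq ν] in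
theorem killCompl_X_inr (j : ν) :
    killCompl (R := ℂ) (Function.Embedding.inl : κ ↪ κ ⊕ ν)
      (MvPowerSeries.X (Sum.inr j)) = 0 := by
  rw [MvPowerSeries.X, killCompl_monomial_eq_zero]
  rintro ⟨m, hm⟩
  have h1 := DFunLike.congr_fun hm (Sum.inr j)
  rw [Finsupp.single_eq_same, Finsupp.embDomain_of_notMem_range] at h1
  · exact absurd h1 (by norm_num)
  · rintro ⟨a, ha⟩
    exact absurd ha (by simp [Function.Embedding.inl])

end kill

namespace AlgStr

/-- identification of algebras with the same structure constants -/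
def castHom {R : Type*} [CommRing R] {ι : Type*} [Fintype ι] [DecidableEq ι] {A B : AlgStr R ι}
    (hm : ∀ a b k, A.m a b k = B.m a b k) (h1 : A.one = B.one) : A.Carrier →+* B.Carrier where
  toFun := fun x => x
  map_one' := by
    funext k
    show (if A.one = k then 1 else 0) = if B.one = k then 1 else 0
    rw [h1]
  map_mul' := fun x y => by
    funext k
    show ∑ a, ∑ b, x a * y b * A.m a b k = ∑ a, ∑ b, x a * y b * B.m a b k
    refine Finset.sum_congr rfl fun a _ => Finset.sum_congr rfl fun b _ => ?_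
    rw [hm]
  map_zero' := rfl
  map_add' := fun x y => rfl

variable {ι : Type} [Fintype ι] [DecidableEq ι] (A : AlgStr ℂ ι) (d : ι → ℕ)

/-- Multiply the component of degree `p` by `ζ ^ p`. -/
noncomputable def gFun (ζ : ℂ) (x : A.Carrier) : A.Carrier := fun k => ζ ^ d k * x k

theorem gFun_apply (ζ : ℂ) (x : A.Carrier) (k : ι) : A.gFun d ζ x k = ζ ^ d k * x k := rfl

/-- The grading automorphism attached to an `r`-th root of unity. -/
noncomputable def gHom {r : ℕ} (hd : ∀ a b k, A.m a b k ≠ 0 → ∃ q, d a + d b = d k + r * q)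
    (h1 : d A.one = 0) {ζ : ℂ} (hζ : ζ ^ r = 1) : A.Carrier →ₐ[ℂ] A.Carrier :=
  AlgHom.ofLinearMap
    { toFun := A.gFun d ζ
      map_add' := fun x y => by
        funext k
        rw [AlgStr.add_apply, gFun_apply, gFun_apply, gFun_apply, AlgStr.add_apply]
        ring
      map_smul' := fun c x => by
        funext k
        rw [AlgStr.smul_apply, RingHom.id_apply, gFun_apply, gFun_apply, AlgStr.smul_apply]
        ring }
    (by
      funext k
      show ζ ^ d k * (1 : A.Carrier) k = (1 : A.Carrier) k
      rw [AlgStr.one_apply]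
      by_cases h : A.one = k
      · rw [← h, h1, pow_zero, _root_.one_mul]
      · rw [if_neg h, mul_zero])
    (fun x y => by
      show A.gFun d ζ (x * y) = A.gFun d ζ x * A.gFun d ζ y
      funext k
      rw [gFun_apply, AlgStr.mul_apply, AlgStr.mul_apply, Finset.mul_sum]
      refine Finset.sum_congr rfl fun a _ => ?_
      rw [Finset.mul_sum]
      refine Finset.sum_congr rfl fun b _ => ?_
      rw [gFun_apply, gFun_apply]
      by_cases h2 : A.m a b k = 0
      · rw [h2]; ring
      obtain ⟨q, hq⟩ := hd a b k h2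
      have h3 : ζ ^ d a * ζ ^ d b = ζ ^ d k := by
        rw [← pow_add, hq, pow_add, pow_mul, hζ, one_pow, mul_one]
      rw [← h3]; ring)

theorem gHom_apply {r : ℕ} (hd : ∀ a b k, A.m a b k ≠ 0 → ∃ q, d a + d b = d k + r * q)
    (h1 : d A.one = 0) {ζ : ℂ} (hζ : ζ ^ r = 1) (x : A.Carrier) (k : ι) :
    A.gHom d hd h1 hζ x k = ζ ^ d k * x k := rfl

end AlgStr

namespace FanoGW

variable {κ ν : Type} [Fintype κ] [DecidableEq κ] [Fintype ν] [DecidableEq ν]
variable {X : FanoGW (κ ⊕ ν)} {o : κ} (ho : X.one = Sum.inl o)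
variable (hspan : proj κ ν ∈ Submodule.span ℂ {g | X.IsSymmetry g})

theorem QHinv_m (a b k : κ) :
    (QHinv ho hspan).m a b k =
      killCompl (R := ℂ) (Function.Embedding.inl : κ ↪ κ ⊕ ν)
        (X.sc (Sum.inl a) (Sum.inl b) (Sum.inl k)) := rfl

/-- Euler field on the invariant part -/
noncomputable def eulerInv : (QHinv ho hspan).Carrier := fun c =>
  killCompl (R := ℂ) (Function.Embedding.inl : κ ↪ κ ⊕ ν) (X.euler (Sum.inl c))

variable (hc : ∀ j, X.chern (Sum.inr j) = 0)

include hc in
theorem kill_euler_inr (j : ν) :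
    killCompl (R := ℂ) (Function.Embedding.inl : κ ↪ κ ⊕ ν) (X.euler (Sum.inr j)) = 0 := by
  rw [euler, map_add, map_mul, killCompl_X_inr, mul_zero, hc j, map_zero, map_zero, add_zero]

/-- The invariant part of big quantum cohomology, with its Euler field, as a flat algebra. -/
noncomputable def flatInv : FlatAlg κ where
  A := QHinv ho hspan
  E := eulerInv ho hspan
  p := fun k => (X.deg (Sum.inl k) : ℂ)
  flat := fun a k b => by
    have h1 : (eulerInv ho hspan * (QHinv ho hspan).basis b) k =
        killCompl (R := ℂ) (Function.Embedding.inl : κ ↪ κ ⊕ ν)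
          (X.umat (Sum.inl k) (Sum.inl b)) := by
      rw [AlgStr.mul_apply, umat, map_sum, Fintype.sum_sum_type]
      have h2 : ∑ j : ν, killCompl (R := ℂ) (Function.Embedding.inl : κ ↪ κ ⊕ ν)
          (X.euler (Sum.inr j) * X.sc (Sum.inr j) (Sum.inl b) (Sum.inl k)) = 0 := by
        refine Finset.sum_eq_zero fun j _ => ?_
        rw [map_mul, kill_euler_inr hc, zero_mul]
      rw [h2, add_zero]
      refine Finset.sum_congr rfl fun c _ => ?_
      rw [Finset.sum_eq_single b]
      · rw [AlgStr.basis_apply, if_pos rfl, mul_one, map_mul]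
        rfl
      · intro j _ hj
        rw [AlgStr.basis_apply, if_neg (Ne.symm hj), mul_zero, zero_mul]
      · intro h'
        exact absurd (Finset.mem_univ _) h'
    rw [h1, pderiv_killCompl, X.pderiv_umat, map_mul, killCompl_C]
    rfl

/-- The invariant part of small quantum cohomology. -/
noncomputable def smallInv : AlgStr ℂ κ :=
  (QHinv ho hspan).map (constantCoeff (σ := κ) (R := ℂ))

/-- The class `c_1(X)` in the invariant part. -/
noncomputable def c1inv : (smallInv ho hspan).Carrier := fun a => X.chern (Sum.inl a)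

/-- Quantum multiplication by `c_1(X)` on the invariant part of small quantum cohomology. -/
noncomputable def chernMulInv : Module.End ℂ (smallInv ho hspan).Carrier :=
  Algebra.lmul ℂ (smallInv ho hspan).Carrier (c1inv ho hspan)

theorem flatInv_c0 : (flatInv ho hspan hc).c0 = c1inv ho hspan := by
  funext c
  show constantCoeff (killCompl (R := ℂ) (Function.Embedding.inl : κ ↪ κ ⊕ ν)
    (X.euler (Sum.inl c))) = X.chern (Sum.inl c)
  rw [euler, map_add, map_mul, killCompl_C, killCompl_C, killCompl_X_inl, map_add, map_mul]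
  simp

theorem smallInv_m (a b k : κ) :
    (smallInv ho hspan).m a b k = X.smallQH.m (Sum.inl a) (Sum.inl b) (Sum.inl k) := by
  show (X.QHres.map (constantCoeff (σ := κ) (R := ℂ))).m (Sum.inl a) (Sum.inl b)
    (Sum.inl k) = (X.QH.map (constantCoeff (σ := κ ⊕ ν) (R := ℂ))).m (Sum.inl a)
      (Sum.inl b) (Sum.inl k)
  rw [QHres_map_constantCoeff X]

include ho hspan in
theorem smallQH_closed (a b : κ) (k : ν) :
    X.smallQH.m (Sum.inl a) (Sum.inl b) (Sum.inr k) = 0 := by
  have h := closed ho hspan a b k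
  have h2 := congrArg (constantCoeff (σ := κ) (R := ℂ)) h
  rw [map_zero] at h2
  rw [← h2]
  show (X.QH.map (constantCoeff (σ := κ ⊕ ν) (R := ℂ))).m _ _ _ = _
  rw [← QHres_map_constantCoeff X]
  rfl

/-- the inclusion of the invariant part into small quantum cohomology -/
noncomputable def inclInv : (smallInv ho hspan).Carrier →+* X.smallQH.Carrier :=
  (X.smallQH.subHom o ho (smallQH_closed ho hspan)).comp
    (AlgStr.castHom (A := smallInv ho hspan)
      (B := X.smallQH.sub o ho (smallQH_closed ho hspan))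
      (fun a b k => smallInv_m ho hspan a b k) rfl)

theorem inclInv_inl (x : (smallInv ho hspan).Carrier) (a : κ) :
    inclInv ho hspan x (Sum.inl a) = x a := rfl

theorem inclInv_inr (x : (smallInv ho hspan).Carrier) (j : ν) :
    inclInv ho hspan x (Sum.inr j) = 0 := rfl

include hc in
theorem inclInv_c1 : inclInv ho hspan (c1inv ho hspan) = X.c1class := by
  funext k
  rcases k with k | k
  · rfl
  · rw [inclInv_inr]
    exact (hc k).symm

include hc in
theorem c1inv_pow_linearIndependent (htop : X.vcup X.dim ≠ 0) :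
    LinearIndependent ℂ (fun i : Fin (X.dim + 1) => c1inv ho hspan ^ (i : ℕ)) := by
  have h1 := X.c1_pow_linearIndependent htop
  rw [Fintype.linearIndependent_iff] at h1 ⊢
  intro c hc0
  apply h1 c
  have h2 := congrArg (inclInv ho hspan) hc0
  rw [map_sum, map_zero] at h2
  rw [← h2]
  refine Finset.sum_congr rfl fun i _ => ?_
  rw [← inclInv_c1 ho hspan hc, ← map_pow]
  funext k
  rcases k with k | k
  · rw [inclInv_inl, AlgStr.smul_apply, AlgStr.smul_apply, inclInv_inl]
  · rw [inclInv_inr, AlgStr.smul_apply, inclInv_inr, mul_zero]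

include hc in
/-- Semisimplicity at the generic invariant point, for families with minimal invariant
cohomology. -/
theorem ambient_iff (hN : Fintype.card κ = X.dim + 1) (htop : X.vcup X.dim ≠ 0) :
    X.QHres.GenericallySemisimple ↔ (chernMulInv ho hspan).charpoly.Separable := by
  have hreg := c1inv_pow_linearIndependent ho hspan hc htop
  have hreg' : LinearIndependent ℂ
      (fun i : Fin (Fintype.card κ) => (flatInv ho hspan hc).c0 ^ (i : ℕ)) := by
    rw [hN, flatInv_c0]
    exact hreg
  rw [generic_iff_inv ho hspan]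
  have h1 := (flatInv ho hspan hc).generic_iff_small hreg'
  have h2 : (flatInv ho hspan hc).A.GenericallySemisimple ↔
      (QHinv ho hspan).GenericallySemisimple := Iff.rfl
  rw [← h2, h1]
  have h3 : IsSemisimpleRing ((flatInv ho hspan hc).A.map (constantCoeff (σ := κ)
      (R := ℂ))).Carrier ↔ IsSemisimpleRing (smallInv ho hspan).Carrier := Iff.rfl
  rw [h3, isSemisimpleRing_iff_isReduced ℂ,
    isReduced_iff_separable_of_cyclic (c1inv ho hspan) (n := X.dim + 1)
      (by rw [finrank_carrier, hN]) hreg]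
  rfl

include ho hspan hc in
theorem ambient_index (hN : Fintype.card κ = X.dim + 1) (htop : X.vcup X.dim ≠ 0)
    (hss : X.QHres.GenericallySemisimple) {r : ℕ} (hr0 : 0 < r) (hr : ∀ β, r ∣ X.c1 β) :
    r ∣ X.dim ∨ r ∣ X.dim + 1 := by
  have hreg := c1inv_pow_linearIndependent ho hspan hc htop
  have hn : Module.finrank ℂ (smallInv ho hspan).Carrier = X.dim + 1 := by
    rw [finrank_carrier, hN]
  have hred : IsReduced (smallInv ho hspan).Carrier := by
    rw [isReduced_iff_separable_of_cyclic (c1inv ho hspan) hn hreg]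
    exact (ambient_iff ho hspan hc hN htop).1 hss
  have hζ := Complex.isPrimitiveRoot_exp r hr0.ne'
  have hd : ∀ a b k, (smallInv ho hspan).m a b k ≠ 0 →
      ∃ q, X.deg (Sum.inl a) + X.deg (Sum.inl b) = X.deg (Sum.inl k) + r * q := by
    intro a b k h
    rw [smallInv_m] at h
    exact X.smallQH_deg hr _ _ _ h
  have h1 : X.deg (Sum.inl (smallInv ho hspan).one) = 0 := by
    show X.deg (Sum.inl o) = 0
    rw [← ho, X.deg_one]
  have h := card_mod_of_reduced (c1inv ho hspan) hn (Nat.succ_pos _) hr0 hreg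
    ((smallInv ho hspan).gHom (fun k => X.deg (Sum.inl k)) hd h1 hζ.pow_eq_one) hζ (by
      funext k
      rw [AlgStr.gHom_apply, AlgStr.smul_apply]
      by_cases h : X.chern (Sum.inl k) = 0
      · have h2 : c1inv ho hspan k = 0 := h
        rw [h2, mul_zero, mul_zero]
      · rw [X.chern_deg _ h, pow_one])
  rw [Nat.add_sub_cancel] at h
  exact h.symm

/-- If there is no complement, the restricted family is the whole big quantum cohomology. -/
theorem generic_of_isEmpty [IsEmpty ν] (h : X.QH.GenericallySemisimple) :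
    X.QHres.GenericallySemisimple := by
  rw [AlgStr.genericallySemisimple_iff] at h ⊢
  rw [QHres, AlgStr.disc_map]
  intro h0
  apply h
  ext m
  have h1 := congrArg (coeff (m.comapDomain Sum.inl (Sum.inl_injective.injOn))) h0
  have h2 : coeff (m.comapDomain Sum.inl (Sum.inl_injective.injOn))
      (killCompl (R := ℂ) (Function.Embedding.inl : κ ↪ κ ⊕ ν) X.QH.disc) =
      coeff m X.QH.disc := by
    rw [coeff_killCompl]
    congr 2
    ext k
    rcases k with k | k
    · exact Finsupp.embDomain_apply_self (Function.Embedding.inl : κ ↪ κ ⊕ ν) _ k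
    · exact isEmptyElim k
  rw [map_zero] at h1 ⊢
  rw [← h2]
  exact h1

end FanoGW

end Pool.Agent.Helper18.Dub
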