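import Pool.Agent.Helper18.Dub.Small

/-!
# Folded Betti numbers
-/

open scoped BigOperators
open Finset

namespace Pool.Agent.Helper18.Dub

section fold

variable {ι : Type*} [Fintype ι]

/-- Fourier inversion over the group of `r`-th roots of unity. -/
theorem fold_of_roots {r : ℕ} (hr : 0 < r) (d : ι → ℕ) (m : ℕ) (hm : m ≤ Fintype.card ι)
    (h : ∀ ζ : ℂ, ζ ^ r = 1 → ζ ≠ 1 → ∑ k, ζ ^ d k = m) :
    ∃ q : ℕ, ∀ j : ℕ, (Finset.univ.filter fun k => d k ≡ j [MOD r]).card =
      q + if r ∣ j then m else 0 := by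
  classical
  set ω : ℂ := Complex.exp (2 * Real.pi * Complex.I / r) with hωdef
  have hω : IsPrimitiveRoot ω r := Complex.isPrimitiveRoot_exp r hr.ne'
  -- geometric sums
  have hgeom : ∀ s : ℕ, ∑ l ∈ Finset.range r, (ω ^ s) ^ l = if r ∣ s then (r : ℂ) else 0 := by
    intro s
    by_cases hs : r ∣ s
    · rw [if_pos hs]
      obtain ⟨t, rfl⟩ := hs
      rw [pow_mul, hω.pow_eq_one]
      simp
    · rw [if_neg hs]
      have h1 : ω ^ s ≠ 1 := fun h => hs (hω.dvd_of_pow_eq_one s h)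
      have h2 := mul_geom_sum (ω ^ s) r
      have h3 : (ω ^ s) ^ r = 1 := by rw [← pow_mul, mul_comm, pow_mul, hω.pow_eq_one, one_pow]
      rw [h3, sub_self] at h2
      exact (mul_eq_zero.1 h2).resolve_left (sub_ne_zero.2 h1)
  have hmod : ∀ (j : ℕ) (k : ι), d k ≡ j [MOD r] ↔ r ∣ d k + (r - 1) * j := by
    intro j k
    have e1 : d k + (r - 1) * j + j = d k + r * j := by
      obtain ⟨r', rfl⟩ : ∃ r', r = r' + 1 := ⟨r - 1, by omega⟩
      rw [Nat.add_sub_cancel]; ring
    constructor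
    · intro h1
      have h2 : d k + (r - 1) * j ≡ j + (r - 1) * j [MOD r] := h1.add_right _
      have h3 : j + (r - 1) * j = r * j := by
        obtain ⟨r', rfl⟩ : ∃ r', r = r' + 1 := ⟨r - 1, by omega⟩
        rw [Nat.add_sub_cancel]; ring
      rw [h3] at h2
      exact (Nat.modEq_zero_iff_dvd.1 (h2.trans (Nat.modEq_zero_iff_dvd.2 (dvd_mul_right r j))))
    · intro h1
      have h2 : d k + (r - 1) * j + j ≡ 0 + j [MOD r] :=
        (Nat.modEq_zero_iff_dvd.2 h1).add_right j
      rw [e1, zero_add] at h2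
      have h3 : d k + r * j ≡ d k + 0 [MOD r] :=
        (Nat.modEq_zero_iff_dvd.2 (dvd_mul_right r j)).add_left (d k)
      rw [add_zero] at h3
      exact h3.symm.trans h2
  have key : ∀ j : ℕ, (r : ℂ) * ((Finset.univ.filter fun k => d k ≡ j [MOD r]).card : ℂ) =
      (Fintype.card ι : ℂ) - m + m * (if r ∣ j then (r : ℂ) else 0) := by
    intro j
    have h1 : (r : ℂ) * ((Finset.univ.filter fun k => d k ≡ j [MOD r]).card : ℂ) =
        ∑ k, ∑ l ∈ Finset.range r, (ω ^ (d k + (r - 1) * j)) ^ l := by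
      rw [Finset.sum_congr rfl fun k _ => hgeom _, Finset.card_filter, Nat.cast_sum,
        Finset.mul_sum]
      refine Finset.sum_congr rfl fun k _ => ?_
      by_cases hk : d k ≡ j [MOD r]
      · rw [if_pos hk, if_pos ((hmod j k).1 hk)]; simp
      · rw [if_neg hk, if_neg (fun h => hk ((hmod j k).2 h))]; simp
    rw [h1, Finset.sum_comm]
    have h2 : ∀ l ∈ Finset.range r, ∑ k, (ω ^ (d k + (r - 1) * j)) ^ l =
        (ω ^ ((r - 1) * j)) ^ l * (m : ℂ) + if l = 0 then (Fintype.card ι : ℂ) - m else 0 := by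
      intro l hl
      have h3 : ∀ k, (ω ^ (d k + (r - 1) * j)) ^ l = (ω ^ ((r - 1) * j)) ^ l * (ω ^ l) ^ d k := by
        intro k
        rw [pow_add, mul_pow, mul_comm]
        congr 1
        rw [← pow_mul, ← pow_mul, mul_comm]
      rw [Finset.sum_congr rfl fun k _ => h3 k, ← Finset.mul_sum]
      by_cases hl0 : l = 0
      · subst hl0
        rw [if_pos rfl]
        simp
      · rw [if_neg hl0, add_zero, h (ω ^ l)]
        · rw [← pow_mul, mul_comm, pow_mul, hω.pow_eq_one, one_pow]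
        · intro h4
          have h5 := hω.dvd_of_pow_eq_one l h4
          have h6 := Nat.le_of_dvd (Nat.pos_of_ne_zero hl0) h5
          have h7 := Finset.mem_range.1 hl
          omega
    rw [Finset.sum_congr rfl h2, Finset.sum_add_distrib, ← Finset.sum_mul, hgeom,
      Finset.sum_ite_eq', if_pos (Finset.mem_range.2 hr)]
    have h8 : r ∣ (r - 1) * j ↔ r ∣ j := by
      constructor
      · intro h9
        have hcop : Nat.Coprime r (r - 1) := by
          obtain ⟨r', rfl⟩ : ∃ r', r = r' + 1 := ⟨r - 1, by omega⟩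
          rw [Nat.add_sub_cancel]
          exact (Nat.coprime_self_add_left).2 (Nat.coprime_one_left r')
        exact hcop.dvd_of_dvd_mul_left h9
      · exact fun h9 => Dvd.dvd.mul_left h9 _
    by_cases hj : r ∣ j
    · rw [if_pos (h8.2 hj), if_pos hj]; ring
    · rw [if_neg (fun h9 => hj (h8.1 h9)), if_neg hj]; ring
  have keyZ : ∀ j : ℕ, (r : ℤ) * ((Finset.univ.filter fun k => d k ≡ j [MOD r]).card : ℤ) =
      (Fintype.card ι : ℤ) - m + m * (if r ∣ j then (r : ℤ) else 0) := by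
    intro j
    have := key j
    by_cases hj : r ∣ j
    · rw [if_pos hj] at this ⊢; exact_mod_cast this
    · rw [if_neg hj] at this ⊢; exact_mod_cast this
  set n0 := (Finset.univ.filter fun k => d k ≡ 0 [MOD r]).card with hn0
  have h0 := keyZ 0
  rw [if_pos (dvd_zero r), ← hn0] at h0
  have hrz : (0 : ℤ) < r := by exact_mod_cast hr
  have hmz : (m : ℤ) ≤ Fintype.card ι := by exact_mod_cast hm
  have h10 : (m : ℤ) ≤ n0 := by
    by_contra hlt
    push Not at hlt
    have h11 : (r : ℤ) * ((m : ℤ) - n0) > 0 := mul_pos hrz (by omega)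
    nlinarith
  have h10' : m ≤ n0 := by exact_mod_cast h10
  refine ⟨n0 - m, fun j => ?_⟩
  have hj := keyZ j
  have h12 : (r : ℤ) * ((Finset.univ.filter fun k => d k ≡ j [MOD r]).card : ℤ) =
      r * (((n0 - m + if r ∣ j then m else 0 : ℕ)) : ℤ) := by
    rw [hj]
    by_cases hrj : r ∣ j
    · rw [if_pos hrj, if_pos hrj]
      push_cast [Nat.cast_sub h10']
      linear_combination -h0
    · rw [if_neg hrj, if_neg hrj]
      push_cast [Nat.cast_sub h10']
      linear_combination -h0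
  have h13 := mul_left_cancel₀ hrz.ne' h12
  exact_mod_cast h13

end fold

namespace FanoGW

variable {ι : Type} [Fintype ι] [DecidableEq ι] (X : FanoGW ι)

/-- Multiply the component of degree `p` by `ζ ^ p`. -/
noncomputable def gradFun (ζ : ℂ) (x : X.smallQH.Carrier) : X.smallQH.Carrier :=
  fun k => ζ ^ X.deg k * x k

theorem gradFun_apply (ζ : ℂ) (x : X.smallQH.Carrier) (k : ι) :
    X.gradFun ζ x k = ζ ^ X.deg k * x k := rfl

theorem gradFun_mul {r : ℕ} (hr : ∀ β, r ∣ X.c1 β) {ζ : ℂ} (hζ : ζ ^ r = 1)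
    (x y : X.smallQH.Carrier) : X.gradFun ζ (x * y) = X.gradFun ζ x * X.gradFun ζ y := by
  funext k
  rw [gradFun_apply, AlgStr.mul_apply, AlgStr.mul_apply, Finset.mul_sum]
  refine Finset.sum_congr rfl fun a _ => ?_
  rw [Finset.mul_sum]
  refine Finset.sum_congr rfl fun b _ => ?_
  rw [gradFun_apply, gradFun_apply]
  by_cases h2 : X.smallQH.m a b k = 0
  · rw [h2]; ring
  obtain ⟨q, hq⟩ := X.smallQH_deg hr a b k h2
  have h3 : ζ ^ X.deg a * ζ ^ X.deg b = ζ ^ X.deg k := by
    rw [← pow_add, hq, pow_add, pow_mul, hζ, one_pow, mul_one]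
  rw [← h3]; ring

/-- The grading automorphism of small quantum cohomology attached to an `r`-th root of unity. -/
noncomputable def grad {r : ℕ} (hr : ∀ β, r ∣ X.c1 β) {ζ : ℂ} (hζ : ζ ^ r = 1) :
    X.smallQH.Carrier →ₐ[ℂ] X.smallQH.Carrier :=
  AlgHom.ofLinearMap
    { toFun := X.gradFun ζ
      map_add' := fun x y => by
        funext k
        rw [AlgStr.add_apply, gradFun_apply, gradFun_apply, gradFun_apply, AlgStr.add_apply]
        ring
      map_smul' := fun c x => by
        funext k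
        rw [AlgStr.smul_apply, RingHom.id_apply, gradFun_apply, gradFun_apply, AlgStr.smul_apply]
        ring }
    (by
      funext k
      show ζ ^ X.deg k * (1 : X.smallQH.Carrier) k = (1 : X.smallQH.Carrier) k
      rw [AlgStr.one_apply]
      by_cases h : X.smallQH.one = k
      · have h1 : X.deg k = 0 := by
          rw [← h]; exact X.deg_one
        rw [h1, pow_zero, one_mul]
      · rw [if_neg h, mul_zero])
    (fun x y => X.gradFun_mul hr hζ x y)

theorem grad_apply {r : ℕ} (hr : ∀ β, r ∣ X.c1 β) {ζ : ℂ} (hζ : ζ ^ r = 1)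
    (x : X.smallQH.Carrier) (k : ι) : X.grad hr hζ x k = ζ ^ X.deg k * x k := rfl

theorem grad_c1 {r : ℕ} (hr : ∀ β, r ∣ X.c1 β) {ζ : ℂ} (hζ : ζ ^ r = 1) :
    X.grad hr hζ X.c1class = ζ • X.c1class := by
  funext k
  rw [grad_apply, AlgStr.smul_apply]
  by_cases h : X.chern k = 0
  · show ζ ^ X.deg k * X.chern k = ζ * X.chern k
    rw [h]; ring
  · rw [X.chern_deg k h, pow_one]

theorem trace_grad {r : ℕ} (hr : ∀ β, r ∣ X.c1 β) {ζ : ℂ} (hζ : ζ ^ r = 1) :
    LinearMap.trace ℂ _ (X.grad hr hζ).toLinearMap = ∑ k, ζ ^ X.deg k := by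
  rw [LinearMap.trace_eq_matrix_trace ℂ X.smallQH.basis, Matrix.trace]
  refine Finset.sum_congr rfl fun k _ => ?_
  rw [Matrix.diag_apply, LinearMap.toMatrix_apply, AlgStr.basis_repr, AlgHom.toLinearMap_apply,
    grad_apply, AlgStr.basis_apply, if_pos rfl, mul_one]

/-- **Values of the Poincaré polynomial at roots of unity.** -/
theorem sum_zeta (hss : X.QH.GenericallySemisimple) {r : ℕ} (hr : ∀ β, r ∣ X.c1 β)
    (hker : Module.finrank ℂ (LinearMap.ker X.chernMul) ≤ 1) {ζ : ℂ} (hζ : ζ ^ r = 1)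
    (hζ1 : ζ ≠ 1) (hζ0 : ζ ≠ 0) :
    ∑ k, ζ ^ X.deg k = (Module.finrank ℂ (LinearMap.ker X.chernMul) : ℂ) := by
  have he : X.chernMul.eigenspace 0 = LinearMap.ker X.chernMul := by
    rw [Module.End.eigenspace_def, zero_smul, sub_zero]
  have h1 := X.simple_of_eigenspace hss 0 (by rw [he]; exact hker)
  have h2 := trace_of_rescale (K := ℂ) X.c1class (X.grad hr hζ) hζ0 hζ1 (X.grad_c1 hr hζ) hker h1
  rw [trace_grad] at h2
  rw [h2, X.finrank_ker_eq hss hker]
  rfl

/-- **Folded Betti numbers.** -/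
theorem folded_betti (hss : X.QH.GenericallySemisimple) {r : ℕ} (hr0 : 0 < r)
    (hr : ∀ β, r ∣ X.c1 β) (hker : Module.finrank ℂ (LinearMap.ker X.chernMul) ≤ 1) :
    ∃ q : ℕ, ∀ j : ℕ, (Finset.univ.filter fun k => X.deg k ≡ j [MOD r]).card =
      q + if r ∣ j then Module.finrank ℂ (LinearMap.ker X.chernMul) else 0 := by
  refine fold_of_roots hr0 X.deg _ ?_ ?_
  · rw [← finrank_carrier X.smallQH]
    exact Submodule.finrank_le _
  · intro ζ hζ hζ1
    refine X.sum_zeta hss hr hker hζ hζ1 ?_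
    intro h0
    rw [h0, zero_pow hr0.ne'] at hζ
    exact zero_ne_one hζ

end FanoGW

end Pool.Agent.Helper18.Dub
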