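import Pool.Agent.Helper18.Dub.Idem

/-!
# Cyclic blocks of the small algebra obstruct generic semisimplicity
-/

open scoped BigOperators
open Finset MvPowerSeries

namespace Pool.Agent.Helper18.Dub

section matrices

variable {κ : Type*} [Fintype κ] [DecidableEq κ]
variable {R : Type*} [CommRing R] {S : Type*} [CommRing S] [Algebra S R]

/-- Block version of the trace identity: `Q` is an idempotent commuting with `U` and `C`. -/
theorem deriv_trace_idem_pow (d : Derivation S R R) (U Cm P Q : Matrix κ κ R)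
    (hc : U * Cm = Cm * U) (hQU : Q * U = U * Q) (hQC : Q * Cm = Cm * Q) (hQ : Q * Q = Q)
    (hU : U.map d = Cm + Cm * P - P * Cm) (n : ℕ) :
    d ((Q * U ^ (n + 1)).trace) = ((n : R) + 1) * (Q * U ^ n * Cm).trace := by
  have h1 : d ((Q * U ^ (n + 1)).trace) = ((Q * U ^ (n + 1)).map d).trace := by
    rw [Matrix.trace, Matrix.trace, map_sum]
    rfl
  have hQn : ∀ k, Q * U ^ k = U ^ k * Q := fun k => (show Commute Q U from hQU).pow_right k
  have hQQ : Q * (Q.map d * Q) = 0 := by
    have h2 : Q.map d = Q.map d * Q + Q * Q.map d := by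
      conv_lhs => rw [← hQ]
      exact map_deriv_mul d Q Q
    have h3 : Q * (Q.map d * Q) = Q * (Q.map d * Q) + Q * (Q.map d * Q) := by
      conv_lhs => rw [h2]
      calc Q * ((Q.map d * Q + Q * Q.map d) * Q) =
          Q * (Q.map d * (Q * Q)) + (Q * Q) * (Q.map d * Q) := by
            simp only [Matrix.mul_add, Matrix.add_mul, Matrix.mul_assoc]
        _ = _ := by rw [hQ]
    exact left_eq_add.1 h3
  have hd0 : (Q.map d * U ^ (n + 1)).trace = 0 := by
    have h2 : Q.map d = Q.map d * Q + Q * Q.map d := by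
      conv_lhs => rw [← hQ]
      exact map_deriv_mul d Q Q
    have h4 : (Q.map d * Q * U ^ (n + 1)).trace = 0 := by
      have : Q.map d * Q * U ^ (n + 1) = (Q.map d * Q * U ^ (n + 1)) * Q := by
        calc Q.map d * Q * U ^ (n + 1) = Q.map d * (Q * Q) * U ^ (n + 1) := by rw [hQ]
          _ = Q.map d * Q * (Q * U ^ (n + 1)) := by simp only [Matrix.mul_assoc]
          _ = Q.map d * Q * (U ^ (n + 1) * Q) := by rw [hQn]
          _ = _ := by simp only [Matrix.mul_assoc]
      rw [this, Matrix.trace_mul_comm, ← Matrix.mul_assoc, hQQ, Matrix.zero_mul,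
        Matrix.trace_zero]
    have h5 : (Q * Q.map d * U ^ (n + 1)).trace = 0 := by
      rw [Matrix.mul_assoc, Matrix.trace_mul_comm, Matrix.mul_assoc, ← hQn, ← Matrix.mul_assoc]
      exact h4
    rw [h2, Matrix.add_mul, Matrix.trace_add, h4, h5, add_zero]
  rw [h1, map_deriv_mul, Matrix.trace_add, hd0, zero_add, trace_mul_map_pow d U n Q hQU, hU,
    Matrix.mul_sub, Matrix.mul_add, Matrix.trace_sub, Matrix.trace_add]
  have h6 : (Q * U ^ n * (P * Cm)).trace = (Q * U ^ n * (Cm * P)).trace := by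
    have hc' : U ^ n * Cm = Cm * U ^ n := ((show Commute U Cm from hc).pow_left n)
    have hc2 : Q * U ^ n * Cm = Cm * (Q * U ^ n) := by
      rw [Matrix.mul_assoc, hc', ← Matrix.mul_assoc, hQC, Matrix.mul_assoc]
    rw [← Matrix.mul_assoc (Q * U ^ n) Cm, hc2, Matrix.mul_assoc Cm, Matrix.trace_mul_comm
      Cm, Matrix.mul_assoc (Q * U ^ n)]
  rw [h6, add_sub_cancel_right]

end matrices

namespace FlatAlg

variable {κ : Type} [Fintype κ] [DecidableEq κ] (F : FlatAlg κ)

/-- Translate the Euler element by a constant. -/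
noncomputable abbrev shift (u : ℂ) : FlatAlg κ where
  A := F.A
  E := F.E - algebraMap (MvPowerSeries κ ℂ) F.A.Carrier (C u)
  p := F.p
  flat := fun a k b => by
    rw [sub_mul, AlgStr.sub_apply, map_sub, F.flat, ← Algebra.smul_def, AlgStr.smul_apply,
      AlgStr.basis_apply]
    have : pderiv ℂ a (C u * (if b = k then (1 : MvPowerSeries κ ℂ) else 0)) = 0 := by
      split_ifs
      · rw [mul_one, pderiv_C]
      · rw [mul_zero, map_zero]
    rw [this, sub_zero]

/-- Block version of `∂_a Tr(E^{n+1}) = (n+1) Tr(E^n e_a)`. -/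
theorem pderiv_trace_idem (e : F.A.Carrier) (he : e * e = e) (a : κ) (n : ℕ) :
    pderiv ℂ a (Algebra.trace (MvPowerSeries κ ℂ) F.A.Carrier (e * F.E ^ (n + 1))) =
      ((n : MvPowerSeries κ ℂ) + 1) *
        Algebra.trace (MvPowerSeries κ ℂ) F.A.Carrier (e * F.E ^ n * F.A.basis a) := by
  rw [Algebra.trace_eq_matrix_trace F.A.basis, Algebra.trace_eq_matrix_trace F.A.basis, map_mul,
    map_pow, map_mul, map_mul, map_pow]
  refine deriv_trace_idem_pow (pderiv ℂ a) F.U (F.Cm a) F.P
    (Algebra.leftMulMatrix F.A.basis e) (F.U_comm a) ?_ ?_ ?_ (F.map_pderiv_U a) n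
  · rw [U, ← map_mul, ← map_mul, mul_comm]
  · rw [Cm, ← map_mul, ← map_mul, mul_comm]
  · rw [← map_mul, he]

theorem pderiv_trace_idem' (e : F.A.Carrier) (he : e * e = e) (a : κ) (n : ℕ) :
    pderiv ℂ a (Algebra.trace (MvPowerSeries κ ℂ) F.A.Carrier (e * F.E ^ n)) =
      (n : MvPowerSeries κ ℂ) *
        Algebra.trace (MvPowerSeries κ ℂ) F.A.Carrier (e * F.E ^ (n - 1) * F.A.basis a) := by
  rcases Nat.eq_zero_or_pos n with h | h
  · subst h
    rw [pow_zero, mul_one, Nat.cast_zero, zero_mul]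
    -- the trace of an idempotent is constant
    have h1 : ((Algebra.trace (MvPowerSeries κ ℂ) F.A.Carrier e)) =
        ((Algebra.leftMulMatrix F.A.basis e)).trace := Algebra.trace_eq_matrix_trace F.A.basis e
    rw [h1]
    have h2 := deriv_trace_idem_pow (pderiv ℂ a) (1 : Matrix κ κ (MvPowerSeries κ ℂ)) 0 0
      (Algebra.leftMulMatrix F.A.basis e) (by simp) (by simp) (by simp)
      (by rw [← map_mul, he]) (by
        ext1 i j
        rw [Matrix.map_apply, Matrix.one_apply]
        split_ifs <;> simp) 0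
    simpa using h2
  · obtain ⟨m, rfl⟩ : ∃ m, n = m + 1 := ⟨n - 1, by omega⟩
    rw [F.pderiv_trace_idem e he, Nat.add_sub_cancel]
    push_cast
    ring

section block

variable {m : ℕ} (eb : (F.A.map (constantCoeff (σ := κ) (R := ℂ))).Carrier)
  (hspan : ∀ x, ∃ c : Fin m → ℂ, eb * x = ∑ i, c i • (eb * F.c0 ^ (i : ℕ)))
  (e : F.A.Carrier) (he : e * e = e)
  (hred : F.A.mapHom (constantCoeff (σ := κ) (R := ℂ)) e = eb)

theorem mapHom_smul (r : MvPowerSeries κ ℂ) (x : F.A.Carrier) :
    F.A.mapHom (constantCoeff (σ := κ) (R := ℂ)) (r • x) =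
      constantCoeff r • F.A.mapHom (constantCoeff (σ := κ) (R := ℂ)) x := by
  funext c
  rw [AlgStr.mapHom_apply, AlgStr.smul_apply, map_mul, AlgStr.smul_apply, AlgStr.mapHom_apply]

include hspan he hred in
/-- By Nakayama the block is generated by the powers of `E`. -/
theorem block_span (x : F.A.Carrier) :
    ∃ c : Fin m → MvPowerSeries κ ℂ, e * x = ∑ i, c i • (e * F.E ^ (i : ℕ)) := by
  let N : Submodule (MvPowerSeries κ ℂ) F.A.Carrier :=
    LinearMap.range (LinearMap.mulLeft (MvPowerSeries κ ℂ) e)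
  let N' : Submodule (MvPowerSeries κ ℂ) F.A.Carrier :=
    Submodule.span (MvPowerSeries κ ℂ) (Set.range fun i : Fin m => e * F.E ^ (i : ℕ))
  let I : Ideal (MvPowerSeries κ ℂ) := RingHom.ker (constantCoeff (σ := κ) (R := ℂ))
  have hI : I ≤ Ideal.jacobson ⊥ := by
    intro f hf
    rw [Ideal.mem_jacobson_bot]
    intro y
    rw [MvPowerSeries.isUnit_iff_constantCoeff, map_add, map_mul, (RingHom.mem_ker).1 hf]
    simp
  have hN : N.FG := by
    have : N = Submodule.map (LinearMap.mulLeft (MvPowerSeries κ ℂ) e) ⊤ :=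
      LinearMap.range_eq_map _
    rw [this]
    exact Submodule.FG.map _ Module.Finite.fg_top
  have hle : N ≤ N' ⊔ I • N := by
    rintro _ ⟨y, rfl⟩
    rw [LinearMap.mulLeft_apply]
    obtain ⟨c, hc⟩ := hspan (F.A.mapHom (constantCoeff (σ := κ) (R := ℂ)) y)
    let v : F.A.Carrier := ∑ i : Fin m, (C (c i) : MvPowerSeries κ ℂ) • (e * F.E ^ (i : ℕ))
    have hv : v ∈ N' := Submodule.sum_mem _ fun i _ =>
      Submodule.smul_mem _ _ (Submodule.subset_span ⟨i, rfl⟩)
    have hw : F.A.mapHom (constantCoeff (σ := κ) (R := ℂ)) (e * y - v) = 0 := by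
      rw [map_sub, map_mul, hred, hc, map_sum, sub_eq_zero]
      refine Finset.sum_congr rfl fun i _ => ?_
      rw [F.mapHom_smul, map_mul, hred, map_pow]
      simp [c0]
    have hew : e * y - v = e * (e * y - v) := by
      have h1 : e * v = v := by
        simp only [v, Finset.mul_sum]
        refine Finset.sum_congr rfl fun i _ => ?_
        rw [mul_smul_comm, ← mul_assoc, he]
      rw [mul_sub, h1, ← mul_assoc, he]
    have hin : e * y - v ∈ I • N := by
      rw [hew, ← F.A.basis.sum_repr (e * y - v), Finset.mul_sum]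
      refine Submodule.sum_mem _ fun c _ => ?_
      rw [mul_smul_comm]
      refine Submodule.smul_mem_smul ?_ ⟨F.A.basis c, rfl⟩
      rw [AlgStr.basis_repr]
      have := congrFun hw c
      rw [AlgStr.mapHom_apply, AlgStr.zero_apply] at this
      exact (RingHom.mem_ker).2 this
    have : e * y = v + (e * y - v) := by ring
    rw [this]
    exact Submodule.add_mem_sup hv hin
  have hfin := Submodule.le_of_le_smul_of_le_jacobson_bot hN hI hle
  have hx : e * x ∈ N' := hfin ⟨x, rfl⟩
  obtain ⟨c, hc⟩ := (Submodule.mem_span_range_iff_exists_fun (MvPowerSeries κ ℂ)).1 hx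
  exact ⟨c, hc.symm⟩

variable (hli : LinearIndependent ℂ (fun i : Fin m => eb * F.c0 ^ (i : ℕ)))

include hli hred in
/-- The powers of `E` in the block are linearly independent over `ℂ[[t]]`. -/
theorem block_indep (v : Fin m → MvPowerSeries κ ℂ)
    (hv : ∑ i, v i • (e * F.E ^ (i : ℕ)) = 0) : v = 0 := by
  classical
  let B := (F.A.map (constantCoeff (σ := κ) (R := ℂ))).Carrier
  let ψ : (Fin m → ℂ) →ₗ[ℂ] B := Fintype.linearCombination ℂ (fun i : Fin m => eb * F.c0 ^ (i : ℕ))
  have hψ : LinearMap.ker ψ = ⊥ := by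
    rw [LinearMap.ker_eq_bot']
    intro w hw
    funext i
    exact Fintype.linearIndependent_iff.1 hli w hw i
  obtain ⟨ℓ, hℓ⟩ := ψ.exists_leftInverse_of_injective hψ
  let M : Matrix (Fin m) (Fin m) (MvPowerSeries κ ℂ) := Matrix.of fun i j =>
    ∑ c, C (ℓ ((F.A.map (constantCoeff (σ := κ) (R := ℂ))).basis c) i) * (e * F.E ^ (j : ℕ)) c
  have hMij : ∀ i j, M i j = ∑ c, C (ℓ ((F.A.map (constantCoeff (σ := κ) (R := ℂ))).basis c) i) *
      (e * F.E ^ (j : ℕ)) c := fun _ _ => rfl
  have hM0 : (constantCoeff (σ := κ) (R := ℂ)).mapMatrix M = 1 := by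
    ext i j
    rw [RingHom.mapMatrix_apply, Matrix.map_apply, hMij, map_sum]
    have h1 : ℓ (ψ (Pi.single j 1)) = Pi.single j 1 := by
      have := LinearMap.congr_fun hℓ (Pi.single j (1 : ℂ))
      simpa using this
    have h2 : ψ (Pi.single j 1) = eb * F.c0 ^ (j : ℕ) := by
      show Fintype.linearCombination ℂ _ _ = _
      rw [Fintype.linearCombination_apply_single, one_smul]
    rw [h2] at h1
    have h3 : eb * F.c0 ^ (j : ℕ) = ∑ c, (constantCoeff ((e * F.E ^ (j : ℕ)) c)) •
        (F.A.map (constantCoeff (σ := κ) (R := ℂ))).basis c := by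
      conv_lhs => rw [← (F.A.map (constantCoeff (σ := κ) (R := ℂ))).basis.sum_repr
        (eb * F.c0 ^ (j : ℕ))]
      refine Finset.sum_congr rfl fun c _ => ?_
      rw [AlgStr.basis_repr]
      congr 1
      rw [← hred, c0, ← map_pow, ← map_mul, AlgStr.mapHom_apply]
    rw [h3, map_sum] at h1
    have h4 := congrFun h1 i
    rw [Finset.sum_apply] at h4
    have h5 : (1 : Matrix (Fin m) (Fin m) ℂ) i j = (Pi.single j (1 : ℂ) : Fin m → ℂ) i := by
      rw [Matrix.one_apply, Pi.single_apply]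
    rw [h5, ← h4]
    refine Finset.sum_congr rfl fun c _ => ?_
    rw [map_smul, Pi.smul_apply, smul_eq_mul, map_mul, mul_comm]
    simp
  have hMdet : M.det ≠ 0 := by
    intro h0
    have := congrArg (constantCoeff (σ := κ) (R := ℂ)) h0
    rw [RingHom.map_det, hM0, Matrix.det_one, map_zero] at this
    exact one_ne_zero this
  refine Matrix.eq_zero_of_mulVec_eq_zero hMdet ?_
  funext i
  rw [Matrix.mulVec, dotProduct]
  have h6 : ∀ j, M i j * v j = ∑ c, C (ℓ ((F.A.map (constantCoeff (σ := κ) (R := ℂ))).basis c) i) *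
      (v j • (e * F.E ^ (j : ℕ))) c := by
    intro j
    rw [hMij, Finset.sum_mul]
    refine Finset.sum_congr rfl fun c _ => ?_
    rw [AlgStr.smul_apply]; ring
  rw [Finset.sum_congr rfl fun j _ => h6 j, Finset.sum_comm]
  rw [Pi.zero_apply]
  refine Finset.sum_eq_zero fun c _ => ?_
  rw [← Finset.mul_sum]
  have h7 : ∑ j, (v j • (e * F.E ^ (j : ℕ))) c = (∑ j, v j • (e * F.E ^ (j : ℕ))) c := by
    have key : ∀ s : Finset (Fin m), (∑ j ∈ s, v j • (e * F.E ^ (j : ℕ))) c =
        ∑ j ∈ s, (v j • (e * F.E ^ (j : ℕ))) c := by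
      intro s
      induction s using Finset.induction_on with
      | empty => simp [AlgStr.zero_apply]
      | insert a s ha ih => rw [Finset.sum_insert ha, Finset.sum_insert ha, AlgStr.add_apply, ih]
    exact (key Finset.univ).symm
  rw [h7, hv, AlgStr.zero_apply, mul_zero]

/-- The Gram matrix of the block. -/
noncomputable def gram (m : ℕ) (e : F.A.Carrier) : Matrix (Fin m) (Fin m) (MvPowerSeries κ ℂ) :=
  Matrix.of fun i j => Algebra.trace (MvPowerSeries κ ℂ) F.A.Carrier (e * F.E ^ ((i : ℕ) + j))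

include hspan he hred in
theorem pderiv_gram_det (a : κ) : ∃ g, pderiv ℂ a (F.gram m e).det = g * (F.gram m e).det := by
  have h0 : ∀ j : Fin m, ∃ G : Fin m → MvPowerSeries κ ℂ,
      e * (((j : ℕ) : F.A.Carrier) * (F.E ^ ((j : ℕ) - 1) * F.A.basis a)) =
        ∑ k, G k • (e * F.E ^ (k : ℕ)) := fun j => F.block_span eb hspan e he hred _
  choose G hG using h0
  have htr : ∀ i j : Fin m, ∑ k, G i k * F.gram m e k j =
      ((i : ℕ) : MvPowerSeries κ ℂ) * Algebra.trace (MvPowerSeries κ ℂ) F.A.Carrier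
        (e * F.E ^ ((i : ℕ) + j - 1) * F.A.basis a) := by
    intro i j
    have h1 : ∑ k, G i k * F.gram m e k j = Algebra.trace (MvPowerSeries κ ℂ) F.A.Carrier
        (e * (((i : ℕ) : F.A.Carrier) * (F.E ^ ((i : ℕ) - 1) * F.A.basis a)) *
          (e * F.E ^ (j : ℕ))) := by
      rw [hG i, Finset.sum_mul, map_sum]
      refine Finset.sum_congr rfl fun k _ => ?_
      have h2 : G i k • (e * F.E ^ (k : ℕ)) * (e * F.E ^ (j : ℕ)) =
          G i k • (e * F.E ^ ((k : ℕ) + j)) := by
        rw [smul_mul_assoc]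
        congr 1
        calc e * F.E ^ (k : ℕ) * (e * F.E ^ (j : ℕ)) = (e * e) * (F.E ^ (k : ℕ) * F.E ^ (j : ℕ)) := by
              ring
          _ = _ := by rw [he, ← pow_add]
      rw [h2, map_smul, smul_eq_mul]
      rfl
    rw [h1]
    rcases Nat.eq_zero_or_pos (i : ℕ) with h | h
    · rw [h]
      simp
    · have h3 : e * (((i : ℕ) : F.A.Carrier) * (F.E ^ ((i : ℕ) - 1) * F.A.basis a)) *
          (e * F.E ^ (j : ℕ)) = ((i : ℕ) : MvPowerSeries κ ℂ) •
            (e * F.E ^ ((i : ℕ) + j - 1) * F.A.basis a) := by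
        have h4 : (i : ℕ) + j - 1 = ((i : ℕ) - 1) + j := by omega
        rw [h4, pow_add, Algebra.smul_def, map_natCast]
        calc e * (((i : ℕ) : F.A.Carrier) * (F.E ^ ((i : ℕ) - 1) * F.A.basis a)) *
              (e * F.E ^ (j : ℕ)) = (e * e) * ((i : ℕ) : F.A.Carrier) *
                (F.E ^ ((i : ℕ) - 1) * F.E ^ (j : ℕ)) * F.A.basis a := by ring
          _ = _ := by rw [he]; ring
      rw [h3, map_smul, smul_eq_mul]
  refine deriv_det_of_congr (pderiv ℂ a) _ (Matrix.of fun k i => G i k) fun i j => ?_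
  have hsymm : ∀ k l, F.gram m e k l = F.gram m e l k := by
    intro k l
    simp only [gram, Matrix.of_apply]
    rw [add_comm (k : ℕ)]
  have h5 : ∑ k, F.gram m e i k * (Matrix.of fun k i => G i k) k j =
      ∑ k, G j k * F.gram m e k i := by
    refine Finset.sum_congr rfl fun k _ => ?_
    rw [Matrix.of_apply, hsymm i k, mul_comm]
  have h6 : ∑ k, (Matrix.of fun k i => G i k) k i * F.gram m e k j =
      ∑ k, G i k * F.gram m e k j := rfl
  rw [h5, h6, htr i j, htr j i]
  have h7 : F.gram m e i j = Algebra.trace (MvPowerSeries κ ℂ) F.A.Carrier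
      (e * F.E ^ ((i : ℕ) + j)) := rfl
  rw [h7, F.pderiv_trace_idem' e he, add_comm (j : ℕ) (i : ℕ)]
  push_cast
  ring

/-- trace commutes with reduction -/
theorem constantCoeff_trace (x : F.A.Carrier) :
    constantCoeff (Algebra.trace (MvPowerSeries κ ℂ) F.A.Carrier x) =
      Algebra.trace ℂ (F.A.map (constantCoeff (σ := κ) (R := ℂ))).Carrier
        (F.A.mapHom (constantCoeff (σ := κ) (R := ℂ)) x) := by
  rw [Algebra.trace_eq_matrix_trace F.A.basis,
    Algebra.trace_eq_matrix_trace (F.A.map (constantCoeff (σ := κ) (R := ℂ))).basis,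
    Matrix.trace, Matrix.trace, map_sum]
  refine Finset.sum_congr rfl fun k _ => ?_
  rw [Matrix.diag_apply, Matrix.diag_apply, Algebra.leftMulMatrix_eq_repr_mul,
    Algebra.leftMulMatrix_eq_repr_mul, AlgStr.basis_repr, AlgStr.basis_repr]
  have h1 : F.A.mapHom (constantCoeff (σ := κ) (R := ℂ)) (F.A.basis k) =
      (F.A.map (constantCoeff (σ := κ) (R := ℂ))).basis k := by
    funext c
    rw [AlgStr.mapHom_apply, AlgStr.basis_apply, AlgStr.basis_apply]
    split_ifs <;> simp
  rw [← h1, ← map_mul, AlgStr.mapHom_apply]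

include hspan he hred hli in
/-- **A cyclic block of dimension at least two obstructs generic semisimplicity.** -/
theorem block_le_one (hnil : IsNilpotent (eb * F.c0)) (hss : F.A.disc ≠ 0) : m ≤ 1 := by
  classical
  by_contra hm
  push Not at hm
  -- the Gram determinant vanishes at the origin
  have hdet0 : constantCoeff (F.gram m e).det = 0 := by
    rw [RingHom.map_det]
    refine Matrix.exists_mulVec_eq_zero_iff.1 ⟨Pi.single ⟨1, hm⟩ 1, ?_, ?_⟩
    · intro h
      have := congrFun h ⟨1, hm⟩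
      rw [Pi.single_eq_same] at this
      exact one_ne_zero this
    · funext i
      rw [Matrix.mulVec_single_one]
      show constantCoeff (F.gram m e i ⟨1, hm⟩) = 0
      have h1 : F.gram m e i ⟨1, hm⟩ = Algebra.trace (MvPowerSeries κ ℂ) F.A.Carrier
          (e * F.E ^ ((i : ℕ) + 1)) := rfl
      rw [h1, F.constantCoeff_trace, map_mul, hred, map_pow]
      have h2 : IsNilpotent (eb * (F.A.mapHom (constantCoeff (σ := κ) (R := ℂ)) F.E) ^
          ((i : ℕ) + 1)) := by
        have h3 : eb * (F.A.mapHom (constantCoeff (σ := κ) (R := ℂ)) F.E) ^ ((i : ℕ) + 1) =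
            (eb * F.c0) * F.c0 ^ (i : ℕ) := by
          rw [pow_succ, c0]; ring
        rw [h3]
        exact (Commute.all _ _).isNilpotent_mul_right hnil
      exact (Algebra.isNilpotent_trace_of_isNilpotent h2).eq_zero
  have hdet : (F.gram m e).det = 0 := by
    choose g hg using fun a => F.pderiv_gram_det eb hspan e he hred a
    exact eq_zero_of_pderiv_dvd _ g hg hdet0
  obtain ⟨v, hv0, hv⟩ := Matrix.exists_mulVec_eq_zero_iff.2 hdet
  set z : F.A.Carrier := ∑ j, v j • (e * F.E ^ (j : ℕ)) with hz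
  have hz0 : z ≠ 0 := fun h => hv0 (F.block_indep eb e hred hli v h)
  have hez : e * z = z := by
    rw [hz, Finset.mul_sum]
    refine Finset.sum_congr rfl fun i _ => ?_
    rw [mul_smul_comm, ← mul_assoc, he]
  have htr : ∀ y, Algebra.trace (MvPowerSeries κ ℂ) F.A.Carrier (y * z) = 0 := by
    intro y
    obtain ⟨c, hc⟩ := F.block_span eb hspan e he hred y
    have h1 : y * z = (e * y) * z := by
      conv_lhs => rw [← hez]
      ring
    rw [h1, hc, Finset.sum_mul, map_sum]
    refine Finset.sum_eq_zero fun i _ => ?_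
    have h2 : c i • (e * F.E ^ (i : ℕ)) * z = ∑ j, c i • (v j • (e * F.E ^ ((i : ℕ) + j))) := by
      rw [hz, Finset.mul_sum]
      refine Finset.sum_congr rfl fun j _ => ?_
      rw [smul_mul_assoc, mul_smul_comm]
      congr 2
      calc e * F.E ^ (i : ℕ) * (e * F.E ^ (j : ℕ)) = (e * e) * (F.E ^ (i : ℕ) * F.E ^ (j : ℕ)) := by
            ring
        _ = _ := by rw [he, ← pow_add]
    rw [h2, map_sum]
    have h3 : ∀ j, Algebra.trace (MvPowerSeries κ ℂ) F.A.Carrier
        (c i • (v j • (e * F.E ^ ((i : ℕ) + j)))) = c i * (F.gram m e i j * v j) := by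
      intro j
      rw [map_smul, map_smul, smul_eq_mul, smul_eq_mul, mul_comm (v j)]
      rfl
    rw [Finset.sum_congr rfl fun j _ => h3 j, ← Finset.mul_sum]
    have h4 := congrFun hv i
    rw [Matrix.mulVec, dotProduct] at h4
    rw [h4, Pi.zero_apply, mul_zero]
  apply hss
  rw [AlgStr.disc, Algebra.discr_def]
  refine Matrix.exists_mulVec_eq_zero_iff.1 ⟨fun c => z c, ?_, ?_⟩
  · intro h
    exact hz0 (funext fun c => congrFun h c)
  · funext i
    rw [Matrix.mulVec, dotProduct, Pi.zero_apply, ← htr (F.A.basis i)]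
    conv_rhs => rw [← F.A.basis.sum_repr z, Finset.mul_sum, map_sum]
    refine Finset.sum_congr rfl fun c _ => ?_
    rw [AlgStr.basis_repr, mul_smul_comm, map_smul, smul_eq_mul, Algebra.traceMatrix_apply,
      Algebra.traceForm_apply, mul_comm]

end block

end FlatAlg

end Pool.Agent.Helper18.Dub
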