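import Pool.Agent.Helper18.Dub.Mono

/-!
# The invariant part detects semisimplicity
-/

open scoped BigOperators
open Finset MvPowerSeries

namespace Pool.Agent.Helper18.Dub

namespace FanoGW

variable {κ ν : Type} [Fintype κ] [DecidableEq κ] [Fintype ν] [DecidableEq ν]
variable {X : FanoGW (κ ⊕ ν)} {o : κ} (ho : X.one = Sum.inl o)
variable (hspan : proj κ ν ∈ Submodule.span ℂ {g | X.IsSymmetry g})

/-- The invariant part of the quantum cohomology, an algebra over `ℂ[[t_a : a ∈ κ]]`. -/
noncomputable def QHinv : AlgStr (MvPowerSeries κ ℂ) κ :=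
  X.QHres.sub o ho (closed ho hspan)

section

variable {S : Type*} [CommRing S] [Algebra ℂ S] (f : MvPowerSeries κ ℂ →ₐ[ℂ] S)

include ho in
/-- `θ(x • φ_b) = ∑ x_a g_{ab}` -/
theorem theta_mul_basis (x : (X.QHf f).Carrier) (b : κ ⊕ ν) :
    ∑ k, algebraMap ℂ S (X.pair k (Sum.inl o)) * (x * (X.QHf f).basis b) k =
      ∑ a, x a * algebraMap ℂ S (X.pair a b) := by
  have h1 : ∀ k, (x * (X.QHf f).basis b) k = ∑ a, x a * (X.QHf f).m a b k := by
    intro k
    rw [AlgStr.mul_apply]
    refine Finset.sum_congr rfl fun a _ => ?_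
    rw [Finset.sum_eq_single b]
    · rw [AlgStr.basis_apply, if_pos rfl, mul_one]
    · intro j _ hj
      rw [AlgStr.basis_apply, if_neg (Ne.symm hj), mul_zero, zero_mul]
    · intro h'
      exact absurd (Finset.mem_univ _) h'
  have h2 : ∀ a, ∑ k, algebraMap ℂ S (X.pair k (Sum.inl o)) * (X.QHf f).m a b k =
      algebraMap ℂ S (X.pair a b) := by
    intro a
    have h3 : ∑ k, C (X.pair k (Sum.inl o)) * X.QHres.m a b k =
        (C (X.pair a b) : MvPowerSeries κ ℂ) := by
      simp only [QHres_m, Finset.mul_sum]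
      rw [Finset.sum_comm]
      have h4 : ∀ l, ∑ k, C (X.pair k (Sum.inl o)) * (C (X.pair⁻¹ k l) * X.rser {a, b, l}) =
          (if l = Sum.inl o then X.rser {a, b, l} else 0) := by
        intro l
        have h5 := congrFun (congrFun X.inv_mul_pair l) (Sum.inl o)
        rw [Matrix.mul_apply, Matrix.one_apply] at h5
        have h6 : ∑ k, C (X.pair k (Sum.inl o)) * (C (X.pair⁻¹ k l) * X.rser {a, b, l}) =
            C (∑ k, X.pair⁻¹ l k * X.pair k (Sum.inl o)) * X.rser {a, b, l} := by
          rw [map_sum, Finset.sum_mul]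
          refine Finset.sum_congr rfl fun k _ => ?_
          rw [X.pairInv_symm l k, map_mul]
          ring
        rw [h6, h5]
        split_ifs <;> simp
      rw [Finset.sum_congr rfl fun l _ => h4 l, Finset.sum_ite_eq', if_pos (Finset.mem_univ _),
        ← ho, mset_rot a b X.one, mset_swap b X.one a, X.rser_unit]
      rw [X.pair_symm]
    have h7 := congrArg f h3
    simp only [map_sum, map_mul f, f_C] at h7
    exact h7
  simp only [h1, Finset.mul_sum]
  rw [Finset.sum_comm]
  refine Finset.sum_congr rfl fun a _ => ?_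
  rw [← h2 a, Finset.mul_sum]
  refine Finset.sum_congr rfl fun k _ => ?_
  ring

include ho hspan in
theorem nondeg (x : (X.QHf f).Carrier) (hx : ∀ y : (X.QHf f).Carrier,
    ∑ a : κ, algebraMap ℂ S (X.pair (Sum.inl a) (Sum.inl o)) * (x * y) (Sum.inl a) = 0) :
    x = 0 := by
  have h1 : ∀ b, ∑ a, x a * algebraMap ℂ S (X.pair a b) = 0 := by
    intro b
    rw [← theta_mul_basis ho f x b, Fintype.sum_sum_type, hx, zero_add]
    refine Finset.sum_eq_zero fun j _ => ?_
    rw [pair_inr_one ho hspan, map_zero, zero_mul]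
  funext c
  rw [AlgStr.zero_apply]
  have h2 : ∑ b, (∑ a, x a * algebraMap ℂ S (X.pair a b)) * algebraMap ℂ S (X.pair⁻¹ b c) =
      x c := by
    simp only [Finset.sum_mul]
    rw [Finset.sum_comm]
    have h3 : ∀ a, ∑ b, x a * algebraMap ℂ S (X.pair a b) * algebraMap ℂ S (X.pair⁻¹ b c) =
        if a = c then x a else 0 := by
      intro a
      have h5 := congrFun (congrFun X.pair_mul_inv a) c
      rw [Matrix.mul_apply, Matrix.one_apply] at h5
      have h6 : ∑ b, x a * algebraMap ℂ S (X.pair a b) * algebraMap ℂ S (X.pair⁻¹ b c) =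
          x a * algebraMap ℂ S (∑ b, X.pair a b * X.pair⁻¹ b c) := by
        rw [map_sum, Finset.mul_sum]
        refine Finset.sum_congr rfl fun b _ => ?_
        rw [map_mul, mul_assoc]
      rw [h6, h5]
      split_ifs <;> simp
    rw [Finset.sum_congr rfl fun a _ => h3 a]
    rw [Finset.sum_ite_eq' Finset.univ c (fun a => x a), if_pos (Finset.mem_univ _)]
  rw [← h2]
  refine Finset.sum_eq_zero fun b _ => ?_
  rw [h1 b, zero_mul]

/-- **Semisimplicity is detected on the invariant part**, over any base. -/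
theorem isReduced_iff_inv :
    IsReduced (X.QHf f).Carrier ↔ IsReduced ((QHinv ho hspan).map f.toRingHom).Carrier := by
  have hcl : ∀ a b k, (X.QHf f).m (Sum.inl a) (Sum.inl b) (Sum.inr k) = 0 := by
    intro a b k
    show f (X.QHres.m (Sum.inl a) (Sum.inl b) (Sum.inr k)) = 0
    rw [closed ho hspan, map_zero]
  have hsub : (X.QHf f).sub o ho hcl = (QHinv ho hspan).map f.toRingHom := rfl
  constructor
  · intro h
    rw [← hsub]
    exact isReduced_of_injective ((X.QHf f).subHom o ho hcl) ((X.QHf f).subHom_injective o ho hcl)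
  · intro h
    rw [← hsub] at h
    refine (X.QHf f).isReduced_of_sub o ho hcl
      (fun a => algebraMap ℂ S (X.pair (Sum.inl a) (Sum.inl o))) (nondeg ho hspan f) ?_ h
    intro x hx
    rw [← act_proj]
    exact act_nilpotent_of_mem_span ho f hspan x hx

end

/-- `constantCoeff` as an algebra homomorphism -/
noncomputable def ccAlg (κ : Type) : MvPowerSeries κ ℂ →ₐ[ℂ] ℂ :=
  { (constantCoeff : MvPowerSeries κ ℂ →+* ℂ) with
    commutes' := fun z => by
      rw [MvPowerSeries.algebraMap_apply]
      simp }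

theorem generic_iff_inv : X.QHres.GenericallySemisimple ↔
    (QHinv ho hspan).GenericallySemisimple := by
  rw [AlgStr.genericallySemisimple_iff, AlgStr.genericallySemisimple_iff,
    ← AlgStr.isReduced_iff_disc, ← AlgStr.isReduced_iff_disc]
  exact isReduced_iff_inv ho hspan (AlgHom.id ℂ (MvPowerSeries κ ℂ))

theorem small_iff_inv : IsSemisimpleRing (X.QHres.map (constantCoeff (σ := κ) (R := ℂ))).Carrier ↔
    IsSemisimpleRing ((QHinv ho hspan).map (constantCoeff (σ := κ) (R := ℂ))).Carrier := by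
  rw [isSemisimpleRing_iff_isReduced ℂ, isSemisimpleRing_iff_isReduced ℂ]
  exact isReduced_iff_inv ho hspan (ccAlg κ)

theorem QHres_map_constantCoeff (X : FanoGW (κ ⊕ ν)) :
    X.QHres.map (constantCoeff (σ := κ) (R := ℂ)) =
      X.QH.map (constantCoeff (σ := κ ⊕ ν) (R := ℂ)) := by
  have h : ∀ F : MvPowerSeries (κ ⊕ ν) ℂ, constantCoeff (killCompl (R := ℂ)
      (Function.Embedding.inl : κ ↪ κ ⊕ ν) F) = constantCoeff F := by
    intro F
    rw [← coeff_zero_eq_constantCoeff_apply, ← coeff_zero_eq_constantCoeff_apply,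
      coeff_killCompl, Finsupp.embDomain_zero]
  have h2 : ∀ a b k, (X.QHres.map (constantCoeff (σ := κ) (R := ℂ))).m a b k =
      (X.QH.map (constantCoeff (σ := κ ⊕ ν) (R := ℂ))).m a b k := fun a b k => h _
  have h3 : (X.QHres.map (constantCoeff (σ := κ) (R := ℂ))).m =
      (X.QH.map (constantCoeff (σ := κ ⊕ ν) (R := ℂ))).m := by
    funext a b k
    exact h2 a b k
  have hext : ∀ A B : AlgStr ℂ (κ ⊕ ν), A.m = B.m → A.one = B.one → A = B := by
    intro A B h1 h2
    cases A; cases B
    simp only at h1 h2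
    subst h1; subst h2
    rfl
  exact hext _ _ h3 rfl

theorem big_of_generic (X : FanoGW (κ ⊕ ν)) (h : X.QHres.GenericallySemisimple) :
    X.QH.GenericallySemisimple := by
  rw [AlgStr.genericallySemisimple_iff] at h ⊢
  intro h0
  apply h
  rw [QHres, AlgStr.disc_map, h0, map_zero]

end FanoGW

end Pool.Agent.Helper18.Dub
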