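import Pool.Agent.Helper18.Dub.Block

/-!
# Eigenvalue formulation
-/

open scoped BigOperators
open Finset

namespace Pool.Agent.Helper18.Dub

section cyclic

variable {K : Type*} [Field K] {B : Type*} [CommRing B] [Algebra K B] [FiniteDimensional K B]

theorem finrank_ker_pow_le {V : Type*} [AddCommGroup V] [Module K V] [FiniteDimensional K V]
    (f : Module.End K V) (h : Module.finrank K (LinearMap.ker f) ≤ 1) (j : ℕ) :
    Module.finrank K (LinearMap.ker (f ^ j)) ≤ j := by
  induction j with
  | zero =>
    have : LinearMap.ker (f ^ 0) = ⊥ := by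
      rw [pow_zero]; exact LinearMap.ker_id
    rw [this, finrank_bot]
  | succ j ih =>
    -- `f^j` maps `ker f^{j+1}` into `ker f` with kernel `ker f^j`
    let W := LinearMap.ker (f ^ (j + 1))
    let g : W →ₗ[K] V := (f ^ j).comp W.subtype
    have h1 := LinearMap.finrank_range_add_finrank_ker g
    have h2 : LinearMap.range g ≤ LinearMap.ker f := by
      rintro _ ⟨x, rfl⟩
      have hx := x.2
      rw [LinearMap.mem_ker] at hx ⊢
      rw [pow_succ'] at hx
      exact hx
    have h3 : Module.finrank K (LinearMap.range g) ≤ 1 :=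
      le_trans (Submodule.finrank_mono h2) h
    have h4 : Module.finrank K (LinearMap.ker g) ≤ Module.finrank K (LinearMap.ker (f ^ j)) := by
      let ι : LinearMap.ker g →ₗ[K] LinearMap.ker (f ^ j) :=
        LinearMap.codRestrict (LinearMap.ker (f ^ j)) (W.subtype.comp (LinearMap.ker g).subtype)
          (fun x => by
            have := x.2
            rw [LinearMap.mem_ker] at this ⊢
            exact this)
      refine LinearMap.finrank_le_finrank_of_injective (f := ι) ?_
      intro x y hxy
      have := congrArg Subtype.val hxy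
      exact Subtype.ext (Subtype.ext this)
    show Module.finrank K W ≤ j + 1
    omega

omit [FiniteDimensional K B] in
theorem lmul_pow_apply (n x : B) (k : ℕ) : ((Algebra.lmul K B n) ^ k) x = n ^ k * x := by
  rw [← map_pow]; rfl

/-- If the kernel of multiplication by `n` is at most one-dimensional, then the block of `n` at `0`
is cyclic. -/
theorem cyclic_of_ker' (n : B)
    (h : Module.finrank K (LinearMap.ker (Algebra.lmul K B n)) ≤ 1) :
    ∃ eb d : B, eb * eb = eb ∧ n * d = 1 - eb ∧ IsNilpotent (eb * n) ∧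
      (∀ x, ∃ c : Fin (Module.finrank K ((Algebra.lmul K B n).maxGenEigenspace 0)) → K,
        eb * x = ∑ i, c i • (eb * n ^ (i : ℕ))) ∧
      LinearIndependent K (fun i : Fin (Module.finrank K
        ((Algebra.lmul K B n).maxGenEigenspace 0)) => eb * n ^ (i : ℕ)) := by
  classical
  set L : Module.End K B := Algebra.lmul K B n with hL
  obtain ⟨k, hk1, hk2'⟩ := ((LinearMap.eventually_isCompl_ker_pow_range_pow L).and
    (Filter.eventually_ge_atTop (Module.finrank K B + 1))).exists
  have hk2 : Module.finrank K B ≤ k := by omega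
  have hV : L.maxGenEigenspace 0 = LinearMap.ker (L ^ k) := by
    rw [Module.End.maxGenEigenspace_eq_genEigenspace_finrank]
    apply le_antisymm
    · have : (L.genEigenspace 0) (Module.finrank K B) ≤ (L.genEigenspace 0) k := by
        refine (L.genEigenspace 0).monotone ?_
        exact_mod_cast hk2
      refine this.trans ?_
      rw [Module.End.genEigenspace_nat, zero_smul, sub_zero]
    · intro x hx
      have h2 : x ∈ L.maxGenEigenspace 0 := by
        rw [Module.End.mem_maxGenEigenspace]
        refine ⟨k, ?_⟩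
        rw [zero_smul, sub_zero]
        exact hx
      rwa [Module.End.maxGenEigenspace_eq_genEigenspace_finrank] at h2
  have hmem : ∀ x, x ∈ LinearMap.ker (L ^ k) ↔ n ^ k * x = 0 := by
    intro x
    rw [LinearMap.mem_ker, hL, lmul_pow_apply]
  obtain ⟨eb, heb, fb, hfb, hef⟩ := Submodule.mem_sup.1
    (by rw [hk1.sup_eq_top]; exact Submodule.mem_top :
      (1 : B) ∈ LinearMap.ker (L ^ k) ⊔ LinearMap.range (L ^ k))
  rw [hmem] at heb
  obtain ⟨w, hw⟩ := hfb
  rw [hL, lmul_pow_apply] at hw
  have hid : ∀ x, n ^ k * x = 0 → eb * x = x := by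
    intro x hx
    have h1 : x = eb * x + fb * x := by rw [← add_mul, hef, one_mul]
    have h2 : fb * x = 0 := by
      rw [← hw]
      calc n ^ k * w * x = w * (n ^ k * x) := by ring
        _ = 0 := by rw [hx, mul_zero]
    rw [h2, add_zero] at h1
    exact h1.symm
  have hee : eb * eb = eb := hid eb heb
  have hin : ∀ x, n ^ k * (eb * x) = 0 := by
    intro x
    rw [← mul_assoc, heb, zero_mul]
  -- nilpotency index
  have hex : ∃ j, eb * n ^ j = 0 := ⟨k, by rw [mul_comm]; exact heb⟩
  set ν := Nat.find hex with hν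
  have hν0 : eb * n ^ ν = 0 := Nat.find_spec hex
  have hνmin : ∀ j, j < ν → eb * n ^ j ≠ 0 := fun j hj => Nat.find_min hex hj
  have hbig : ∀ j, ν ≤ j → eb * n ^ j = 0 := by
    intro j hj
    obtain ⟨l, rfl⟩ := Nat.exists_eq_add_of_le hj
    rw [pow_add, ← mul_assoc, hν0, zero_mul]
  have hli : LinearIndependent K (fun i : Fin ν => eb * n ^ (i : ℕ)) := by
    rw [Fintype.linearIndependent_iff]
    intro c hc
    suffices H : ∀ i : ℕ, ∀ hi : i < ν, c ⟨i, hi⟩ = 0 from fun i => H i i.2
    intro i
    induction i using Nat.strong_induction_on with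
    | _ i ih =>
      intro hi
      have h1 := congrArg (fun x => n ^ (ν - 1 - i) * x) hc
      simp only [mul_zero, Finset.mul_sum] at h1
      rw [Finset.sum_eq_single ⟨i, hi⟩] at h1
      · have h2 : n ^ (ν - 1 - i) * (c ⟨i, hi⟩ • (eb * n ^ i)) =
            c ⟨i, hi⟩ • (eb * n ^ (ν - 1)) := by
          rw [mul_smul_comm]
          congr 1
          have h3 : ν - 1 = (ν - 1 - i) + i := by omega
          conv_rhs => rw [h3, pow_add]
          ring
        have h1' : c ⟨i, hi⟩ • (eb * n ^ (ν - 1)) = 0 := by
          rw [← h2]; exact h1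
        rcases smul_eq_zero.1 h1' with h4 | h4
        · exact h4
        · exact absurd h4 (hνmin _ (by omega))
      · intro j _ hj
        rcases lt_or_gt_of_ne (fun h => hj (Fin.ext h) : (j : ℕ) ≠ i) with h5 | h5
        · have := ih j h5 j.2
          have h6 : c j = 0 := this
          rw [h6, zero_smul, mul_zero]
        · rw [mul_smul_comm]
          have h7 : n ^ (ν - 1 - i) * (eb * n ^ (j : ℕ)) = eb * n ^ (ν - 1 - i + j) := by
            rw [pow_add]; ring
          rw [h7, hbig _ (by omega), smul_zero]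
      · intro h'
        exact absurd (Finset.mem_univ _) h'
  have hle1 : Module.finrank K (L.maxGenEigenspace 0) ≤ ν := by
    refine le_trans (Submodule.finrank_mono ?_) (finrank_ker_pow_le L h ν)
    intro x hx
    rw [hV, hmem] at hx
    rw [LinearMap.mem_ker, hL, lmul_pow_apply, ← hid x hx]
    calc n ^ ν * (eb * x) = (eb * n ^ ν) * x := by ring
      _ = 0 := by rw [hν0, zero_mul]
  have hVmem : ∀ i : Fin ν, eb * n ^ (i : ℕ) ∈ L.maxGenEigenspace 0 := by
    intro i
    rw [hV, hmem]
    exact hin _
  let b' : Fin ν → L.maxGenEigenspace 0 := fun i => ⟨eb * n ^ (i : ℕ), hVmem i⟩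
  have hli' : LinearIndependent K b' := by
    refine LinearIndependent.of_comp (L.maxGenEigenspace 0).subtype ?_
    exact hli
  have hle2 : ν ≤ Module.finrank K (L.maxGenEigenspace 0) := by
    have := hli'.fintype_card_le_finrank
    rwa [Fintype.card_fin] at this
  have heq : Module.finrank K (L.maxGenEigenspace 0) = ν := le_antisymm hle1 hle2
  refine ⟨eb, n ^ (k - 1) * w, hee, ?_, ⟨k + 1, ?_⟩, ?_, ?_⟩
  · have hk3 : n * (n ^ (k - 1) * w) = n ^ k * w := by
      rw [← mul_assoc, ← pow_succ']
      congr 2
      omega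
    rw [hk3, hw, ← hef]; ring
  · rw [mul_pow, pow_succ eb, pow_succ n]
    calc eb ^ k * eb * (n ^ k * n) = eb ^ k * n * (n ^ k * eb) := by ring
      _ = 0 := by rw [heb, mul_zero]
  · rw [heq]
    intro x
    have hspan : Submodule.span K (Set.range b') = ⊤ := by
      refine hli'.span_eq_top_of_card_eq_finrank' ?_
      rw [Fintype.card_fin, heq]
    have hx : (⟨eb * x, by rw [hV, hmem]; exact hin x⟩ : L.maxGenEigenspace 0) ∈
        Submodule.span K (Set.range b') := by
      rw [hspan]; exact Submodule.mem_top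
    obtain ⟨c, hc⟩ := (Submodule.mem_span_range_iff_exists_fun K).1 hx
    refine ⟨c, ?_⟩
    have := congrArg Subtype.val hc
    rw [AddSubmonoidClass.coe_finsetSum] at this
    exact this.symm
  · rw [heq]
    exact hli

theorem cyclic_of_ker (n : B)
    (h : Module.finrank K (LinearMap.ker (Algebra.lmul K B n)) ≤ 1) :
    ∃ eb : B, eb * eb = eb ∧ IsNilpotent (eb * n) ∧
      (∀ x, ∃ c : Fin (Module.finrank K ((Algebra.lmul K B n).maxGenEigenspace 0)) → K,
        eb * x = ∑ i, c i • (eb * n ^ (i : ℕ))) ∧
      LinearIndependent K (fun i : Fin (Module.finrank K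
        ((Algebra.lmul K B n).maxGenEigenspace 0)) => eb * n ^ (i : ℕ)) := by
  obtain ⟨eb, d, h1, -, h2⟩ := cyclic_of_ker' (K := K) n h
  exact ⟨eb, h1, h2⟩

/-- Traces of endomorphisms rescaling `n`. -/
theorem trace_of_rescale (n : B) (σ : B →ₐ[K] B) {ζ : K} (hz : ζ ≠ 0) (hζ : ζ ≠ 1)
    (hσ : σ n = ζ • n)
    (h : Module.finrank K (LinearMap.ker (Algebra.lmul K B n)) ≤ 1)
    (hdim : Module.finrank K ((Algebra.lmul K B n).maxGenEigenspace 0) ≤ 1) :
    LinearMap.trace K B σ.toLinearMap =
      (Module.finrank K ((Algebra.lmul K B n).maxGenEigenspace 0) : K) := by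
  obtain ⟨eb, d, hee, hd, ⟨k, hk⟩, hspan, hli⟩ := cyclic_of_ker' (K := K) n h
  set m := Module.finrank K ((Algebra.lmul K B n).maxGenEigenspace 0) with hm
  -- the part away from zero
  have h1 : LinearMap.trace K B (σ.toLinearMap ∘ₗ Algebra.lmul K B (1 - eb)) = 0 := by
    have h2 : σ.toLinearMap ∘ₗ Algebra.lmul K B (1 - eb) =
        (σ.toLinearMap ∘ₗ Algebra.lmul K B n) ∘ₗ Algebra.lmul K B d := by
      ext x
      simp only [LinearMap.comp_apply, AlgHom.toLinearMap_apply, ← hd]
      show σ (n * d * x) = σ (n * (d * x))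
      rw [mul_assoc]
    have h3 : Algebra.lmul K B d ∘ₗ (σ.toLinearMap ∘ₗ Algebra.lmul K B n) =
        ζ • (Algebra.lmul K B (1 - eb) ∘ₗ σ.toLinearMap) := by
      ext x
      simp only [LinearMap.comp_apply, AlgHom.toLinearMap_apply, LinearMap.smul_apply]
      show d * σ (n * x) = ζ • ((1 - eb) * σ x)
      rw [map_mul, hσ, ← hd, smul_mul_assoc, mul_smul_comm]
      congr 1
      ring
    have h4 : LinearMap.trace K B (σ.toLinearMap ∘ₗ Algebra.lmul K B (1 - eb)) =
        ζ * LinearMap.trace K B (σ.toLinearMap ∘ₗ Algebra.lmul K B (1 - eb)) := by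
      conv_lhs => rw [h2, LinearMap.trace_comp_comm', h3, map_smul, smul_eq_mul,
        LinearMap.trace_comp_comm']
    have h5 : (1 - ζ) * LinearMap.trace K B (σ.toLinearMap ∘ₗ Algebra.lmul K B (1 - eb)) = 0 := by
      linear_combination h4
    exact (mul_eq_zero.1 h5).resolve_left (sub_ne_zero.2 (Ne.symm hζ))
  have h6 : σ.toLinearMap = σ.toLinearMap ∘ₗ Algebra.lmul K B eb +
      σ.toLinearMap ∘ₗ Algebra.lmul K B (1 - eb) := by
    ext x
    simp only [LinearMap.add_apply, LinearMap.comp_apply, AlgHom.toLinearMap_apply]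
    show σ x = σ (eb * x) + σ ((1 - eb) * x)
    rw [← map_add]
    congr 1
    ring
  rw [h6, map_add, h1, add_zero]
  -- `σ` fixes the idempotent
  have hfix : σ eb = eb := by
    -- `n ^ k * eb = 0` with the same `k`
    have h7 : n ^ k * eb = 0 := by
      have h8 : (eb * n) ^ k * eb = eb * (n ^ k * eb) := by
        rw [mul_pow]
        have h9 : ∀ j : ℕ, eb ^ j * eb = eb := by
          intro j
          induction j with
          | zero => rw [pow_zero, one_mul]
          | succ j ih => rw [pow_succ, mul_assoc, hee, ih]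
        calc eb ^ k * n ^ k * eb = (eb ^ k * eb) * n ^ k := by ring
          _ = eb * n ^ k := by rw [h9]
          _ = (eb * eb) * n ^ k := by rw [hee]
          _ = _ := by ring
      rw [hk, zero_mul] at h8
      calc n ^ k * eb = n ^ k * (eb * eb) := by rw [hee]
        _ = eb * (n ^ k * eb) := by ring
        _ = 0 := h8.symm
    have hpow : ∀ y : B, y * y = y → ∀ j : ℕ, 0 < j → y ^ j = y := by
      intro y hy j hj
      induction j with
      | zero => omega
      | succ j ih =>
        rcases Nat.eq_zero_or_pos j with h | h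
        · subst h; rw [zero_add, pow_one]
        · rw [pow_succ, ih h, hy]
    have h10 : (1 - eb) * (1 - eb) = 1 - eb := by
      calc (1 - eb) * (1 - eb) = 1 - eb - eb + eb * eb := by ring
        _ = _ := by rw [hee]; ring
    -- first inclusion: (1 - eb) * σ eb = 0
    have h12 : (1 - eb) * σ eb = 0 := by
      have h13 : n ^ k * σ eb = 0 := by
        have h14 : σ (n ^ k * eb) = 0 := by rw [h7, map_zero]
        rw [map_mul, map_pow, hσ, smul_pow, smul_mul_assoc] at h14
        exact (smul_eq_zero.1 h14).resolve_left (pow_ne_zero _ hz)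
      rcases Nat.eq_zero_or_pos k with h15 | h15
      · rw [h15, pow_zero, one_mul] at h13
        rw [h13, mul_zero]
      · rw [← hpow _ h10 k h15, ← hd, mul_pow]
        calc n ^ k * d ^ k * σ eb = d ^ k * (n ^ k * σ eb) := by ring
          _ = 0 := by rw [h13, mul_zero]
    have h16 : eb * (1 - σ eb) = 0 := by
      have h17 : 1 - σ eb = ζ • (n * σ d) := by
        have h18 := congrArg σ hd
        rw [map_mul, map_sub, map_one, hσ, smul_mul_assoc] at h18
        exact h18.symm
      have h19 : IsNilpotent (eb * (1 - σ eb)) := by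
        rw [h17, mul_smul_comm, ← mul_assoc, Algebra.smul_def]
        exact (Commute.all _ _).isNilpotent_mul_left
          ((Commute.all _ _).isNilpotent_mul_right ⟨k, hk⟩)
      have h20 : (eb * (1 - σ eb)) * (eb * (1 - σ eb)) = eb * (1 - σ eb) := by
        have h21 : (1 - σ eb) * (1 - σ eb) = 1 - σ eb := by
          calc (1 - σ eb) * (1 - σ eb) = 1 - σ eb - σ eb + σ eb * σ eb := by ring
            _ = _ := by rw [← map_mul, hee]; ring
        calc eb * (1 - σ eb) * (eb * (1 - σ eb)) = (eb * eb) * ((1 - σ eb) * (1 - σ eb)) := by ring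
          _ = _ := by rw [hee, h21]
      obtain ⟨j, hj⟩ := h19
      have h23 := hpow _ h20 (j + 1) (Nat.succ_pos j)
      rw [pow_succ, hj, zero_mul] at h23
      exact h23.symm
    have h24 : σ eb = eb * σ eb := by
      calc σ eb = eb * σ eb + (1 - eb) * σ eb := by ring
        _ = eb * σ eb := by rw [h12, add_zero]
    have h25 : eb = eb * σ eb := by
      calc eb = eb * σ eb + eb * (1 - σ eb) := by ring
        _ = eb * σ eb := by rw [h16, add_zero]
    rw [h24, ← h25]
  -- the block at zero is spanned by `eb`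
  rcases Nat.eq_zero_or_pos m with h0 | h0
  · have heb0 : eb = 0 := by
      obtain ⟨c, hc⟩ := hspan 1
      rw [mul_one] at hc
      rw [hc]
      have : IsEmpty (Fin m) := by rw [h0]; infer_instance
      exact Finset.sum_eq_zero fun i _ => isEmptyElim i
    rw [heb0, map_zero, LinearMap.comp_zero, map_zero, h0, Nat.cast_zero]
  · have hm1 : m = 1 := by omega
    have heb0 : eb ≠ 0 := by
      have := hli.ne_zero ⟨0, h0⟩
      simpa using this
    have hsp : ∀ x, ∃ c : K, eb * x = c • eb := by
      intro x
      obtain ⟨c, hc⟩ := hspan x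
      refine ⟨c ⟨0, h0⟩, ?_⟩
      rw [hc, Finset.sum_eq_single ⟨0, h0⟩]
      · rw [pow_zero, mul_one]
      · intro j _ hj
        exact absurd (Fin.ext (by have := j.2; omega)) hj
      · intro h'
        exact absurd (Finset.mem_univ _) h'
    choose lam hlam using hsp
    let lamL : B →ₗ[K] K :=
      { toFun := lam
        map_add' := by
          intro x y
          have h1 := hlam (x + y)
          rw [mul_add, hlam x, hlam y, ← add_smul] at h1
          exact (smul_left_injective K heb0 h1).symm
        map_smul' := by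
          intro c x
          have h1 := hlam (c • x)
          rw [mul_smul_comm, hlam x, smul_smul] at h1
          exact (smul_left_injective K heb0 h1).symm }
    have hcomp : σ.toLinearMap ∘ₗ Algebra.lmul K B eb = lamL.smulRight eb := by
      ext x
      simp only [LinearMap.comp_apply, AlgHom.toLinearMap_apply, LinearMap.smulRight_apply]
      show σ (eb * x) = lam x • eb
      rw [hlam x, map_smul, hfix]
    rw [hcomp, LinearMap.trace_smulRight]
    show lam eb = _
    have h27 := hlam eb
    rw [hee] at h27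
    have h28 : (1 : K) • eb = lam eb • eb := by rw [one_smul]; exact h27
    rw [← smul_left_injective K heb0 h28, hm1, Nat.cast_one]

end cyclic

namespace FlatAlg

open MvPowerSeries

variable {κ : Type} [Fintype κ] [DecidableEq κ] (F : FlatAlg κ)

theorem shift_c0 (u : ℂ) : (F.shift u).c0 = F.c0 - algebraMap ℂ _ u := by
  show F.A.mapHom (constantCoeff (σ := κ) (R := ℂ))
    (F.E - algebraMap (MvPowerSeries κ ℂ) F.A.Carrier (C u)) = _
  rw [map_sub]
  congr 1
  rw [Algebra.algebraMap_eq_smul_one, F.mapHom_smul, map_one, Algebra.algebraMap_eq_smul_one]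
  simp

/-- **Eigenvalue theorem.** If the algebra is generically semisimple, then every eigenvalue of
multiplication by `E(0)` with a one-dimensional eigenspace is simple. -/
theorem simple_of_eigenspace (hss : F.A.disc ≠ 0) (u : ℂ)
    (h : Module.finrank ℂ ((Algebra.lmul ℂ (F.A.map (constantCoeff (σ := κ) (R := ℂ))).Carrier
      F.c0 : Module.End ℂ _).eigenspace u) ≤ 1) :
    Module.finrank ℂ ((Algebra.lmul ℂ (F.A.map (constantCoeff (σ := κ) (R := ℂ))).Carrier
      F.c0 : Module.End ℂ _).maxGenEigenspace u) ≤ 1 := by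
  have hsh : (Algebra.lmul ℂ (F.A.map (constantCoeff (σ := κ) (R := ℂ))).Carrier
      (F.shift u).c0 : Module.End ℂ _) =
      (Algebra.lmul ℂ (F.A.map (constantCoeff (σ := κ) (R := ℂ))).Carrier F.c0 :
        Module.End ℂ _) - u • 1 := by
    rw [shift_c0, map_sub]
    congr 1
    ext x
    simp
  rw [Module.End.maxGenEigenspace_eq_maxGenEigenspace_zero, ← hsh]
  rw [Module.End.eigenspace_def, ← hsh] at h
  obtain ⟨eb, h1, h2, h3, h4⟩ := cyclic_of_ker (K := ℂ) (F.shift u).c0 h
  obtain ⟨e, he, hred⟩ := AlgStr.exists_idem_lift (A := F.A) eb h1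
  exact (F.shift u).block_le_one eb h3 e he hred h4 h2 hss

end FlatAlg

end Pool.Agent.Helper18.Dub
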