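import Pool.Agent.Helper18.Dub.QH

/-!
# Rigidity of the discriminant for regular Euler fields
-/

open scoped BigOperators
open Finset MvPowerSeries

namespace Pool.Agent.Helper18.Dub

section det

variable {S : Type*} [CommRing S] {R : Type*} [CommRing R] [Algebra S R]

/-- The ring homomorphism `r ↦ r + ε ∂r` attached to a derivation. -/
def dualHom (d : Derivation S R R) : R →+* TrivSqZeroExt R R where
  toFun r := TrivSqZeroExt.inl r + TrivSqZeroExt.inr (d r)
  map_zero' := by simp
  map_one' := by simp
  map_add' x y := by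
    ext <;> simp
  map_mul' x y := by
    ext
    · simp
    · simp [mul_comm]

theorem fst_dualHom (d : Derivation S R R) (r : R) : (dualHom d r).fst = r := by
  simp [dualHom]

theorem snd_dualHom (d : Derivation S R R) (r : R) : (dualHom d r).snd = d r := by
  simp [dualHom]

variable {ι : Type*} [Fintype ι] [DecidableEq ι]

/-- If `∂H = Γᵀ H + H Γ` then `∂ det H` is a multiple of `det H`. -/
theorem deriv_det_of_congr (d : Derivation S R R) (H G : Matrix ι ι R)
    (h : ∀ i j, d (H i j) = ∑ k, G k i * H k j + ∑ k, H i k * G k j) :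
    ∃ g : R, d H.det = g * H.det := by
  let N : Matrix ι ι (TrivSqZeroExt R R) :=
    Matrix.of fun i j => TrivSqZeroExt.inl (if i = j then 1 else 0) + TrivSqZeroExt.inr (G i j)
  let H' : Matrix ι ι (TrivSqZeroExt R R) := H.map (TrivSqZeroExt.inlHom R R)
  have hN : (dualHom d).mapMatrix H = N.transpose * H' * N := by
    ext i j
    · rw [RingHom.mapMatrix_apply, Matrix.map_apply, fst_dualHom, Matrix.mul_apply,
        TrivSqZeroExt.fst_sum]
      simp only [Matrix.mul_apply, TrivSqZeroExt.fst_mul, TrivSqZeroExt.fst_sum]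
      simp [N, H', Matrix.transpose_apply]
    · rw [RingHom.mapMatrix_apply, Matrix.map_apply, snd_dualHom, h i j, Matrix.mul_apply,
        TrivSqZeroExt.snd_sum]
      simp only [Matrix.mul_apply, TrivSqZeroExt.snd_mul, TrivSqZeroExt.fst_mul,
        TrivSqZeroExt.snd_sum, TrivSqZeroExt.fst_sum]
      simp [N, H', Matrix.transpose_apply, Finset.sum_add_distrib, mul_comm]
      rw [add_comm]
  have hdet : dualHom d H.det = N.det * N.det * TrivSqZeroExt.inl H.det := by
    rw [RingHom.map_det, hN, Matrix.det_mul, Matrix.det_mul, Matrix.det_transpose]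
    have : H'.det = TrivSqZeroExt.inl H.det := by
      have := RingHom.map_det (TrivSqZeroExt.inlHom R R) H
      rw [RingHom.mapMatrix_apply] at this
      exact this.symm
    rw [this]; ring
  refine ⟨(N.det * N.det).snd, ?_⟩
  have h2 := congrArg TrivSqZeroExt.snd hdet
  rw [snd_dualHom, TrivSqZeroExt.snd_mul, TrivSqZeroExt.snd_inl, TrivSqZeroExt.fst_inl] at h2
  rw [h2]
  simp [mul_comm, mul_add]

end det

section series

variable {κ : Type*} {F : Type*} [Field F] [CharZero F]

/-- A power series `d` without constant term such that each `∂_a d` is a multiple of `d`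
vanishes. -/
theorem eq_zero_of_pderiv_dvd (d : MvPowerSeries κ F) (g : κ → MvPowerSeries κ F)
    (h : ∀ a, pderiv F a d = g a * d) (h0 : constantCoeff d = 0) : d = 0 := by
  classical
  suffices H : ∀ n : ℕ, ∀ m : κ →₀ ℕ, m.degree ≤ n → coeff m d = 0 by
    ext m
    rw [H m.degree m le_rfl, map_zero]
  intro n
  induction n with
  | zero =>
    intro m hm
    have : m = 0 := by
      rw [← Finsupp.degree_eq_zero_iff]; omega
    subst this
    exact h0
  | succ n ih =>
    intro m hm
    by_cases hm0 : m = 0
    · subst hm0; exact h0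
    · obtain ⟨i, hi⟩ : ∃ i, m i ≠ 0 := by
        by_contra hc
        push Not at hc
        exact hm0 (Finsupp.ext hc)
      have hle : Finsupp.single i 1 ≤ m := by
        rw [Finsupp.single_le_iff]; omega
      set m' := m - Finsupp.single i 1 with hm'
      have hmm : m' + Finsupp.single i 1 = m := tsub_add_cancel_of_le hle
      have hdeg : m'.degree ≤ n := by
        have := congrArg Finsupp.degree hmm
        rw [map_add, Finsupp.degree_single] at this
        omega
      have h1 := congrArg (coeff m') (h i)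
      rw [coeff_pderiv, hmm, coeff_mul] at h1
      rw [Finset.sum_eq_zero] at h1
      · rcases mul_eq_zero.1 h1 with h2 | h2
        · exact h2
        · exact absurd h2 (by exact_mod_cast (Nat.succ_ne_zero (m' i)))
      · rintro ⟨x, y⟩ hxy
        rw [Finset.HasAntidiagonal.mem_antidiagonal] at hxy
        have : y.degree ≤ n := by
          have := congrArg Finsupp.degree hxy
          rw [map_add] at this
          simp only at this
          omega
        rw [ih y this, mul_zero]

end series

section matrices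

variable {κ : Type*} [Fintype κ] [DecidableEq κ]
variable {R : Type*} [CommRing R] {S : Type*} [CommRing S] [Algebra S R]

omit [DecidableEq κ] in
theorem map_deriv_mul (d : Derivation S R R) (M N : Matrix κ κ R) :
    (M * N).map d = M.map d * N + M * N.map d := by
  ext1 i j
  rw [Matrix.map_apply, Matrix.mul_apply, Matrix.add_apply, Matrix.mul_apply, Matrix.mul_apply,
    map_sum, ← Finset.sum_add_distrib]
  refine Finset.sum_congr rfl fun k _ => ?_
  rw [Derivation.leibniz, Matrix.map_apply, Matrix.map_apply, smul_eq_mul, smul_eq_mul]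
  ring

theorem trace_mul_map_pow (d : Derivation S R R) (U : Matrix κ κ R) (n : ℕ) :
    ∀ M : Matrix κ κ R, M * U = U * M →
      (M * (U ^ (n + 1)).map d).trace = ((n : R) + 1) * (M * U ^ n * U.map d).trace := by
  induction n with
  | zero =>
    intro M _
    simp
  | succ n ih =>
    intro M hM
    rw [pow_succ, map_deriv_mul, Matrix.mul_add, Matrix.trace_add]
    have h1 : (M * ((U ^ (n + 1)).map d * U)).trace = ((U * M) * (U ^ (n + 1)).map d).trace := by
      rw [← Matrix.mul_assoc, Matrix.trace_mul_comm, Matrix.mul_assoc]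
    have hM2 : U * M * U = U * (U * M) := by rw [Matrix.mul_assoc, hM]
    rw [h1, ih (U * M) hM2, ← hM, Matrix.mul_assoc M U (U ^ n), ← pow_succ', Matrix.mul_assoc M]
    rw [← Matrix.mul_assoc M]
    push_cast
    ring

/-- If `∂U = C + [C, P]` and `[U, C] = 0` then `∂ tr(U^{n+1}) = (n+1) tr(U^n C)`. -/
theorem deriv_trace_pow (d : Derivation S R R) (U Cm P : Matrix κ κ R) (hc : U * Cm = Cm * U)
    (hU : U.map d = Cm + Cm * P - P * Cm) (n : ℕ) :
    d ((U ^ (n + 1)).trace) = ((n : R) + 1) * (U ^ n * Cm).trace := by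
  have h1 : d ((U ^ (n + 1)).trace) = ((U ^ (n + 1)).map d).trace := by
    rw [Matrix.trace, Matrix.trace, map_sum]
    rfl
  have h3 := trace_mul_map_pow d U n 1 (by rw [Matrix.one_mul, Matrix.mul_one])
  rw [Matrix.one_mul, Matrix.one_mul] at h3
  rw [h1, h3, hU, Matrix.mul_sub, Matrix.mul_add, Matrix.trace_sub, Matrix.trace_add]
  have h4 : (U ^ n * (P * Cm)).trace = (U ^ n * (Cm * P)).trace := by
    have hc' : U ^ n * Cm = Cm * U ^ n := ((show Commute U Cm from hc).pow_left n)
    rw [← Matrix.mul_assoc (U ^ n) Cm, hc', Matrix.mul_assoc Cm, Matrix.trace_mul_comm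
      Cm, Matrix.mul_assoc]
  rw [h4, add_sub_cancel_right]

end matrices

/-- An algebra over `ℂ[[t_κ]]` with an element `E` satisfying the flatness identity
`∂_a (E •) = C_a + [C_a, P]`, `P` diagonal. -/
structure FlatAlg (κ : Type) [Fintype κ] [DecidableEq κ] where
  A : AlgStr (MvPowerSeries κ ℂ) κ
  E : A.Carrier
  p : κ → ℂ
  flat : ∀ a k b, pderiv ℂ a ((E * A.basis b) k) = C (1 + p b - p k) * A.m a b k

namespace FlatAlg

variable {κ : Type} [Fintype κ] [DecidableEq κ] (F : FlatAlg κ)

/-- matrix of multiplication by `E` -/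
noncomputable def U : Matrix κ κ (MvPowerSeries κ ℂ) := Algebra.leftMulMatrix F.A.basis F.E

/-- matrix of multiplication by `e_a` -/
noncomputable def Cm (a : κ) : Matrix κ κ (MvPowerSeries κ ℂ) :=
  Algebra.leftMulMatrix F.A.basis (F.A.basis a)

/-- the degree matrix -/
noncomputable def P : Matrix κ κ (MvPowerSeries κ ℂ) := Matrix.diagonal fun k => C (F.p k)

theorem U_comm (a : κ) : F.U * F.Cm a = F.Cm a * F.U := by
  rw [U, Cm, ← map_mul, ← map_mul, mul_comm]

theorem map_pderiv_U (a : κ) : F.U.map (pderiv ℂ a) = F.Cm a + F.Cm a * F.P - F.P * F.Cm a := by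
  ext1 k b
  rw [Matrix.map_apply, Matrix.sub_apply, Matrix.add_apply, P, Matrix.mul_diagonal,
    Matrix.diagonal_mul, U, Algebra.leftMulMatrix_eq_repr_mul, AlgStr.basis_repr, F.flat, Cm,
    AlgStr.leftMulMatrix_basis, map_sub, map_add, map_one]
  ring

/-- `∂_a Tr(E^{n+1}) = (n+1) Tr(E^n e_a)`. -/
theorem pderiv_trace_pow (a : κ) (n : ℕ) :
    pderiv ℂ a (Algebra.trace (MvPowerSeries κ ℂ) F.A.Carrier (F.E ^ (n + 1))) =
      ((n : MvPowerSeries κ ℂ) + 1) *
        Algebra.trace (MvPowerSeries κ ℂ) F.A.Carrier (F.E ^ n * F.A.basis a) := by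
  rw [Algebra.trace_eq_matrix_trace F.A.basis, Algebra.trace_eq_matrix_trace F.A.basis, map_pow,
    map_mul, map_pow]
  exact deriv_trace_pow (pderiv ℂ a) F.U (F.Cm a) F.P (F.U_comm a) (F.map_pderiv_U a) n

end FlatAlg

end Pool.Agent.Helper18.Dub
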