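import Pool.Agent.Helper18.Dub.QHDefs
import Pool.Agent.Helper18.Dub.Alg

/-!
# Genus-zero Gromov–Witten numbers of Fano manifolds: divisor axiom and homogeneity
-/

open scoped BigOperators
open Finset MvPowerSeries

namespace Pool.Agent.Helper18.Dub

namespace FanoGW

variable {ι : Type} [Fintype ι] [DecidableEq ι] (X : FanoGW ι)

theorem corr_congr_support {s : Multiset ι} :
    (Function.support fun β => X.inv β s).Finite := by
  refine (X.c1_finite ((s.map X.deg).sum + 3 - (X.dim + Multiset.card s))).subset ?_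
  intro β hβ
  have := X.dimension β s hβ
  show X.c1 β = _
  omega

/-- `∑_{i ∈ s} deg i - |s| + 3 - D` -/
def wt (s : Multiset ι) : ℂ :=
  ((s.map X.deg).sum : ℂ) - (Multiset.card s : ℂ) + 3 - (X.dim : ℂ)

/-- Divisor and dimension axioms combined. -/
theorem chern_corr (s : Multiset ι) (hs : 3 ≤ Multiset.card s) :
    ∑ i, X.chern i * X.corr (i ::ₘ s) = X.wt s * X.corr s := by
  have h1 : ∀ i, X.chern i * X.corr (i ::ₘ s) = ∑ᶠ β, X.chern i * X.inv β (i ::ₘ s) := by
    intro i
    rw [GWData.corr, mul_finsum]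
  rw [Finset.sum_congr rfl fun i _ => h1 i]
  rw [← finsum_sum_comm]
  · rw [GWData.corr, mul_finsum]
    refine finsum_congr fun β => ?_
    by_cases hβ : β = X.zero
    · subst hβ
      have h2 : ∀ i, X.inv X.zero (i ::ₘ s) = 0 := by
        intro i
        apply X.degree_zero
        rw [Multiset.card_cons]; omega
      rw [Finset.sum_eq_zero fun i _ => by rw [h2 i, mul_zero]]
      by_cases h3 : X.inv X.zero s = 0
      · rw [h3, mul_zero]
      · have h4 := X.dimension _ _ h3
        rw [(X.c1_eq_zero X.zero).2 rfl] at h4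
        have h5 : X.wt s = 0 := by
          rw [wt]
          generalize (s.map X.deg).sum = n at h4 ⊢
          have h6 : ((n + 3 : ℕ) : ℂ) = ((X.dim + Multiset.card s + 0 : ℕ) : ℂ) := by rw [h4]
          push_cast at h6
          linear_combination h6
        rw [h5, zero_mul]
    · have h2 : ∀ i, X.chern i * X.inv β (i ::ₘ s) = X.chern i * X.period β i * X.inv β s := by
        intro i
        by_cases h3 : X.chern i = 0
        · rw [h3]; ring
        · rw [X.divisor β s i hβ hs (X.chern_deg i h3)]; ring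
      rw [Finset.sum_congr rfl fun i _ => h2 i, ← Finset.sum_mul, X.chern_period]
      by_cases h3 : X.inv β s = 0
      · rw [h3, mul_zero, mul_zero]
      · have h4 := X.dimension _ _ h3
        congr 1
        rw [wt]
        generalize (s.map X.deg).sum = n at h4 ⊢
        have h6 : ((n + 3 : ℕ) : ℂ) = ((X.dim + Multiset.card s + X.c1 β : ℕ) : ℂ) := by rw [h4]
        push_cast at h6
        linear_combination -h6
  · intro i _
    refine (X.corr_congr_support (s := i ::ₘ s)).subset ?_
    intro β hβ
    simp only [Function.mem_support] at hβ ⊢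
    exact fun h => hβ (by rw [h, mul_zero])

theorem prod_factorial_add_single (m : ι →₀ ℕ) (i : ι) :
    (∏ j, (((m + Finsupp.single i 1 : ι →₀ ℕ) j).factorial : ℂ)) =
      ((m i : ℂ) + 1) * ∏ j, ((m j).factorial : ℂ) := by
  rw [← Finset.mul_prod_erase _ _ (Finset.mem_univ i),
    ← Finset.mul_prod_erase (Finset.univ) (fun j => ((m j).factorial : ℂ)) (Finset.mem_univ i)]
  have h1 : ((m + Finsupp.single i 1 : ι →₀ ℕ) i).factorial = (m i + 1) * (m i).factorial := by
    rw [Finsupp.add_apply, Finsupp.single_eq_same, Nat.factorial_succ]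
  have h2 : ∏ j ∈ Finset.univ.erase i, (((m + Finsupp.single i 1 : ι →₀ ℕ) j).factorial : ℂ) =
      ∏ j ∈ Finset.univ.erase i, ((m j).factorial : ℂ) := by
    refine Finset.prod_congr rfl fun j hj => ?_
    have : j ≠ i := Finset.ne_of_mem_erase hj
    rw [Finsupp.add_apply, Finsupp.single_eq_of_ne this, add_zero]
  rw [h1, h2]
  push_cast
  ring

theorem pderiv_ser (s : Multiset ι) (i : ι) : pderiv ℂ i (X.ser s) = X.ser (i ::ₘ s) := by
  ext m
  rw [coeff_pderiv, coeff_ser, coeff_ser, prod_factorial_add_single]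
  have h1 : s + Finsupp.toMultiset (m + Finsupp.single i 1) = (i ::ₘ s) + Finsupp.toMultiset m := by
    rw [map_add, Finsupp.toMultiset_single, one_smul, Multiset.cons_add, ← Multiset.singleton_add]
    abel
  rw [h1]
  have h2 : ((m i : ℂ) + 1) ≠ 0 := Nat.cast_add_one_ne_zero _
  have h3 : (∏ j, ((m j).factorial : ℂ)) ≠ 0 := by
    rw [Finset.prod_ne_zero_iff]
    intro j _
    exact_mod_cast (m j).factorial_ne_zero
  field_simp

/-- The components of the Euler vector field `E = ∑ ((1 - deg i) t_i + chern_i) ∂_i`. -/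
noncomputable def euler (i : ι) : MvPowerSeries ι ℂ :=
  C (1 - (X.deg i : ℂ)) * MvPowerSeries.X i + C (X.chern i)

omit [Fintype ι] [DecidableEq ι] in
theorem coeff_X_mul_pderiv (f : MvPowerSeries ι ℂ) (i : ι) (m : ι →₀ ℕ) :
    coeff m (MvPowerSeries.X i * pderiv ℂ i f) = (m i : ℂ) * coeff m f := by
  by_cases h : m i = 0
  · rw [h, Nat.cast_zero, zero_mul, MvPowerSeries.X, coeff_monomial_mul, if_neg]
    intro hle
    have := hle i
    rw [Finsupp.single_eq_same] at this
    omega
  · have hle : Finsupp.single i 1 ≤ m := by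
      rw [Finsupp.single_le_iff]; omega
    rw [MvPowerSeries.X, coeff_monomial_mul, if_pos hle, one_mul, coeff_pderiv,
      tsub_add_cancel_of_le hle]
    have h1 : (((m - Finsupp.single i 1 : ι →₀ ℕ) i : ℕ) : ℂ) + 1 = m i := by
      rw [Finsupp.tsub_apply, Finsupp.single_eq_same]
      have : 1 ≤ m i := by omega
      push_cast [Nat.cast_sub this]
      ring
    rw [h1, mul_comm]

theorem wt_add_toMultiset (s : Multiset ι) (m : ι →₀ ℕ) :
    X.wt (s + Finsupp.toMultiset m) = X.wt s + ∑ i, ((X.deg i : ℂ) - 1) * (m i : ℂ) := by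
  have h1 : (((Finsupp.toMultiset m).map X.deg).sum : ℂ) - (Multiset.card (Finsupp.toMultiset m) : ℂ)
      = ∑ i, ((X.deg i : ℂ) - 1) * (m i : ℂ) := by
    induction m using Finsupp.induction_linear with
    | zero => simp
    | add f g hf hg =>
      have h3 : ∑ i, ((X.deg i : ℂ) - 1) * ((f + g) i : ℂ) =
          ∑ i, ((X.deg i : ℂ) - 1) * (f i : ℂ) + ∑ i, ((X.deg i : ℂ) - 1) * (g i : ℂ) := by
        rw [← Finset.sum_add_distrib]
        refine Finset.sum_congr rfl fun i _ => ?_
        rw [Finsupp.add_apply, Nat.cast_add, mul_add]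
      rw [map_add, Multiset.map_add, Multiset.sum_add, Multiset.card_add, Nat.cast_add,
        Nat.cast_add, h3, ← hf, ← hg]
      ring
    | single a n =>
      rw [Finsupp.toMultiset_single, Multiset.map_nsmul, Multiset.sum_nsmul, Multiset.card_nsmul,
        Finset.sum_eq_single a]
      · rw [Multiset.map_singleton, Multiset.sum_singleton, Multiset.card_singleton,
          Finsupp.single_eq_same]
        push_cast
        simp only [smul_eq_mul]
        push_cast
        ring
      · intro b _ hb
        rw [Finsupp.single_eq_of_ne hb]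
        simp
      · intro h
        exact absurd (Finset.mem_univ a) h
  rw [wt, wt, Multiset.map_add, Multiset.sum_add, Multiset.card_add, ← h1, Nat.cast_add,
    Nat.cast_add]
  ring

/-- Homogeneity. -/
theorem euler_ser (s : Multiset ι) (hs : 3 ≤ Multiset.card s) :
    ∑ i, X.euler i * pderiv ℂ i (X.ser s) = C (X.wt s) * X.ser s := by
  ext m
  rw [map_sum]
  have h1 : ∀ i, coeff m (X.euler i * pderiv ℂ i (X.ser s)) =
      (1 - (X.deg i : ℂ)) * ((m i : ℂ) * coeff m (X.ser s)) +
        (X.chern i * X.corr (i ::ₘ (s + Finsupp.toMultiset m))) /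
          ∏ j, ((m j).factorial : ℂ) := by
    intro i
    rw [euler, add_mul, map_add, mul_assoc, coeff_C_mul, coeff_X_mul_pderiv, coeff_C_mul,
      pderiv_ser, coeff_ser X (i ::ₘ s), Multiset.cons_add]
    ring
  rw [Finset.sum_congr rfl fun i _ => h1 i, Finset.sum_add_distrib, ← Finset.sum_div,
    X.chern_corr _ (by rw [Multiset.card_add]; omega), coeff_C_mul, wt_add_toMultiset, coeff_ser]
  have h2 : ∑ i, (1 - (X.deg i : ℂ)) * ((m i : ℂ) * (X.corr (s + Finsupp.toMultiset m) /
      ∏ j, ((m j).factorial : ℂ))) = - (∑ i, ((X.deg i : ℂ) - 1) * (m i : ℂ)) *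
      (X.corr (s + Finsupp.toMultiset m) / ∏ j, ((m j).factorial : ℂ)) := by
    rw [neg_mul, Finset.sum_mul, ← Finset.sum_neg_distrib]
    refine Finset.sum_congr rfl fun i _ => ?_
    ring
  rw [h2]
  ring

end FanoGW

end Pool.Agent.Helper18.Dub
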