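import Mathlib

/-!
# Genus-zero Gromov–Witten numbers of Fano manifolds and the quantum product

All definitions used in the statements are in this file. Algebras generated by the matrices of
quantum multiplication are used as faithful models (regular representations) of quantum cohomology
algebras.
-/

open scoped BigOperators
open Finset MvPowerSeries

namespace Pool.Agent.Helper18.Dub

/-- The data of genus-zero Gromov–Witten numbers in a homogeneous basis `φ_i`, `i : ι`, of the even
cohomology `H = ⊕ H^{2p}(X, ℂ)` of a smooth projective variety `X`. -/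
structure GWData (ι : Type) [Fintype ι] [DecidableEq ι] where
  /-- the complex dimension `D` of `X` -/
  dim : ℕ
  /-- the complex degree: `φ_i ∈ H^{2 deg i}(X)` -/
  deg : ι → ℕ
  /-- the index of the unit class `φ_one = 1` -/
  one : ι
  /-- the Poincaré pairing `∫_X φ_i ∪ φ_j` -/
  pair : Matrix ι ι ℂ
  /-- the effective curve classes `β` -/
  Curve : Type
  /-- the class `0` -/
  zero : Curve
  /-- `c_1(X) · β` -/
  c1 : Curve → ℕ
  /-- the coordinates of the class `c_1(X) = ∑ chern_i φ_i` -/
  chern : ι → ℂ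
  /-- `∫_β φ_i` for the divisor classes `φ_i` -/
  period : Curve → ι → ℂ
  /-- `inv β {i_1, …, i_n} = ⟨φ_{i_1}, …, φ_{i_n}⟩_{0,n,β}` -/
  inv : Curve → Multiset ι → ℂ

namespace GWData

variable {ι : Type} [Fintype ι] [DecidableEq ι] (X : GWData ι)

/-- `⟨φ_{i_1}, …, φ_{i_n}⟩ = ∑_β ⟨φ_{i_1}, …, φ_{i_n}⟩_{0,n,β}` (Novikov variables set to `1`; for a
Fano manifold the sum is finite by the dimension axiom). -/
noncomputable def corr (s : Multiset ι) : ℂ := ∑ᶠ β, X.inv β s

/-- The generating function
`⟨⟨φ_{i_1}, …, φ_{i_n}⟩⟩(t) = ∑_l (1/l!) ⟨φ_{i_1}, …, φ_{i_n}, t, …, t⟩`, `t = ∑ t_i φ_i`, as a formal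
power series in the coordinates `t_i`. -/
noncomputable def ser (s : Multiset ι) : MvPowerSeries ι ℂ :=
  fun m => X.corr (s + Finsupp.toMultiset m) / ∏ i, ((m i).factorial : ℂ)

end GWData

/-- The axioms satisfied by the genus-zero Gromov–Witten numbers of a Fano manifold. -/
structure FanoGW (ι : Type) [Fintype ι] [DecidableEq ι] extends GWData ι where
  deg_one : deg one = 0
  pair_symm : ∀ i j, pair i j = pair j i
  pair_nondeg : IsUnit pair.det
  pair_deg : ∀ i j, pair i j ≠ 0 → deg i + deg j = dim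
  /-- `-K_X` is ample: `c_1(X) · β > 0` for `β ≠ 0`, and only finitely many `β` have bounded
  anticanonical degree. -/
  c1_eq_zero : ∀ β, c1 β = 0 ↔ β = zero
  c1_finite : ∀ n, {β | c1 β = n}.Finite
  chern_deg : ∀ i, chern i ≠ 0 → deg i = 1
  chern_period : ∀ β, ∑ i, chern i * period β i = c1 β
  /-- dimension axiom -/
  dimension : ∀ β s, inv β s ≠ 0 → (s.map deg).sum + 3 = dim + Multiset.card s + c1 β
  /-- unit axiom -/
  unit_zero : ∀ i j, inv zero {one, i, j} = pair i j
  unit_ne : ∀ β i j, β ≠ zero → inv β {one, i, j} = 0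
  unit_many : ∀ β s, 3 ≤ Multiset.card s → inv β (one ::ₘ s) = 0
  /-- degree-zero invariants with at least four insertions vanish -/
  degree_zero : ∀ s, 4 ≤ Multiset.card s → inv zero s = 0
  /-- divisor axiom -/
  divisor : ∀ β s i, β ≠ zero → 3 ≤ Multiset.card s → deg i = 1 →
    inv β (i ::ₘ s) = period β i * inv β s
  /-- WDVV equations -/
  wdvv : ∀ a b c d, ∑ e, ∑ f, C (pair⁻¹ e f) * toGWData.ser {a, b, e} * toGWData.ser {f, c, d} =
    ∑ e, ∑ f, C (pair⁻¹ e f) * toGWData.ser {b, c, e} * toGWData.ser {f, a, d}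

/-- The algebra, over the field of fractions of `R`, generated by a family of matrices over `R`. -/
noncomputable def matAlg {R : Type} [CommRing R] {ι α : Type} [Fintype ι] [DecidableEq ι]
    (M : α → Matrix ι ι R) : Subalgebra (FractionRing R) (Matrix ι ι (FractionRing R)) :=
  Algebra.adjoin (FractionRing R) (Set.range fun a => (M a).map (algebraMap R (FractionRing R)))

namespace FanoGW

section one

variable {ι : Type} [Fintype ι] [DecidableEq ι] (X : FanoGW ι)

/-- Structure constants of the big quantum product (Novikov variables set to `1`):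
`φ_a • φ_b = ∑_k (∑_l g^{kl} ⟨⟨φ_a, φ_b, φ_l⟩⟩(t)) φ_k`. -/
noncomputable def sc (a b k : ι) : MvPowerSeries ι ℂ :=
  ∑ l, C (X.pair⁻¹ k l) * X.ser {a, b, l}

/-- The matrix of big quantum multiplication `φ_a •`. -/
noncomputable def mulMat (a : ι) : Matrix ι ι (MvPowerSeries ι ℂ) := Matrix.of fun k b => X.sc a b k

/-- The big quantum cohomology is semisimple at the generic point of `Spec ℂ[[t]]`: the algebra
generated by the operators `φ_a •` over the field of fractions of `ℂ[[t]]` is semisimple. -/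
def IsGenericallySemisimple : Prop := IsSemisimpleRing (matAlg X.mulMat)

/-- The matrix of small quantum multiplication `φ_a •` (at `t = 0`). -/
noncomputable def smallMat (a : ι) : Matrix ι ι ℂ := Matrix.of fun k b =>
  ∑ l, X.pair⁻¹ k l * X.corr {a, b, l}

/-- The matrix of small quantum multiplication by `c_1(X)`. -/
noncomputable def chernMat : Matrix ι ι ℂ := ∑ a, X.chern a • X.smallMat a

/-- The matrix of the classical cup product with `c_1(X)`; here
`∫ φ_a ∪ φ_b ∪ φ_l = ⟨φ_a, φ_b, φ_l⟩_{0,3,0}`. -/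
noncomputable def cupMat : Matrix ι ι ℂ := Matrix.of fun k b =>
  ∑ a, X.chern a * ∑ l, X.pair⁻¹ k l * X.inv X.zero {a, b, l}

/-- The endomorphism `δ φ_b = ∑_k δ_{kb} φ_k` of cohomology is an infinitesimal symmetry of the
genus-zero theory: it kills the unit class and all genus-zero correlators with at least three
insertions are infinitesimally invariant, `∑_{i ∈ s} ⟨… , δ φ_i, …⟩ = 0`. -/
structure IsInfSymmetry (δ : Matrix ι ι ℂ) : Prop where
  one : ∀ k, δ k X.one = 0
  corr : ∀ s : Multiset ι, 3 ≤ Multiset.card s →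
    (s.map fun i => ∑ k, δ k i * X.corr (k ::ₘ s.erase i)).sum = 0

end one

section split

variable {κ ν : Type} [Fintype κ] [DecidableEq κ] [Fintype ν] [DecidableEq ν]
variable (X : FanoGW (κ ⊕ ν))

/-- `g` fixes the classes `φ_a`, `a ∈ κ`, and preserves all invariants
`⟨φ_a, φ_b, φ_c, t, …, t⟩` with `t` in the span of these classes. -/
def IsSymmetry (g : Matrix (κ ⊕ ν) (κ ⊕ ν) ℂ) : Prop :=
  (∀ k (a : κ), g k (Sum.inl a) = if k = Sum.inl a then 1 else 0) ∧
  ∀ (a b c : κ ⊕ ν) (s : Multiset κ),
    ∑ a', ∑ b', ∑ c', g a' a * g b' b * g c' c * X.corr ({a', b', c'} + s.map Sum.inl) =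
      X.corr ({a, b, c} + s.map Sum.inl)

/-- The projection onto the span of the `φ_a`, `a ∈ κ`, along the span of the other classes. -/
def proj (κ ν : Type) [DecidableEq κ] [DecidableEq ν] : Matrix (κ ⊕ ν) (κ ⊕ ν) ℂ :=
  Matrix.diagonal (Sum.elim (fun _ => 1) (fun _ => 0))

/-- The matrix of big quantum multiplication `φ_a •` at points `t` in the span of the `φ_c`,
`c ∈ κ` (the coordinates `t_j`, `j ∈ ν`, are set to `0`). -/
noncomputable def resMat (a : κ ⊕ ν) : Matrix (κ ⊕ ν) (κ ⊕ ν) (MvPowerSeries κ ℂ) :=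
  (X.mulMat a).map (killCompl (R := ℂ) (Function.Embedding.inl : κ ↪ κ ⊕ ν))

end split

end FanoGW

end Pool.Agent.Helper18.Dub
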