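import Pool.Agent.Helper18.Dub.Rigid

/-!
# Generic semisimplicity, reducedness and discriminants
-/

open scoped BigOperators
open Finset MvPowerSeries

namespace Pool.Agent.Helper18.Dub

instance instCharZeroMvPowerSeries (κ : Type) : CharZero (MvPowerSeries κ ℂ) :=
  charZero_of_injective_algebraMap (algebraMap ℂ (MvPowerSeries κ ℂ)).injective

namespace AlgStr

variable {R : Type*} [CommRing R] {ι : Type*} [Fintype ι] [DecidableEq ι]

/-- coordinatewise base change of elements -/
def mapFun (A : AlgStr R ι) {S : Type*} [CommRing S] (f : R →+* S) (x : A.Carrier) :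
    (A.map f).Carrier := fun k => f (x k)

theorem mapFun_mul (A : AlgStr R ι) {S : Type*} [CommRing S] (f : R →+* S) (x y : A.Carrier) :
    A.mapFun f (x * y) = A.mapFun f x * A.mapFun f y := by
  funext k
  rw [mul_apply (A.map f)]
  show f ((x * y) k) = _
  rw [mul_apply, map_sum]
  refine Finset.sum_congr rfl fun a _ => ?_
  rw [map_sum]
  refine Finset.sum_congr rfl fun b _ => ?_
  rw [map_mul, map_mul, map_m]
  rfl

/-- The ring homomorphism `A → A ⊗ S` in coordinates. -/
def mapHom (A : AlgStr R ι) {S : Type*} [CommRing S] (f : R →+* S) :
    A.Carrier →+* (A.map f).Carrier where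
  toFun := A.mapFun f
  map_one' := by
    funext k
    show f ((1 : A.Carrier) k) = (1 : (A.map f).Carrier) k
    rw [one_apply, one_apply]
    show f (if A.one = k then 1 else 0) = if A.one = k then 1 else 0
    split_ifs <;> simp
  map_zero' := by
    funext k
    show f ((0 : A.Carrier) k) = (0 : (A.map f).Carrier) k
    rw [zero_apply, zero_apply, map_zero]
  map_add' x y := by
    funext k
    show f ((x + y) k) = f (x k) + f (y k)
    rw [add_apply, map_add]
  map_mul' := A.mapFun_mul f

theorem mapHom_apply (A : AlgStr R ι) {S : Type*} [CommRing S] (f : R →+* S) (x : A.Carrier)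
    (k : ι) : A.mapHom f x k = f (x k) := rfl

theorem mapHom_injective (A : AlgStr R ι) {S : Type*} [CommRing S] (f : R →+* S)
    (hf : Function.Injective f) : Function.Injective (A.mapHom f) := by
  intro x y h
  funext k
  exact hf (congrFun h k)

theorem isReduced_of_map (A : AlgStr R ι) {S : Type*} [CommRing S] (f : R →+* S)
    (hf : Function.Injective f) (h : IsReduced (A.map f).Carrier) : IsReduced A.Carrier :=
  isReduced_of_injective (A.mapHom f) (A.mapHom_injective f hf)

variable [IsDomain R]

variable [CharZero R]

omit [IsDomain R] in
theorem charZero_fractionRing : CharZero (FractionRing R) :=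
  charZero_of_injective_algebraMap (IsFractionRing.injective R (FractionRing R))

theorem genericallySemisimple_iff (A : AlgStr R ι) : A.GenericallySemisimple ↔ A.disc ≠ 0 := by
  have := charZero_fractionRing (R := R)
  rw [GenericallySemisimple, isSemisimpleRing_iff, disc_map]
  exact not_congr (map_eq_zero_iff _ (IsFractionRing.injective R (FractionRing R)))

theorem isReduced_of_disc_ne_zero (A : AlgStr R ι) (h : A.disc ≠ 0) : IsReduced A.Carrier := by
  have := charZero_fractionRing (R := R)
  refine A.isReduced_of_map (algebraMap R (FractionRing R))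
    (IsFractionRing.injective R (FractionRing R)) ?_
  rw [isReduced_iff, disc_map]
  exact fun h0 => h ((map_eq_zero_iff _ (IsFractionRing.injective R (FractionRing R))).1 h0)

theorem disc_ne_zero_of_isReduced (A : AlgStr R ι) (h : IsReduced A.Carrier) : A.disc ≠ 0 := by
  classical
  have := charZero_fractionRing (R := R)
  have h1 : IsReduced (A.map (algebraMap R (FractionRing R))).Carrier := by
    refine ⟨fun x hx => ?_⟩
    -- clear denominators
    obtain ⟨s, hs⟩ := IsLocalization.exist_integer_multiples_of_finset (nonZeroDivisors R)
      (Finset.univ.image fun k => x k)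
    have hs' : ∀ k, ∃ y : R, algebraMap R (FractionRing R) y = (s : R) • (x k) := by
      intro k
      have := hs (x k) (Finset.mem_image_of_mem _ (Finset.mem_univ k))
      exact this
    choose y hy using hs'
    let Y : A.Carrier := y
    have hY : A.mapHom (algebraMap R (FractionRing R)) Y =
        (algebraMap R (FractionRing R) (s : R)) • x := by
      funext k
      rw [mapHom_apply, smul_apply]
      show algebraMap R (FractionRing R) (y k) = _
      rw [hy k, Algebra.smul_def]
    have hnil : IsNilpotent (A.mapHom (algebraMap R (FractionRing R)) Y) := by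
      rw [hY, Algebra.smul_def]
      exact (Commute.all _ _).isNilpotent_mul_left hx
    have hY0 : IsNilpotent Y :=
      (IsNilpotent.map_iff (A.mapHom_injective _ (IsFractionRing.injective R
        (FractionRing R)))).1 hnil
    have hY1 : Y = 0 := hY0.eq_zero
    rw [hY1, map_zero] at hY
    have hs0 : algebraMap R (FractionRing R) (s : R) ≠ 0 := by
      intro h0
      exact nonZeroDivisors.ne_zero s.2
        ((map_eq_zero_iff _ (IsFractionRing.injective R (FractionRing R))).1 h0)
    exact (smul_eq_zero.1 hY.symm).resolve_left hs0
  rw [isReduced_iff, disc_map] at h1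
  intro h0
  exact h1 (by rw [h0, map_zero])

theorem isReduced_iff_disc (A : AlgStr R ι) : IsReduced A.Carrier ↔ A.disc ≠ 0 :=
  ⟨A.disc_ne_zero_of_isReduced, A.isReduced_of_disc_ne_zero⟩

/-- Semisimplicity at a point implies generic semisimplicity. -/
theorem genericallySemisimple_of_specialization (A : AlgStr R ι) {K : Type*} [Field K]
    [CharZero K] (f : R →+* K) (h : IsSemisimpleRing (A.map f).Carrier) :
    A.GenericallySemisimple := by
  rw [genericallySemisimple_iff]
  rw [isSemisimpleRing_iff, disc_map] at h
  intro h0
  exact h (by rw [h0, map_zero])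

end AlgStr

end Pool.Agent.Helper18.Dub
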