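import Pool.Agent.Helper18.Dub.Reg

/-!
# Lifting idempotents over power series rings
-/

open scoped BigOperators
open Finset MvPowerSeries

namespace Pool.Agent.Helper18.Dub

/-- power series of order at least `k` -/
noncomputable def ordIdeal (σ : Type) (k : ℕ) : Ideal (MvPowerSeries σ ℂ) where
  carrier := {f | (k : ℕ∞) ≤ f.order}
  add_mem' := by
    intro f g hf hg
    exact le_trans (le_min hf hg) min_order_le_add
  zero_mem' := by
    show (k : ℕ∞) ≤ (0 : MvPowerSeries σ ℂ).order
    rw [order_zero]; exact le_top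
  smul_mem' := by
    intro c f hf
    exact le_trans (le_trans hf le_add_self) (le_order_mul (f := c) (g := f))

theorem mem_ordIdeal {σ : Type} {k : ℕ} {f : MvPowerSeries σ ℂ} :
    f ∈ ordIdeal σ k ↔ (k : ℕ∞) ≤ f.order := Iff.rfl

theorem mul_mem_ordIdeal {σ : Type} {k l : ℕ} {f g : MvPowerSeries σ ℂ} (hf : f ∈ ordIdeal σ k)
    (hg : g ∈ ordIdeal σ l) : f * g ∈ ordIdeal σ (k + l) := by
  rw [mem_ordIdeal] at *
  push_cast
  exact le_trans (add_le_add hf hg) le_order_mul

theorem ordIdeal_mono {σ : Type} {k l : ℕ} (h : k ≤ l) : ordIdeal σ l ≤ ordIdeal σ k := by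
  intro f hf
  rw [mem_ordIdeal] at *
  exact le_trans (by exact_mod_cast h) hf

theorem coeff_eq_zero_of_mem_ordIdeal {σ : Type} {k : ℕ} {f : MvPowerSeries σ ℂ}
    (hf : f ∈ ordIdeal σ k) {m : σ →₀ ℕ} (hm : m.degree < k) : coeff m f = 0 :=
  coeff_of_lt_order (lt_of_lt_of_le (by exact_mod_cast hm) hf)

theorem mem_ordIdeal_of_coeff {σ : Type} {k : ℕ} {f : MvPowerSeries σ ℂ}
    (h : ∀ m : σ →₀ ℕ, m.degree < k → coeff m f = 0) : f ∈ ordIdeal σ k :=
  nat_le_order h

theorem mem_ordIdeal_one {σ : Type} {f : MvPowerSeries σ ℂ} :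
    f ∈ ordIdeal σ 1 ↔ constantCoeff f = 0 := by
  constructor
  · intro h
    rw [← coeff_zero_eq_constantCoeff_apply]
    exact coeff_eq_zero_of_mem_ordIdeal h (by simp)
  · intro h
    refine mem_ordIdeal_of_coeff fun m hm => ?_
    have h1 : m.degree = 0 := by omega
    have : m = 0 := (Finsupp.degree_eq_zero_iff m).1 h1
    rw [this, coeff_zero_eq_constantCoeff_apply, h]

namespace AlgStr

variable {σ κ : Type} [Fintype κ] [DecidableEq κ] (A : AlgStr (MvPowerSeries σ ℂ) κ)

/-- elements of the algebra whose coordinates have order at least `k` -/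
def Ord (k : ℕ) (x : A.Carrier) : Prop := ∀ c, x c ∈ ordIdeal σ k

variable {A}

theorem Ord.add {k : ℕ} {x y : A.Carrier} (hx : A.Ord k x) (hy : A.Ord k y) :
    A.Ord k (x + y) := fun c => by
  rw [add_apply]; exact Ideal.add_mem _ (hx c) (hy c)

theorem neg_apply (x : A.Carrier) (c : κ) : (-x) c = - x c := rfl

theorem sub_apply (x y : A.Carrier) (c : κ) : (x - y) c = x c - y c := by
  rw [sub_eq_add_neg, add_apply, neg_apply, sub_eq_add_neg]

theorem Ord.sub {k : ℕ} {x y : A.Carrier} (hx : A.Ord k x) (hy : A.Ord k y) :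
    A.Ord k (x - y) := fun c => by
  rw [sub_apply]; exact Ideal.sub_mem _ (hx c) (hy c)

theorem Ord.mul {k l : ℕ} {x y : A.Carrier} (hx : A.Ord k x) (hy : A.Ord l y) :
    A.Ord (k + l) (x * y) := fun c => by
  rw [mul_apply]
  refine Ideal.sum_mem _ fun a _ => Ideal.sum_mem _ fun b _ => ?_
  exact Ideal.mul_mem_right _ _ (mul_mem_ordIdeal (hx a) (hy b))

theorem Ord.mul_right {k : ℕ} {x : A.Carrier} (hx : A.Ord k x) (y : A.Carrier) :
    A.Ord k (x * y) := by
  have : A.Ord 0 y := fun c => by
    rw [mem_ordIdeal]; simp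
  exact hx.mul this

theorem Ord.mono {k l : ℕ} (h : k ≤ l) {x : A.Carrier} (hx : A.Ord l x) : A.Ord k x :=
  fun c => ordIdeal_mono h (hx c)

theorem eq_zero_of_ord {x : A.Carrier} (h : ∀ k, A.Ord k x) : x = 0 := by
  funext c
  rw [zero_apply]
  ext m
  rw [coeff_eq_zero_of_mem_ordIdeal (h (m.degree + 1) c) (Nat.lt_succ_self _), map_zero]

theorem ord_one_iff {x : A.Carrier} :
    A.Ord 1 x ↔ A.mapHom (constantCoeff (σ := σ) (R := ℂ)) x = 0 := by
  constructor
  · intro h
    funext c
    rw [mapHom_apply, zero_apply]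
    exact mem_ordIdeal_one.1 (h c)
  · intro h c
    have := congrFun h c
    rw [mapHom_apply, zero_apply] at this
    exact mem_ordIdeal_one.2 this

/-- constant lift -/
noncomputable def clift (x : (A.map (constantCoeff (σ := σ) (R := ℂ))).Carrier) : A.Carrier :=
  fun c => C (x c)

theorem mapHom_clift (x : (A.map (constantCoeff (σ := σ) (R := ℂ))).Carrier) :
    A.mapHom (constantCoeff (σ := σ) (R := ℂ)) (clift x) = x := by
  funext c
  rw [mapHom_apply]
  show constantCoeff (C (x c)) = x c
  simp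

/-- Newton iteration for idempotents -/
noncomputable def newton (x0 : A.Carrier) : ℕ → A.Carrier
  | 0 => x0
  | n + 1 => 3 * newton x0 n ^ 2 - 2 * newton x0 n ^ 3

theorem newton_idem (x0 : A.Carrier) (h0 : A.Ord 1 (x0 * x0 - x0)) (n : ℕ) :
    A.Ord (n + 1) (newton x0 n * newton x0 n - newton x0 n) := by
  induction n with
  | zero => exact h0
  | succ n ih =>
    have h1 : newton x0 (n + 1) * newton x0 (n + 1) - newton x0 (n + 1) =
        (newton x0 n * newton x0 n - newton x0 n) * (newton x0 n * newton x0 n - newton x0 n) *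
          (4 * newton x0 n ^ 2 - 4 * newton x0 n - 3) := by
      show (3 * newton x0 n ^ 2 - 2 * newton x0 n ^ 3) * (3 * newton x0 n ^ 2 -
        2 * newton x0 n ^ 3) - (3 * newton x0 n ^ 2 - 2 * newton x0 n ^ 3) = _
      ring
    rw [h1]
    exact ((ih.mul ih).mono (by omega)).mul_right _

theorem newton_step (x0 : A.Carrier) (h0 : A.Ord 1 (x0 * x0 - x0)) (n : ℕ) :
    A.Ord (n + 1) (newton x0 (n + 1) - newton x0 n) := by
  have h1 : newton x0 (n + 1) - newton x0 n =
      (newton x0 n * newton x0 n - newton x0 n) * (1 - 2 * newton x0 n) := by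
    show (3 * newton x0 n ^ 2 - 2 * newton x0 n ^ 3) - newton x0 n = _
    ring
  rw [h1]
  exact (newton_idem x0 h0 n).mul_right _

theorem newton_diff (x0 : A.Carrier) (h0 : A.Ord 1 (x0 * x0 - x0)) (n k : ℕ) :
    A.Ord (n + 1) (newton x0 (n + k) - newton x0 n) := by
  induction k with
  | zero =>
    intro c
    rw [add_zero, sub_self, zero_apply]; exact Ideal.zero_mem _
  | succ k ih =>
    have h1 : newton x0 (n + (k + 1)) - newton x0 n =
        (newton x0 (n + k + 1) - newton x0 (n + k)) + (newton x0 (n + k) - newton x0 n) := by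
      rw [← add_assoc]; ring
    rw [h1]
    exact ((newton_step x0 h0 (n + k)).mono (by omega)).add ih

/-- limit of the Newton iteration -/
noncomputable def newtonLim (x0 : A.Carrier) : A.Carrier :=
  fun c m => coeff m (newton x0 m.degree c)

theorem newtonLim_sub (x0 : A.Carrier) (h0 : A.Ord 1 (x0 * x0 - x0)) (n : ℕ) :
    A.Ord (n + 1) (newtonLim x0 - newton x0 n) := by
  intro c
  refine mem_ordIdeal_of_coeff fun m hm => ?_
  rw [sub_apply, map_sub]
  have h1 : coeff m (newtonLim x0 c) = coeff m (newton x0 m.degree c) := rfl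
  rw [h1, ← neg_eq_zero, neg_sub]
  obtain ⟨k, rfl⟩ : ∃ k, n = m.degree + k := ⟨n - m.degree, by omega⟩
  have h2 := newton_diff x0 h0 m.degree k c
  have h3 := coeff_eq_zero_of_mem_ordIdeal h2 (m := m) (Nat.lt_succ_self _)
  rw [sub_apply, map_sub] at h3
  exact h3

/-- Idempotents of the special fibre lift. -/
theorem exists_idem_lift (eb : (A.map (constantCoeff (σ := σ) (R := ℂ))).Carrier)
    (heb : eb * eb = eb) :
    ∃ e : A.Carrier, e * e = e ∧ A.mapHom (constantCoeff (σ := σ) (R := ℂ)) e = eb := by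
  have h0 : A.Ord 1 (clift eb * clift eb - clift eb) := by
    rw [ord_one_iff, map_sub, map_mul, mapHom_clift, heb, sub_self]
  refine ⟨newtonLim (clift eb), ?_, ?_⟩
  · rw [← sub_eq_zero]
    refine eq_zero_of_ord fun k => ?_
    have h1 : newtonLim (clift eb) * newtonLim (clift eb) - newtonLim (clift eb) =
        (newtonLim (clift eb) - newton (clift eb) k) *
          (newtonLim (clift eb) + newton (clift eb) k - 1) +
        (newton (clift eb) k * newton (clift eb) k - newton (clift eb) k) := by ring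
    rw [h1]
    exact ((newtonLim_sub _ h0 k).mul_right _ |>.add (newton_idem _ h0 k)).mono (by omega)
  · have h1 := newtonLim_sub _ h0 0
    rw [zero_add, ord_one_iff, map_sub] at h1
    have h2 : newton (clift eb) 0 = clift eb := rfl
    rw [h2, mapHom_clift, sub_eq_zero] at h1
    exact h1

end AlgStr

end Pool.Agent.Helper18.Dub
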