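import Pool.Agent.Helper18.Dub.Minimal

/-!
# Infinitesimal symmetries of a semisimple theory vanish
-/

open scoped BigOperators
open Finset MvPowerSeries

namespace Pool.Agent.Helper18.Dub

section traces

variable {K : Type*} [Field K] [CharZero K] {B : Type*} [CommRing B] [Algebra K B]
  [FiniteDimensional K B]

/-- An element all of whose power sums vanish is nilpotent. -/
theorem isNilpotent_of_trace_pow (x : B) (h : ∀ n : ℕ, Algebra.trace K B (x ^ (n + 1)) = 0) :
    IsNilpotent x := by
  classical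
  let S : Subalgebra K B := Algebra.adjoin K {x}
  have hfin : FiniteDimensional K S := inferInstance
  have : IsArtinianRing S := IsArtinianRing.of_finite K S
  let x' : S := ⟨x, Algebra.self_mem_adjoin_singleton K x⟩
  let f : ℕ →o (Ideal S)ᵒᵈ :=
    ⟨fun n => OrderDual.toDual (Ideal.span {x' ^ n}), fun m n hmn => by
      show Ideal.span {x' ^ n} ≤ Ideal.span {x' ^ m}
      rw [Ideal.span_singleton_le_span_singleton]
      exact pow_dvd_pow x' hmn⟩
  obtain ⟨n₀, hn₀⟩ := IsArtinian.monotone_stabilizes (R := S) (M := S) f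
  set n := n₀ + 1 with hn
  have h2 : Ideal.span {x' ^ n} = Ideal.span {x' ^ (n + n)} :=
    (hn₀ n (by omega)).symm.trans (hn₀ (n + n) (by omega))
  have h3 : x' ^ n ∈ Ideal.span {x' ^ (n + n)} := by
    rw [← h2]; exact Ideal.mem_span_singleton_self _
  obtain ⟨y', hy'⟩ := Ideal.mem_span_singleton'.1 h3
  set y : B := (y' : B) with hy
  have hyx : y * x ^ (n + n) = x ^ n := congrArg Subtype.val hy'
  set e : B := x ^ n * y with he
  have hidem : e * e = e := by
    have : x ^ n * y * (x ^ n * y) = (y * x ^ (n + n)) * y := by ring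
    rw [he, this, hyx]
  have hxe : x ^ n * e = x ^ n := by
    have : x ^ n * (x ^ n * y) = y * x ^ (n + n) := by ring
    rw [he, this, hyx]
  have htr : Algebra.trace K B e = 0 := by
    have hy2 : y ∈ Algebra.adjoin K {x} := y'.2
    rw [Algebra.adjoin_singleton_eq_range_aeval] at hy2
    obtain ⟨q, hq⟩ := hy2
    have hq' : Polynomial.aeval x q = y := hq
    rw [he, ← hq', Polynomial.aeval_eq_sum_range, Finset.mul_sum, map_sum]
    refine Finset.sum_eq_zero fun i _ => ?_
    rw [mul_smul_comm, ← pow_add, map_smul]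
    have h4 : n + i = (n₀ + i) + 1 := by omega
    rw [h4, h, smul_zero]
  have hlin : IsIdempotentElem (Algebra.lmul K B e) := by
    show Algebra.lmul K B e * Algebra.lmul K B e = Algebra.lmul K B e
    rw [← map_mul, hidem]
  have hr : LinearMap.trace K B (Algebra.lmul K B e) = 0 := htr
  have hproj := (LinearMap.IsIdempotentElem.isProj_range _ hlin).trace
  rw [hproj, Nat.cast_eq_zero] at hr
  have hbot : LinearMap.range (Algebra.lmul K B e) = ⊥ := Submodule.finrank_eq_zero.1 hr
  have he0 : e = 0 := by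
    have : Algebra.lmul K B e 1 ∈ LinearMap.range (Algebra.lmul K B e) := ⟨1, rfl⟩
    rw [hbot, Submodule.mem_bot] at this
    simpa using this
  refine ⟨n, ?_⟩
  rw [← hxe, he0, mul_zero]

end traces

namespace AlgStr

variable {R : Type*} [CommRing R] {ι : Type*} [Fintype ι] [DecidableEq ι]

theorem trace_mapHom (A : AlgStr R ι) {S : Type*} [CommRing S] (f : R →+* S) (x : A.Carrier) :
    Algebra.trace S (A.map f).Carrier (A.mapHom f x) = f (Algebra.trace R A.Carrier x) := by
  rw [Algebra.trace_eq_matrix_trace A.basis, Algebra.trace_eq_matrix_trace (A.map f).basis,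
    Matrix.trace, Matrix.trace, map_sum]
  refine Finset.sum_congr rfl fun k _ => ?_
  rw [Matrix.diag_apply, Matrix.diag_apply, Algebra.leftMulMatrix_eq_repr_mul,
    Algebra.leftMulMatrix_eq_repr_mul, AlgStr.basis_repr, AlgStr.basis_repr]
  have h1 : A.mapHom f (A.basis k) = (A.map f).basis k := by
    funext c
    rw [AlgStr.mapHom_apply, AlgStr.basis_apply, AlgStr.basis_apply]
    split_ifs <;> simp
  rw [← h1, ← map_mul, AlgStr.mapHom_apply]

variable [IsDomain R] [CharZero R]

theorem eq_zero_of_trace_pow (A : AlgStr R ι) (h : A.disc ≠ 0) (x : A.Carrier)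
    (hx : ∀ n : ℕ, Algebra.trace R A.Carrier (x ^ (n + 1)) = 0) : x = 0 := by
  have := charZero_fractionRing (R := R)
  have hred : IsReduced (A.map (algebraMap R (FractionRing R))).Carrier := by
    rw [isReduced_iff, disc_map]
    exact fun h0 => h ((map_eq_zero_iff _ (IsFractionRing.injective R (FractionRing R))).1 h0)
  have hnil : IsNilpotent (A.mapHom (algebraMap R (FractionRing R)) x) := by
    refine isNilpotent_of_trace_pow (K := FractionRing R) _ fun n => ?_
    rw [← map_pow, trace_mapHom, hx, map_zero]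
  have h0 := hnil.eq_zero
  apply A.mapHom_injective (algebraMap R (FractionRing R))
    (IsFractionRing.injective R (FractionRing R))
  rw [h0, map_zero]

end AlgStr

namespace FanoGW

variable {ι : Type} [Fintype ι] [DecidableEq ι] (X : FanoGW ι)

variable {X} {δ : Matrix ι ι ℂ} (hδ : X.IsInfSymmetry δ)

/-- components of the linear vector field `t ↦ δ t` -/
noncomputable def vf (δ : Matrix ι ι ℂ) (c : ι) : MvPowerSeries ι ℂ :=
  ∑ b, C (δ c b) * MvPowerSeries.X b

/-- the corresponding derivation -/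
noncomputable def vfD (δ : Matrix ι ι ℂ) :
    Derivation ℂ (MvPowerSeries ι ℂ) (MvPowerSeries ι ℂ) :=
  ∑ c, vf δ c • pderiv ℂ c

theorem vfD_apply (δ : Matrix ι ι ℂ) (f : MvPowerSeries ι ℂ) :
    vfD δ f = ∑ c, vf δ c * pderiv ℂ c f := by
  rw [vfD]
  have : ∀ s : Finset ι, (∑ c ∈ s, vf δ c • pderiv ℂ c) f = ∑ c ∈ s, vf δ c * pderiv ℂ c f := by
    intro s
    induction s using Finset.induction_on with
    | empty => simp
    | insert a s ha ih =>
      rw [Finset.sum_insert ha, Finset.sum_insert ha, Derivation.add_apply, ih,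
        Derivation.smul_apply, smul_eq_mul]
  exact this _

include hδ

theorem IsInfSymmetry.pair_eq (i j : ι) :
    ∑ k, δ k i * X.pair k j + ∑ k, δ k j * X.pair i k = 0 := by
  have h := hδ.corr {X.one, i, j} (le_refl _)
  have h1 : (({X.one, i, j} : Multiset ι).map fun i' => ∑ k, δ k i' *
      X.corr (k ::ₘ ({X.one, i, j} : Multiset ι).erase i')).sum =
      (∑ k, δ k X.one * X.corr (k ::ₘ ({X.one, i, j} : Multiset ι).erase X.one)) +
      ((∑ k, δ k i * X.corr (k ::ₘ ({X.one, i, j} : Multiset ι).erase i)) +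
        ∑ k, δ k j * X.corr (k ::ₘ ({X.one, i, j} : Multiset ι).erase j)) := by
    simp only [Multiset.insert_eq_cons, Multiset.map_cons, Multiset.sum_cons,
      Multiset.map_singleton, Multiset.sum_singleton]
  rw [h1] at h
  have h2 : ∑ k, δ k X.one * X.corr (k ::ₘ ({X.one, i, j} : Multiset ι).erase X.one) = 0 := by
    refine Finset.sum_eq_zero fun k _ => ?_
    rw [hδ.one, zero_mul]
  have h3 : ∀ k, X.corr (k ::ₘ ({X.one, i, j} : Multiset ι).erase i) = X.pair k j := by
    intro k
    have : (k ::ₘ ({X.one, i, j} : Multiset ι).erase i) = {X.one, k, j} := by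
      have e1 : ({X.one, i, j} : Multiset ι) = i ::ₘ {X.one, j} := by
        show X.one ::ₘ i ::ₘ {j} = i ::ₘ X.one ::ₘ {j}
        exact Multiset.cons_swap _ _ _
      rw [e1, Multiset.erase_cons_head]
      exact Multiset.cons_swap _ _ _
    rw [this, X.corr_unit]
  have h4 : ∀ k, X.corr (k ::ₘ ({X.one, i, j} : Multiset ι).erase j) = X.pair i k := by
    intro k
    have : (k ::ₘ ({X.one, i, j} : Multiset ι).erase j) = {X.one, i, k} := by
      have e1 : ({X.one, i, j} : Multiset ι) = j ::ₘ {X.one, i} := by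
        rw [mset_rot X.one i j, mset_rot i j X.one]
        rfl
      rw [e1, Multiset.erase_cons_head]
      show ({k, X.one, i} : Multiset ι) = _
      rw [mset_rot k X.one i]
    rw [this, X.corr_unit]
  have h5 : ∑ k, δ k i * X.corr (k ::ₘ ({X.one, i, j} : Multiset ι).erase i) =
      ∑ k, δ k i * X.pair k j := Finset.sum_congr rfl fun k _ => congrArg (δ k i * ·) (h3 k)
  have h6 : ∑ k, δ k j * X.corr (k ::ₘ ({X.one, i, j} : Multiset ι).erase j) =
      ∑ k, δ k j * X.pair i k := Finset.sum_congr rfl fun k _ => congrArg (δ k j * ·) (h4 k)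
  rw [h2, zero_add, h5, h6] at h
  exact h

theorem IsInfSymmetry.pairInv_eq (k p : ι) :
    ∑ l, X.pair⁻¹ k l * δ p l = - ∑ q, δ k q * X.pair⁻¹ q p := by
  have h1 : δ.transpose * X.pair + X.pair * δ = 0 := by
    ext i j
    rw [Matrix.add_apply, Matrix.mul_apply, Matrix.mul_apply, Matrix.zero_apply,
      ← hδ.pair_eq i j]
    congr 1
    refine Finset.sum_congr rfl fun k _ => ?_
    rw [mul_comm]
  have h2 : X.pair⁻¹ * δ.transpose = - (δ * X.pair⁻¹) := by
    have h3 : X.pair⁻¹ * (δ.transpose * X.pair + X.pair * δ) * X.pair⁻¹ = 0 := by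
      rw [h1, Matrix.mul_zero, Matrix.zero_mul]
    rw [Matrix.mul_add, Matrix.add_mul] at h3
    have h4 : X.pair⁻¹ * (δ.transpose * X.pair) * X.pair⁻¹ = X.pair⁻¹ * δ.transpose := by
      rw [Matrix.mul_assoc, Matrix.mul_assoc, X.pair_mul_inv, Matrix.mul_one]
    have h5 : X.pair⁻¹ * (X.pair * δ) * X.pair⁻¹ = δ * X.pair⁻¹ := by
      rw [← Matrix.mul_assoc X.pair⁻¹, X.inv_mul_pair, Matrix.one_mul]
    rw [h4, h5] at h3
    exact eq_neg_of_add_eq_zero_left h3
  have h6 := congrFun (congrFun h2 k) p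
  rw [Matrix.mul_apply, Matrix.neg_apply, Matrix.mul_apply] at h6
  exact h6

/-- The generating functions are infinitesimally invariant. -/
theorem IsInfSymmetry.vfD_ser (s : Multiset ι) (hs : 3 ≤ Multiset.card s) :
    vfD δ (X.ser s) + (s.map fun i => ∑ k, C (δ k i) * X.ser (k ::ₘ s.erase i)).sum = 0 := by
  ext m
  rw [map_add, vfD_apply, map_sum, map_zero]
  -- first part
  have h1 : ∀ c, coeff m (vf δ c * pderiv ℂ c (X.ser s)) =
      ∑ b, δ c b * ((m b : ℂ) * X.corr (c ::ₘ (s + Finsupp.toMultiset (m - Finsupp.single b 1)))) /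
        ∏ j, ((m j).factorial : ℂ) := by
    intro c
    rw [vf, Finset.sum_mul, map_sum]
    refine Finset.sum_congr rfl fun b _ => ?_
    rw [mul_assoc, coeff_C_mul, pderiv_ser, mul_div_assoc]
    congr 1
    by_cases hb : m b = 0
    · rw [hb, Nat.cast_zero, zero_mul, zero_div, MvPowerSeries.X, coeff_monomial_mul, if_neg]
      intro hle
      have := hle b
      rw [Finsupp.single_eq_same] at this
      omega
    · have hle : Finsupp.single b 1 ≤ m := by
        rw [Finsupp.single_le_iff]; omega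
      rw [MvPowerSeries.X, coeff_monomial_mul, if_pos hle, one_mul, coeff_ser, Multiset.cons_add]
      have hmm : (m - Finsupp.single b 1) + Finsupp.single b 1 = m := tsub_add_cancel_of_le hle
      have h2 : (∏ j, ((m j).factorial : ℂ)) =
          (m b : ℂ) * ∏ j, (((m - Finsupp.single b 1 : ι →₀ ℕ) j).factorial : ℂ) := by
        conv_lhs => rw [← hmm]
        rw [prod_factorial_add_single]
        congr 1
        rw [Finsupp.tsub_apply, Finsupp.single_eq_same]
        have : 1 ≤ m b := by omega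
        push_cast [Nat.cast_sub this]
        ring
      rw [h2]
      have h3 : (m b : ℂ) ≠ 0 := by exact_mod_cast hb
      rw [mul_div_mul_left _ _ h3]
  rw [Finset.sum_congr rfl fun c _ => h1 c]
  -- second part
  have h2 : coeff m ((s.map fun i => ∑ k, C (δ k i) * X.ser (k ::ₘ s.erase i)).sum) =
      (s.map fun i => (∑ k, δ k i * X.corr (k ::ₘ (s.erase i + Finsupp.toMultiset m)))).sum /
        ∏ j, ((m j).factorial : ℂ) := by
    rw [div_eq_mul_inv, ← Multiset.sum_map_mul_right]
    have : ∀ s' : Multiset (MvPowerSeries ι ℂ), coeff m s'.sum = (s'.map (coeff m)).sum :=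
      fun s' => map_multiset_sum (coeff m) s'
    rw [this, Multiset.map_map]
    congr 1
    refine Multiset.map_congr rfl fun i _ => ?_
    rw [Function.comp_apply, map_sum, Finset.sum_mul]
    refine Finset.sum_congr rfl fun k _ => ?_
    rw [coeff_C_mul, coeff_ser, Multiset.cons_add]
    ring
  rw [h2]
  have h3 := hδ.corr (s + Finsupp.toMultiset m) (by rw [Multiset.card_add]; omega)
  rw [Multiset.map_add, Multiset.sum_add] at h3
  have h4 : (s.map fun i => ∑ k, δ k i * X.corr (k ::ₘ (s + Finsupp.toMultiset m).erase i)).sum =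
      (s.map fun i => (∑ k, δ k i * X.corr (k ::ₘ (s.erase i + Finsupp.toMultiset m)))).sum := by
    congr 1
    refine Multiset.map_congr rfl fun i hi => ?_
    rw [Multiset.erase_add_left_pos _ hi]
  have h5 : ((Finsupp.toMultiset m).map fun i => ∑ k, δ k i *
      X.corr (k ::ₘ (s + Finsupp.toMultiset m).erase i)).sum =
      ∑ b, (m b : ℂ) * ∑ k, δ k b *
        X.corr (k ::ₘ (s + Finsupp.toMultiset (m - Finsupp.single b 1))) := by
    rw [Finset.sum_multiset_map_count]
    have h6 : ∀ b ∈ (Finsupp.toMultiset m).toFinset,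
        Multiset.count b (Finsupp.toMultiset m) • (∑ k, δ k b *
          X.corr (k ::ₘ (s + Finsupp.toMultiset m).erase b)) =
        (m b : ℂ) * ∑ k, δ k b *
          X.corr (k ::ₘ (s + Finsupp.toMultiset (m - Finsupp.single b 1))) := by
      intro b hb
      rw [Multiset.mem_toFinset] at hb
      rw [Finsupp.count_toMultiset, nsmul_eq_mul]
      congr 1
      refine Finset.sum_congr rfl fun k _ => ?_
      have hmb : m b ≠ 0 := by
        intro h0
        have := Multiset.count_pos.2 hb
        rw [Finsupp.count_toMultiset] at this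
        omega
      have hle : Finsupp.single b 1 ≤ m := by
        rw [Finsupp.single_le_iff]; omega
      have hmm : Finsupp.single b 1 + (m - Finsupp.single b 1) = m := add_tsub_cancel_of_le hle
      have h7 : Finsupp.toMultiset m = b ::ₘ Finsupp.toMultiset (m - Finsupp.single b 1) := by
        conv_lhs => rw [← hmm]
        rw [map_add, Finsupp.toMultiset_single, one_smul, Multiset.singleton_add]
      rw [Multiset.erase_add_right_pos _ hb]
      congr 4
      rw [h7, Multiset.erase_cons_head]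
    rw [Finset.sum_congr rfl h6]
    refine Finset.sum_subset (Finset.subset_univ _) fun b _ hb => ?_
    have : m b = 0 := by
      by_contra h0
      apply hb
      rw [Multiset.mem_toFinset, ← Multiset.count_pos, Finsupp.count_toMultiset]
      omega
    rw [this, Nat.cast_zero, zero_mul]
  rw [h4, h5] at h3
  have h8 : ∑ c, ∑ b, δ c b * ((m b : ℂ) *
      X.corr (c ::ₘ (s + Finsupp.toMultiset (m - Finsupp.single b 1)))) /
        ∏ j, ((m j).factorial : ℂ) =
      (∑ b, (m b : ℂ) * ∑ k, δ k b *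
        X.corr (k ::ₘ (s + Finsupp.toMultiset (m - Finsupp.single b 1)))) /
        ∏ j, ((m j).factorial : ℂ) := by
    rw [Finset.sum_comm, Finset.sum_div]
    refine Finset.sum_congr rfl fun b _ => ?_
    rw [Finset.mul_sum, Finset.sum_div]
    refine Finset.sum_congr rfl fun c _ => ?_
    ring
  rw [h8, ← add_div, add_comm, h3, zero_div]

theorem IsInfSymmetry.vfD_sc_aux (a b k l : ι) :
    vfD δ (C (X.pair⁻¹ k l) * X.ser {a, b, l}) =
      - (∑ p, C (δ p a) * (C (X.pair⁻¹ k l) * X.ser {p, b, l})) -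
        (∑ p, C (δ p b) * (C (X.pair⁻¹ k l) * X.ser {a, p, l})) -
        (∑ p, C (X.pair⁻¹ k l * δ p l) * X.ser {a, b, p}) := by
  have h2 := hδ.vfD_ser {a, b, l} (le_refl _)
  have h3 : (({a, b, l} : Multiset ι).map fun i => ∑ k, C (δ k i) *
      X.ser (k ::ₘ ({a, b, l} : Multiset ι).erase i)).sum =
      (∑ p, C (δ p a) * X.ser {p, b, l}) + ((∑ p, C (δ p b) * X.ser {a, p, l}) +
        ∑ p, C (δ p l) * X.ser {a, b, p}) := by
    simp only [Multiset.insert_eq_cons, Multiset.map_cons, Multiset.sum_cons,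
      Multiset.map_singleton, Multiset.sum_singleton]
    have e1 : (a ::ₘ b ::ₘ ({l} : Multiset ι)).erase a = b ::ₘ {l} :=
      Multiset.erase_cons_head _ _
    have e2 : (a ::ₘ b ::ₘ ({l} : Multiset ι)).erase b = a ::ₘ {l} := by
      rw [Multiset.cons_swap, Multiset.erase_cons_head]
    have e3 : (a ::ₘ b ::ₘ ({l} : Multiset ι)).erase l = a ::ₘ {b} := by
      have : (a ::ₘ b ::ₘ ({l} : Multiset ι)) = l ::ₘ a ::ₘ {b} := by
        show ({a, b, l} : Multiset ι) = {l, a, b}
        rw [mset_rot a b l, mset_rot b l a]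
      rw [this, Multiset.erase_cons_head]
    rw [e1, e2, e3]
    congr 2
    · refine Finset.sum_congr rfl fun p _ => ?_
      congr 2
      exact Multiset.cons_swap _ _ _
    · refine Finset.sum_congr rfl fun p _ => ?_
      congr 2
      show ({p, a, b} : Multiset ι) = {a, b, p}
      rw [mset_rot p a b]
  rw [h3] at h2
  have h4 : vfD δ (C (X.pair⁻¹ k l) * X.ser {a, b, l}) =
      C (X.pair⁻¹ k l) * vfD δ (X.ser {a, b, l}) := by
    rw [Derivation.leibniz]
    have : vfD δ (C (X.pair⁻¹ k l)) = 0 := by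
      rw [vfD_apply]
      refine Finset.sum_eq_zero fun c _ => ?_
      rw [pderiv_C, mul_zero]
    rw [this, smul_zero, add_zero, smul_eq_mul]
  rw [h4, eq_neg_of_add_eq_zero_left h2]
  simp only [map_mul, mul_neg, mul_add, Finset.mul_sum]
  have e1 : ∀ p, C (X.pair⁻¹ k l) * (C (δ p a) * X.ser {p, b, l}) =
      C (δ p a) * (C (X.pair⁻¹ k l) * X.ser {p, b, l}) := fun p => by ring
  have e2 : ∀ p, C (X.pair⁻¹ k l) * (C (δ p b) * X.ser {a, p, l}) =
      C (δ p b) * (C (X.pair⁻¹ k l) * X.ser {a, p, l}) := fun p => by ring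
  have e3 : ∀ p, C (X.pair⁻¹ k l) * (C (δ p l) * X.ser {a, b, p}) =
      C (X.pair⁻¹ k l) * C (δ p l) * X.ser {a, b, p} := fun p => by ring
  rw [Finset.sum_congr rfl fun p _ => e1 p, Finset.sum_congr rfl fun p _ => e2 p,
    Finset.sum_congr rfl fun p _ => e3 p]
  ring

theorem IsInfSymmetry.vfD_sc_aux2 (a b k : ι) :
    ∑ l, ∑ p, C (X.pair⁻¹ k l * δ p l) * X.ser {a, b, p} =
      - ∑ q, C (δ k q) * X.sc a b q := by
  rw [Finset.sum_comm]
  have e1 : ∀ p, ∑ l, C (X.pair⁻¹ k l * δ p l) * X.ser {a, b, p} =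
      - ∑ q, C (δ k q) * (C (X.pair⁻¹ q p) * X.ser {a, b, p}) := by
    intro p
    have e2 : ∑ l, (C (X.pair⁻¹ k l * δ p l) : MvPowerSeries ι ℂ) =
        - ∑ q, C (δ k q) * C (X.pair⁻¹ q p) := by
      have e3 := congrArg (C : ℂ → MvPowerSeries ι ℂ) (hδ.pairInv_eq k p)
      rw [map_sum, map_neg, map_sum] at e3
      rw [e3]
      congr 1
      refine Finset.sum_congr rfl fun q _ => ?_
      rw [map_mul]
    rw [← Finset.sum_mul, e2, neg_mul, Finset.sum_mul]
    congr 1
    refine Finset.sum_congr rfl fun q _ => ?_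
    ring
  rw [Finset.sum_congr rfl fun p _ => e1 p, Finset.sum_neg_distrib, Finset.sum_comm]
  congr 1
  refine Finset.sum_congr rfl fun q _ => ?_
  rw [sc, Finset.mul_sum]

theorem IsInfSymmetry.vfD_sc (a b k : ι) :
    vfD δ (X.sc a b k) = ∑ q, C (δ k q) * X.sc a b q - ∑ p, C (δ p a) * X.sc p b k -
      ∑ p, C (δ p b) * X.sc a p k := by
  rw [sc, map_sum, Finset.sum_congr rfl fun l _ => hδ.vfD_sc_aux a b k l, Finset.sum_sub_distrib,
    Finset.sum_sub_distrib, Finset.sum_neg_distrib]
  have h5 : ∑ l, ∑ p, C (δ p a) * (C (X.pair⁻¹ k l) * X.ser {p, b, l}) =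
      ∑ p, C (δ p a) * X.sc p b k := by
    rw [Finset.sum_comm]
    refine Finset.sum_congr rfl fun p _ => ?_
    rw [sc, Finset.mul_sum]
  have h6 : ∑ l, ∑ p, C (δ p b) * (C (X.pair⁻¹ k l) * X.ser {a, p, l}) =
      ∑ p, C (δ p b) * X.sc a p k := by
    rw [Finset.sum_comm]
    refine Finset.sum_congr rfl fun p _ => ?_
    rw [sc, Finset.mul_sum]
  rw [h5, h6, hδ.vfD_sc_aux2 a b k]
  ring

/-- `∂_a (C_V) = [δ, C_a]` in coordinates, where `C_V` is multiplication by the vector field
`V = δ t`. -/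
theorem IsInfSymmetry.pderiv_CV (a k b : ι) :
    pderiv ℂ a (∑ c, vf δ c * X.sc c b k) =
      ∑ q, C (δ k q) * X.sc a b q - ∑ p, X.sc a p k * C (δ p b) := by
  have h1 : ∀ c, pderiv ℂ a (vf δ c * X.sc c b k) =
      vf δ c * pderiv ℂ c (X.sc a b k) + C (δ c a) * X.sc c b k := by
    intro c
    rw [Derivation.leibniz, smul_eq_mul, smul_eq_mul, X.pderiv_sc a b c k]
    congr 1
    rw [mul_comm]
    congr 1
    rw [vf, map_sum, Finset.sum_eq_single a]
    · rw [Derivation.leibniz, pderiv_C, smul_zero, add_zero, pderiv_X, Pi.single_eq_same,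
        smul_eq_mul, mul_one]
    · intro j _ hj
      rw [Derivation.leibniz, pderiv_C, smul_zero, add_zero, pderiv_X,
        Pi.single_eq_of_ne hj, smul_zero]
    · intro h'
      exact absurd (Finset.mem_univ _) h'
  rw [map_sum, Finset.sum_congr rfl fun c _ => h1 c, Finset.sum_add_distrib, ← vfD_apply,
    hδ.vfD_sc]
  have h2 : ∑ p, C (δ p b) * X.sc a p k = ∑ p, X.sc a p k * C (δ p b) :=
    Finset.sum_congr rfl fun p _ => mul_comm _ _
  rw [h2]
  ring

omit hδ in
/-- the linear vector field as an element of the algebra -/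
noncomputable def vfElt (X : FanoGW ι) (δ : Matrix ι ι ℂ) : X.QH.Carrier := fun c => vf δ c

omit hδ in
theorem leftMul_vf (k b : ι) :
    Algebra.leftMulMatrix X.QH.basis (vfElt X δ) k b = ∑ c, vf δ c * X.sc c b k := by
  rw [Algebra.leftMulMatrix_eq_repr_mul, AlgStr.basis_repr, AlgStr.mul_apply]
  refine Finset.sum_congr rfl fun c _ => ?_
  rw [Finset.sum_eq_single b]
  · rw [AlgStr.basis_apply, if_pos rfl, mul_one]
    rfl
  · intro j _ hj
    rw [AlgStr.basis_apply, if_neg (Ne.symm hj), mul_zero, zero_mul]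
  · intro h'
    exact absurd (Finset.mem_univ _) h'

/-- The power sums of the vector field of an infinitesimal symmetry are constant. -/
theorem IsInfSymmetry.pderiv_trace_pow (a : ι) (n : ℕ) :
    pderiv ℂ a (Algebra.trace (MvPowerSeries ι ℂ) X.QH.Carrier (vfElt X δ ^ (n + 1))) = 0 := by
  let δC : Matrix ι ι (MvPowerSeries ι ℂ) := Matrix.of fun k q => C (δ k q)
  set CV : Matrix ι ι (MvPowerSeries ι ℂ) := Algebra.leftMulMatrix X.QH.basis (vfElt X δ)
    with hCV
  set Ca : Matrix ι ι (MvPowerSeries ι ℂ) := Algebra.leftMulMatrix X.QH.basis (X.QH.basis a)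
    with hCa
  have h0 : CV.map (pderiv ℂ a) = δC * Ca - Ca * δC := by
    ext1 k b
    rw [Matrix.map_apply, Matrix.sub_apply, Matrix.mul_apply, Matrix.mul_apply, hCV, leftMul_vf,
      hδ.pderiv_CV]
    have h1 : ∀ q b', Ca q b' = X.sc a b' q := by
      intro q b'
      rw [hCa, AlgStr.leftMulMatrix_basis]; rfl
    congr 1
    · refine Finset.sum_congr rfl fun q _ => ?_
      rw [h1]; rfl
    · refine Finset.sum_congr rfl fun q _ => ?_
      rw [h1]; rfl
  have hcomm : CV * Ca = Ca * CV := by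
    rw [hCV, hCa, ← map_mul, ← map_mul, mul_comm]
  rw [Algebra.trace_eq_matrix_trace X.QH.basis, map_pow, ← hCV]
  have h1 : pderiv ℂ a ((CV ^ (n + 1)).trace) = ((CV ^ (n + 1)).map (pderiv ℂ a)).trace := by
    rw [Matrix.trace, Matrix.trace, map_sum]
    rfl
  have h3 := trace_mul_map_pow (pderiv ℂ a) CV n 1 (by rw [Matrix.one_mul, Matrix.mul_one])
  rw [Matrix.one_mul, Matrix.one_mul] at h3
  rw [h1, h3, h0]
  have hc : CV ^ n * Ca = Ca * CV ^ n := (show Commute CV Ca from hcomm).pow_left n
  have h4 : (CV ^ n * (δC * Ca - Ca * δC)).trace = 0 := by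
    rw [Matrix.mul_sub, Matrix.trace_sub, ← Matrix.mul_assoc, ← Matrix.mul_assoc, hc,
      Matrix.mul_assoc Ca, Matrix.trace_mul_comm Ca, sub_self]
  rw [h4, mul_zero]

theorem IsInfSymmetry.trace_pow (n : ℕ) :
    Algebra.trace (MvPowerSeries ι ℂ) X.QH.Carrier (vfElt X δ ^ (n + 1)) = 0 := by
  refine eq_zero_of_pderiv_dvd _ (fun _ => 0) (fun a => ?_) ?_
  · rw [hδ.pderiv_trace_pow, zero_mul]
  · have h1 := X.flatAlg.constantCoeff_trace (vfElt X δ ^ (n + 1))
    have h2 : X.flatAlg.A.mapHom (constantCoeff (σ := ι) (R := ℂ)) (vfElt X δ) = 0 := by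
      funext c
      rw [AlgStr.mapHom_apply, AlgStr.zero_apply]
      show constantCoeff (vf δ c) = 0
      rw [vf, map_sum]
      refine Finset.sum_eq_zero fun b _ => ?_
      rw [map_mul, constantCoeff_X, mul_zero]
    have h3 : X.flatAlg.A.mapHom (constantCoeff (σ := ι) (R := ℂ)) (vfElt X δ ^ (n + 1)) = 0 := by
      have : X.flatAlg.A.mapHom (constantCoeff (σ := ι) (R := ℂ)) (vfElt X δ ^ (n + 1)) =
          (X.flatAlg.A.mapHom (constantCoeff (σ := ι) (R := ℂ)) (vfElt X δ)) ^ (n + 1) :=
        map_pow _ _ _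
      rw [this, h2, zero_pow (Nat.succ_ne_zero n)]
    rw [h3, map_zero] at h1
    exact h1

/-- **Rigidity.** A generically semisimple theory has no nonzero infinitesimal symmetry. -/
theorem IsInfSymmetry.eq_zero (hss : X.QH.GenericallySemisimple) : δ = 0 := by
  have hV : vfElt X δ = 0 :=
    X.QH.eq_zero_of_trace_pow (X.QH.genericallySemisimple_iff.1 hss) _ hδ.trace_pow
  ext c b
  have h1 : vf δ c = 0 := congrFun hV c
  have h2 := congrArg (coeff (Finsupp.single b 1)) h1
  rw [vf, map_sum, Finset.sum_eq_single b, map_zero] at h2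
  · rw [coeff_C_mul, MvPowerSeries.coeff_index_single_self_X, mul_one] at h2
    exact h2
  · intro j _ hj
    rw [coeff_C_mul, MvPowerSeries.coeff_index_single_X, if_neg (Ne.symm hj), mul_zero]
  · intro h'
    exact absurd (Finset.mem_univ _) h'

end FanoGW

end Pool.Agent.Helper18.Dub
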