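import Pool.Agent.Helper18.Dub.QHDefs

/-!
# Symmetries of the genus-zero theory
-/

open scoped BigOperators
open Finset MvPowerSeries

namespace Pool.Agent.Helper18.Dub

namespace FanoGW

section split

variable {κ ν : Type} [Fintype κ] [DecidableEq κ] [Fintype ν] [DecidableEq ν]
variable (X : FanoGW (κ ⊕ ν))

/-- The big quantum product restricted to `t` in the span of the `φ_a`, `a ∈ κ`. -/
noncomputable def QHres : AlgStr (MvPowerSeries κ ℂ) (κ ⊕ ν) :=
  X.QH.map (killCompl (R := ℂ) (Function.Embedding.inl : κ ↪ κ ⊕ ν)).toRingHom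

end split

end FanoGW

/-- The subalgebra generated by the basis vectors `e_a`, `a ∈ κ`. -/
noncomputable def AlgStr.invPart {R : Type} [CommRing R] {κ ν : Type} [Fintype κ] [DecidableEq κ]
    [Fintype ν] [DecidableEq ν] (A : AlgStr R (κ ⊕ ν)) : Subalgebra R A.Carrier :=
  Algebra.adjoin R (Set.range fun a : κ => A.basis (Sum.inl a))

end Pool.Agent.Helper18.Dub
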