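import Pool.Agent.Helper18.Dub.Gen
import Pool.Agent.Helper18.Dub.SymDefs

/-!
# The invariant part of quantum cohomology
-/

open scoped BigOperators
open Finset MvPowerSeries

namespace Pool.Agent.Helper18.Dub

section sub

variable {R : Type*} [CommRing R] {κ ν : Type*} [Fintype κ] [DecidableEq κ] [Fintype ν]
  [DecidableEq ν]

namespace AlgStr

/-- The subalgebra spanned by the basis vectors indexed by `κ`. -/
def sub (A : AlgStr R (κ ⊕ ν)) (o : κ) (ho : A.one = Sum.inl o)
    (hcl : ∀ a b k, A.m (Sum.inl a) (Sum.inl b) (Sum.inr k) = 0) : AlgStr R κ where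
  m := fun a b k => A.m (Sum.inl a) (Sum.inl b) (Sum.inl k)
  one := o
  comm := fun a b k => A.comm _ _ _
  one_mul := fun b k => by
    rw [← ho, A.one_mul]
    by_cases h : b = k
    · rw [if_pos h, if_pos (by rw [h])]
    · rw [if_neg h, if_neg (fun h' => h (Sum.inl.inj h'))]
  assoc := fun a b c k => by
    have h := A.assoc (Sum.inl a) (Sum.inl b) (Sum.inl c) (Sum.inl k)
    rw [Fintype.sum_sum_type, Fintype.sum_sum_type] at h
    simp only [hcl, zero_mul, Finset.sum_const_zero, add_zero] at h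
    exact h

/-- the inclusion of the subalgebra -/
def subFun (A : AlgStr R (κ ⊕ ν)) (o : κ) (ho : A.one = Sum.inl o)
    (hcl : ∀ a b k, A.m (Sum.inl a) (Sum.inl b) (Sum.inr k) = 0) (x : (A.sub o ho hcl).Carrier) :
    A.Carrier := Sum.elim (fun a => x a) (fun _ => 0)

theorem subFun_inl (A : AlgStr R (κ ⊕ ν)) (o : κ) (ho : A.one = Sum.inl o)
    (hcl : ∀ a b k, A.m (Sum.inl a) (Sum.inl b) (Sum.inr k) = 0) (x : (A.sub o ho hcl).Carrier)
    (a : κ) : A.subFun o ho hcl x (Sum.inl a) = x a := rfl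

theorem subFun_inr (A : AlgStr R (κ ⊕ ν)) (o : κ) (ho : A.one = Sum.inl o)
    (hcl : ∀ a b k, A.m (Sum.inl a) (Sum.inl b) (Sum.inr k) = 0) (x : (A.sub o ho hcl).Carrier)
    (a : ν) : A.subFun o ho hcl x (Sum.inr a) = 0 := rfl

theorem subFun_mul (A : AlgStr R (κ ⊕ ν)) (o : κ) (ho : A.one = Sum.inl o)
    (hcl : ∀ a b k, A.m (Sum.inl a) (Sum.inl b) (Sum.inr k) = 0)
    (x y : (A.sub o ho hcl).Carrier) :
    A.subFun o ho hcl (x * y) = A.subFun o ho hcl x * A.subFun o ho hcl y := by
  funext k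
  have h1 : (A.subFun o ho hcl x * A.subFun o ho hcl y) k =
      ∑ a : κ, ∑ b : κ, x a * y b * A.m (Sum.inl a) (Sum.inl b) k := by
    rw [mul_apply, Fintype.sum_sum_type]
    simp only [Fintype.sum_sum_type, subFun_inl, subFun_inr, zero_mul, mul_zero,
      Finset.sum_const_zero, add_zero]
  rw [h1]
  rcases k with k | k
  · rw [subFun_inl, mul_apply]
    rfl
  · rw [subFun_inr]
    simp only [hcl, mul_zero, Finset.sum_const_zero]

/-- the inclusion of the subalgebra as a ring homomorphism -/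
def subHom (A : AlgStr R (κ ⊕ ν)) (o : κ) (ho : A.one = Sum.inl o)
    (hcl : ∀ a b k, A.m (Sum.inl a) (Sum.inl b) (Sum.inr k) = 0) :
    (A.sub o ho hcl).Carrier →+* A.Carrier where
  toFun := A.subFun o ho hcl
  map_one' := by
    funext k
    rcases k with k | k
    · rw [subFun_inl, one_apply, one_apply, ho]
      by_cases h : o = k
      · have h' : (A.sub o ho hcl).one = k := h
        rw [if_pos h', if_pos (by rw [h])]
      · have h' : ¬ (A.sub o ho hcl).one = k := h
        rw [if_neg h', if_neg (fun h'' => h (Sum.inl.inj h''))]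
    · rw [subFun_inr, one_apply, ho, if_neg (by simp)]
  map_zero' := by
    funext k
    rcases k with k | k
    · rw [subFun_inl, zero_apply, zero_apply]
    · rw [subFun_inr, zero_apply]
  map_add' x y := by
    funext k
    rw [add_apply]
    rcases k with k | k
    · rw [subFun_inl, subFun_inl, subFun_inl, add_apply]
    · rw [subFun_inr, subFun_inr, subFun_inr, add_zero]
  map_mul' := A.subFun_mul o ho hcl

theorem subHom_injective (A : AlgStr R (κ ⊕ ν)) (o : κ) (ho : A.one = Sum.inl o)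
    (hcl : ∀ a b k, A.m (Sum.inl a) (Sum.inl b) (Sum.inr k) = 0) :
    Function.Injective (A.subHom o ho hcl) := by
  intro x y h
  funext k
  exact congrFun h (Sum.inl k)

/-- the projection to the span of the first basis vectors -/
def piFun (A : AlgStr R (κ ⊕ ν)) (x : A.Carrier) : A.Carrier :=
  Sum.elim (fun a => x (Sum.inl a)) (fun _ => 0)

/-- The invariance argument: an algebra with a nondegenerate functional `θ` vanishing on the
complement of the subalgebra, whose nilradical is stable under the projection, is reduced as soon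
as the subalgebra is. -/
theorem isReduced_of_sub (A : AlgStr R (κ ⊕ ν)) (o : κ) (ho : A.one = Sum.inl o)
    (hcl : ∀ a b k, A.m (Sum.inl a) (Sum.inl b) (Sum.inr k) = 0)
    (θ : κ → R)
    (hnd : ∀ x : A.Carrier, (∀ y : A.Carrier, ∑ a : κ, θ a * (x * y) (Sum.inl a) = 0) → x = 0)
    (hπ : ∀ x : A.Carrier, IsNilpotent x → IsNilpotent (A.piFun x))
    (hsub : IsReduced (A.sub o ho hcl).Carrier) : IsReduced A.Carrier := by
  have key : ∀ x : A.Carrier, IsNilpotent x → ∀ a, x (Sum.inl a) = 0 := by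
    intro x hx a
    let y : (A.sub o ho hcl).Carrier := fun a => x (Sum.inl a)
    have h1 : A.subHom o ho hcl y = A.piFun x := rfl
    have h2 : IsNilpotent (A.subHom o ho hcl y) := by
      rw [h1]; exact hπ x hx
    have h3 : IsNilpotent y := (IsNilpotent.map_iff (A.subHom_injective o ho hcl)).1 h2
    have h4 : y = 0 := h3.eq_zero
    exact congrFun h4 a
  refine ⟨fun x hx => hnd x fun y => ?_⟩
  refine Finset.sum_eq_zero fun a _ => ?_
  rw [key (x * y) ((Commute.all x y).isNilpotent_mul_right hx) a, mul_zero]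

end AlgStr

end sub

namespace FanoGW

variable {κ ν : Type} [Fintype κ] [DecidableEq κ] [Fintype ν] [DecidableEq ν]
variable (X : FanoGW (κ ⊕ ν))

/-- correlators restricted to `t` in the span of the `φ_a`, `a ∈ κ` -/
noncomputable def rser (s : Multiset (κ ⊕ ν)) : MvPowerSeries κ ℂ :=
  killCompl Function.Embedding.inl (X.ser s)

/-- the common denominator -/
noncomputable def den (κ ν : Type) [Fintype κ] [Fintype ν] (m : κ →₀ ℕ) : ℂ :=
  ∏ i : κ ⊕ ν, (((Finsupp.embDomain (Function.Embedding.inl : κ ↪ κ ⊕ ν) m) i).factorial : ℂ)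

theorem coeff_rser (s : Multiset (κ ⊕ ν)) (m : κ →₀ ℕ) :
    coeff m (X.rser s) =
      X.corr (s + (Finsupp.toMultiset m).map Sum.inl) / den κ ν m := by
  rw [rser, coeff_killCompl, coeff_ser, den]
  congr 3
  rw [Finsupp.toMultiset_map, Finsupp.embDomain_eq_mapDomain]
  rfl

theorem QHres_m (a b k : κ ⊕ ν) :
    X.QHres.m a b k = ∑ l, C (X.pair⁻¹ k l) * X.rser {a, b, l} := by
  show killCompl (R := ℂ) (Function.Embedding.inl : κ ↪ κ ⊕ ν) (X.sc a b k) = _
  rw [sc, map_sum]
  refine Finset.sum_congr rfl fun l _ => ?_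
  rw [map_mul, killCompl_C]
  rfl

theorem rser_unit (b l : κ ⊕ ν) : X.rser {X.one, b, l} = C (X.pair b l) := by
  rw [rser, ser_unit, killCompl_C]

namespace IsSymmetry

variable {X} {g : Matrix (κ ⊕ ν) (κ ⊕ ν) ℂ} (hg : X.IsSymmetry g)

include hg

theorem rser_eq (a b c : κ ⊕ ν) :
    ∑ a', ∑ b', ∑ c', C (g a' a * g b' b * g c' c) * X.rser {a', b', c'} = X.rser {a, b, c} := by
  ext m
  rw [coeff_rser, ← hg.2 a b c (Finsupp.toMultiset m), map_sum, Finset.sum_div]
  refine Finset.sum_congr rfl fun a' _ => ?_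
  rw [map_sum, Finset.sum_div]
  refine Finset.sum_congr rfl fun b' _ => ?_
  rw [map_sum, Finset.sum_div]
  refine Finset.sum_congr rfl fun c' _ => ?_
  rw [coeff_C_mul, coeff_rser, mul_div_assoc]

theorem pair_eq {o : κ} (ho : X.one = Sum.inl o) : g.transpose * X.pair * g = X.pair := by
  ext a b
  have h := hg.2 (Sum.inl o) a b 0
  rw [Multiset.map_zero, add_zero] at h
  rw [Finset.sum_eq_single (Sum.inl o)] at h
  · rw [hg.1, if_pos rfl, ← ho] at h
    rw [X.corr_unit] at h
    rw [Matrix.mul_apply, ← h, Finset.sum_comm]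
    refine Finset.sum_congr rfl fun c' _ => ?_
    rw [Matrix.mul_apply, Finset.sum_mul]
    refine Finset.sum_congr rfl fun b' _ => ?_
    rw [add_zero, X.corr_unit, Matrix.transpose_apply]
    ring
  · intro k _ hk
    refine Finset.sum_eq_zero fun b' _ => Finset.sum_eq_zero fun c' _ => ?_
    rw [hg.1, if_neg hk]
    ring
  · intro h'
    exact absurd (Finset.mem_univ _) h'

theorem pairInv_eq {o : κ} (ho : X.one = Sum.inl o) : g * X.pair⁻¹ * g.transpose = X.pair⁻¹ := by
  have h1 := hg.pair_eq ho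
  have h2 : (X.pair⁻¹ * g.transpose * X.pair) * g = 1 := by
    rw [Matrix.mul_assoc, Matrix.mul_assoc, ← Matrix.mul_assoc g.transpose, h1, X.inv_mul_pair]
  have h3 : g * (X.pair⁻¹ * g.transpose * X.pair) = 1 := mul_eq_one_comm.1 h2
  calc g * X.pair⁻¹ * g.transpose = g * X.pair⁻¹ * g.transpose * (X.pair * X.pair⁻¹) := by
        rw [X.pair_mul_inv, Matrix.mul_one]
    _ = (g * (X.pair⁻¹ * g.transpose * X.pair)) * X.pair⁻¹ := by
        simp only [Matrix.mul_assoc]
    _ = X.pair⁻¹ := by rw [h3, Matrix.one_mul]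

/-- symmetries are compatible with the structure constants -/
theorem sc_eq {o : κ} (ho : X.one = Sum.inl o) (a b k : κ ⊕ ν) :
    ∑ a', ∑ b', C (g a' a * g b' b) * X.QHres.m a' b' k = ∑ p, C (g k p) * X.QHres.m a b p := by
  have hN : ∀ l, X.pair⁻¹ k l = ∑ p, ∑ q, g k p * X.pair⁻¹ p q * g l q := by
    intro l
    have := congrFun (congrFun (hg.pairInv_eq ho) k) l
    rw [← this, Matrix.mul_apply, Finset.sum_comm]
    refine Finset.sum_congr rfl fun q _ => ?_
    rw [Matrix.mul_apply, Finset.sum_mul]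
    rfl
  have h1 : ∀ a' b', C (g a' a * g b' b) * X.QHres.m a' b' k =
      ∑ p, ∑ q, ∑ l, C (g k p * X.pair⁻¹ p q) *
        (C (g a' a * g b' b * g l q) * X.rser {a', b', l}) := by
    intro a' b'
    rw [QHres_m, Finset.mul_sum]
    have h2 : ∀ l, C (g a' a * g b' b) * (C (X.pair⁻¹ k l) * X.rser {a', b', l}) =
        ∑ p, ∑ q, C (g k p * X.pair⁻¹ p q) *
        (C (g a' a * g b' b * g l q) * X.rser {a', b', l}) := by
      intro l
      rw [hN l, map_sum, Finset.sum_mul, Finset.mul_sum]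
      refine Finset.sum_congr rfl fun p _ => ?_
      rw [map_sum, Finset.sum_mul, Finset.mul_sum]
      refine Finset.sum_congr rfl fun q _ => ?_
      simp only [map_mul]
      ring
    rw [Finset.sum_congr rfl fun l _ => h2 l, Finset.sum_comm]
    refine Finset.sum_congr rfl fun p _ => ?_
    rw [Finset.sum_comm]
  have h3 : ∑ a', ∑ b', C (g a' a * g b' b) * X.QHres.m a' b' k =
      ∑ p, ∑ q, C (g k p * X.pair⁻¹ p q) *
        ∑ a', ∑ b', ∑ l, (C (g a' a * g b' b * g l q) * X.rser {a', b', l}) := by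
    simp only [h1]
    rw [Finset.sum_congr rfl fun a' _ => Finset.sum_comm]
    rw [Finset.sum_comm]
    refine Finset.sum_congr rfl fun p _ => ?_
    rw [Finset.sum_congr rfl fun a' _ => Finset.sum_comm]
    rw [Finset.sum_comm]
    refine Finset.sum_congr rfl fun q _ => ?_
    simp only [Finset.mul_sum]
  rw [h3]
  refine Finset.sum_congr rfl fun p _ => ?_
  rw [QHres_m, Finset.mul_sum]
  refine Finset.sum_congr rfl fun q _ => ?_
  rw [hg.rser_eq, map_mul]
  ring

end IsSymmetry

end FanoGW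

end Pool.Agent.Helper18.Dub
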