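import Pool.Agent.Helper18.Dub.Betti

/-!
# Fano manifolds with minimal cohomology
-/

open scoped BigOperators
open Finset

namespace Pool.Agent.Helper18.Dub

section cyclicAlg

open Polynomial

variable {B : Type*} [CommRing B] [Algebra ℂ B] [FiniteDimensional ℂ B] {n : ℕ} (c : B)

theorem minpoly_natDegree_of_cyclic (hn : Module.finrank ℂ B = n)
    (hreg : LinearIndependent ℂ (fun i : Fin n => c ^ (i : ℕ))) :
    (minpoly ℂ c).natDegree = n := by
  have hint : IsIntegral ℂ c := Algebra.IsIntegral.isIntegral c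
  have hmon : (minpoly ℂ c).Monic := minpoly.monic hint
  apply le_antisymm
  · rw [← hn]; exact minpoly.natDegree_le c
  · by_contra hlt
    push Not at hlt
    have h0 := minpoly.aeval ℂ c
    rw [Polynomial.aeval_eq_sum_range' hlt, Finset.sum_range] at h0
    have h1 := Fintype.linearIndependent_iff.1 hreg (fun i => (minpoly ℂ c).coeff i) h0
    apply hmon.ne_zero
    ext j
    rw [Polynomial.coeff_zero]
    by_cases hj : j < n
    · exact h1 ⟨j, hj⟩
    · exact Polynomial.coeff_eq_zero_of_natDegree_lt (by omega)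

theorem charpoly_eq_minpoly_of_cyclic (hn : Module.finrank ℂ B = n)
    (hreg : LinearIndependent ℂ (fun i : Fin n => c ^ (i : ℕ))) :
    LinearMap.charpoly (Algebra.lmul ℂ B c : Module.End ℂ B) = minpoly ℂ c := by
  have hint : IsIntegral ℂ c := Algebra.IsIntegral.isIntegral c
  have hmon : (minpoly ℂ c).Monic := minpoly.monic hint
  have hdvd : minpoly ℂ c ∣ LinearMap.charpoly (Algebra.lmul ℂ B c : Module.End ℂ B) := by
    apply minpoly.dvd
    have h1 := LinearMap.aeval_self_charpoly (Algebra.lmul ℂ B c : Module.End ℂ B)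
    have h2 : Polynomial.aeval (Algebra.lmul ℂ B c : Module.End ℂ B)
        (LinearMap.charpoly (Algebra.lmul ℂ B c : Module.End ℂ B)) =
        Algebra.lmul ℂ B (Polynomial.aeval c
          (LinearMap.charpoly (Algebra.lmul ℂ B c : Module.End ℂ B))) :=
      Polynomial.aeval_algHom_apply (Algebra.lmul ℂ B) c _
    rw [h2] at h1
    have h3 := LinearMap.congr_fun h1 1
    simpa using h3
  refine Polynomial.eq_of_monic_of_dvd_of_natDegree_le hmon (LinearMap.charpoly_monic _)
    hdvd ?_
  rw [LinearMap.charpoly_natDegree, hn, minpoly_natDegree_of_cyclic c hn hreg]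

theorem isReduced_iff_separable_of_cyclic (hn : Module.finrank ℂ B = n)
    (hreg : LinearIndependent ℂ (fun i : Fin n => c ^ (i : ℕ))) :
    IsReduced B ↔ (LinearMap.charpoly (Algebra.lmul ℂ B c : Module.End ℂ B)).Separable := by
  have hint : IsIntegral ℂ c := Algebra.IsIntegral.isIntegral c
  have hmon : (minpoly ℂ c).Monic := minpoly.monic hint
  rw [charpoly_eq_minpoly_of_cyclic c hn hreg, PerfectField.separable_iff_squarefree,
    ← isRadical_iff_squarefree_of_ne_zero hmon.ne_zero]
  constructor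
  · intro hred k q hq
    rw [minpoly.dvd_iff] at hq ⊢
    rw [map_pow] at hq
    exact (show IsNilpotent (Polynomial.aeval c q) from ⟨k, hq⟩).eq_zero
  · intro hrad
    refine ⟨fun x hx => ?_⟩
    have hspan : Submodule.span ℂ (Set.range fun i : Fin n => c ^ (i : ℕ)) = ⊤ :=
      hreg.span_eq_top_of_card_eq_finrank' (by rw [Fintype.card_fin, hn])
    have hxs : x ∈ Submodule.span ℂ (Set.range fun i : Fin n => c ^ (i : ℕ)) := by
      rw [hspan]; exact Submodule.mem_top
    obtain ⟨a, ha⟩ := (Submodule.mem_span_range_iff_exists_fun ℂ).1 hxs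
    let q : ℂ[X] := ∑ i : Fin n, Polynomial.C (a i) * Polynomial.X ^ (i : ℕ)
    have hq : Polynomial.aeval c q = x := by
      rw [← ha, map_sum]
      refine Finset.sum_congr rfl fun i _ => ?_
      rw [map_mul, map_pow, Polynomial.aeval_C, Polynomial.aeval_X, Algebra.smul_def]
    obtain ⟨k, hk⟩ := hx
    rw [← hq, ← map_pow, ← minpoly.dvd_iff] at hk
    have := hrad k q hk
    rw [← hq]
    exact minpoly.dvd_iff.1 this

end cyclicAlg

namespace FanoGW

variable {ι : Type} [Fintype ι] [DecidableEq ι] (X : FanoGW ι)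

theorem cupMat_apply (k b : ι) : X.cupMat k b =
    ∑ a, X.chern a * ∑ l, X.pair⁻¹ k l * X.inv X.zero {a, b, l} := rfl

theorem inv_deg (β : X.Curve) (a b k l : ι) (ha : X.chern a ≠ 0) (h1 : X.pair⁻¹ k l ≠ 0)
    (h2 : X.inv β {a, b, l} ≠ 0) : X.deg k + X.c1 β = X.deg b + 1 := by
  have h4 := X.dimension β _ h2
  have h5 := X.pairInv_deg k l h1
  have h6 : (({a, b, l} : Multiset ι).map X.deg).sum = X.deg a + (X.deg b + X.deg l) := by
    simp [Multiset.insert_eq_cons]
  have h7 : Multiset.card ({a, b, l} : Multiset ι) = 3 := rfl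
  have h8 := X.chern_deg a ha
  rw [h6, h7] at h4
  omega

theorem cupMat_deg (k b : ι) (h : X.cupMat k b ≠ 0) : X.deg k = X.deg b + 1 := by
  rw [cupMat_apply] at h
  obtain ⟨a, -, ha⟩ := Finset.exists_ne_zero_of_sum_ne_zero h
  obtain ⟨l, -, hl⟩ := Finset.exists_ne_zero_of_sum_ne_zero (right_ne_zero_of_mul ha)
  have := X.inv_deg X.zero a b k l (left_ne_zero_of_mul ha) (left_ne_zero_of_mul hl)
    (right_ne_zero_of_mul hl)
  rw [(X.c1_eq_zero X.zero).2 rfl] at this
  omega

theorem chernMat_deg (k b : ι) (h : X.chernMat k b ≠ 0) : X.deg k ≤ X.deg b + 1 := by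
  rw [chernMat_apply] at h
  obtain ⟨a, -, ha⟩ := Finset.exists_ne_zero_of_sum_ne_zero h
  have h1 := right_ne_zero_of_mul ha
  obtain ⟨q, hq⟩ := X.smallQH_deg (r := 1) (fun β => one_dvd _) a b k h1
  have h8 := X.chern_deg a (left_ne_zero_of_mul ha)
  omega

theorem chernMat_eq_cupMat (k b : ι) (h : X.deg k = X.deg b + 1) :
    X.chernMat k b = X.cupMat k b := by
  rw [chernMat_apply, cupMat_apply]
  refine Finset.sum_congr rfl fun a _ => ?_
  by_cases ha : X.chern a = 0
  · rw [ha, zero_mul, zero_mul]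
  congr 1
  rw [smallQH_m]
  refine Finset.sum_congr rfl fun l _ => ?_
  by_cases hl : X.pair⁻¹ k l = 0
  · rw [hl, zero_mul, zero_mul]
  congr 1
  rw [GWData.corr, finsum_eq_single _ X.zero]
  intro β hβ
  by_contra hne
  have h1 := X.inv_deg β a b k l ha hl hne
  have h2 : X.c1 β = 0 := by omega
  exact hβ ((X.c1_eq_zero β).1 h2)

/-- coordinates of `c_1^{∪ i}` -/
noncomputable def vcup (i : ℕ) : ι → ℂ := (X.cupMat ^ i).mulVec (Pi.single X.one 1)

theorem vcup_succ (i : ℕ) : X.vcup (i + 1) = X.cupMat.mulVec (X.vcup i) := by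
  rw [vcup, vcup, pow_succ', ← Matrix.mulVec_mulVec]

theorem vcup_zero : X.vcup 0 = Pi.single X.one 1 := by
  rw [vcup, pow_zero, Matrix.one_mulVec]

theorem vcup_deg (i : ℕ) (k : ι) (h : X.vcup i k ≠ 0) : X.deg k = i := by
  induction i generalizing k with
  | zero =>
    rw [vcup_zero, Pi.single_apply] at h
    by_cases hk : k = X.one
    · rw [hk, X.deg_one]
    · rw [if_neg hk] at h
      exact absurd rfl h
  | succ i ih =>
    rw [vcup_succ, Matrix.mulVec, dotProduct] at h
    obtain ⟨b, -, hb⟩ := Finset.exists_ne_zero_of_sum_ne_zero h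
    rw [X.cupMat_deg k b (left_ne_zero_of_mul hb), ih b (right_ne_zero_of_mul hb)]

theorem c1_pow_succ (i : ℕ) (k : ι) :
    (X.c1class ^ (i + 1)) k = ∑ b, X.chernMat k b * (X.c1class ^ i) b := by
  rw [pow_succ', AlgStr.mul_apply, Finset.sum_comm]
  refine Finset.sum_congr rfl fun b _ => ?_
  rw [chernMat_apply, Finset.sum_mul]
  refine Finset.sum_congr rfl fun a _ => ?_
  show X.chern a * _ * _ = _
  ring

theorem c1_pow_top (i : ℕ) (k : ι) : ((X.c1class ^ i) k ≠ 0 → X.deg k ≤ i) ∧
    (X.deg k = i → (X.c1class ^ i) k = X.vcup i k) := by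
  induction i generalizing k with
  | zero =>
    have h1 : (X.c1class ^ 0) k = X.vcup 0 k := by
      rw [pow_zero, vcup_zero, Pi.single_apply]
      rw [AlgStr.one_apply]
      by_cases h : k = X.one
      · subst h
        rw [if_pos rfl]
        exact if_pos rfl
      · rw [if_neg h]
        exact if_neg (fun h' => h h'.symm)
    refine ⟨fun h => ?_, fun _ => h1⟩
    rw [h1] at h
    exact (X.vcup_deg 0 k h).le
  | succ i ih =>
    constructor
    · intro h
      rw [c1_pow_succ] at h
      obtain ⟨b, -, hb⟩ := Finset.exists_ne_zero_of_sum_ne_zero h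
      have h1 := X.chernMat_deg k b (left_ne_zero_of_mul hb)
      have h2 := (ih b).1 (right_ne_zero_of_mul hb)
      omega
    · intro hk
      rw [c1_pow_succ, vcup_succ, Matrix.mulVec, dotProduct]
      refine Finset.sum_congr rfl fun b _ => ?_
      by_cases hb : X.deg b = i
      · rw [(ih b).2 hb, X.chernMat_eq_cupMat k b (by omega)]
      · have h1 : X.vcup i b = 0 := by
          by_contra h
          exact hb (X.vcup_deg i b h)
        rw [h1, mul_zero]
        by_contra hne
        have h2 := X.chernMat_deg k b (left_ne_zero_of_mul hne)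
        have h3 := (ih b).1 (right_ne_zero_of_mul hne)
        omega

/-- If `c_1^{∪ D} ≠ 0`, the quantum powers `1, c_1, …, c_1^D` are linearly independent. -/
theorem c1_pow_linearIndependent (htop : X.vcup X.dim ≠ 0) :
    LinearIndependent ℂ (fun i : Fin (X.dim + 1) => X.c1class ^ (i : ℕ)) := by
  have hne : ∀ i, i ≤ X.dim → X.vcup i ≠ 0 := by
    intro i hi h0
    apply htop
    obtain ⟨j, hj⟩ : ∃ j, X.dim = i + j := ⟨X.dim - i, by omega⟩
    rw [hj]
    have key : ∀ j, X.vcup (i + j) = 0 := by
      intro j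
      induction j with
      | zero => exact h0
      | succ j ih => rw [← add_assoc, vcup_succ, ih, Matrix.mulVec_zero]
    exact key j
  rw [Fintype.linearIndependent_iff]
  intro c hc
  suffices H : ∀ m : ℕ, ∀ i : Fin (X.dim + 1), X.dim - (i : ℕ) = m → c i = 0 from
    fun i => H _ i rfl
  intro m
  induction m using Nat.strong_induction_on with
  | _ m ih =>
    intro i him
    obtain ⟨k, hk⟩ := Function.ne_iff.1 (hne i (by have := i.2; omega))
    rw [Pi.zero_apply] at hk
    have hdeg := X.vcup_deg i k hk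
    have h1 := congrFun hc k
    rw [AlgStr.zero_apply] at h1
    have h2 : (∑ j, c j • X.c1class ^ (j : ℕ)) k = ∑ j, c j * (X.c1class ^ (j : ℕ)) k := by
      have key : ∀ s : Finset (Fin (X.dim + 1)), (∑ j ∈ s, c j • X.c1class ^ (j : ℕ)) k =
          ∑ j ∈ s, c j * (X.c1class ^ (j : ℕ)) k := by
        intro s
        induction s using Finset.induction_on with
        | empty => simp [AlgStr.zero_apply]
        | insert a s ha ih =>
          rw [Finset.sum_insert ha, Finset.sum_insert ha, AlgStr.add_apply, ih,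
            AlgStr.smul_apply]
      exact key Finset.univ
    rw [h2, Finset.sum_eq_single i] at h1
    · rw [(X.c1_pow_top i k).2 hdeg] at h1
      exact (mul_eq_zero.1 h1).resolve_right hk
    · intro j _ hj
      rcases lt_or_gt_of_ne (fun h => hj (Fin.ext h) : (j : ℕ) ≠ i) with h5 | h5
      · have h6 : (X.c1class ^ (j : ℕ)) k = 0 := by
          by_contra hne'
          have := (X.c1_pow_top j k).1 hne'
          omega
        rw [h6, mul_zero]
      · rw [ih (X.dim - (j : ℕ)) (by have := j.2; omega) j rfl, zero_mul]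
    · intro h'
      exact absurd (Finset.mem_univ _) h'

/-- **Minimal cohomology**: big semisimplicity is equivalent to simplicity of the spectrum of
`c_1 •` on small quantum cohomology. -/
theorem minimal_iff (hN : Fintype.card ι = X.dim + 1) (htop : X.vcup X.dim ≠ 0) :
    X.QH.GenericallySemisimple ↔ X.chernMul.charpoly.Separable := by
  have hreg := X.c1_pow_linearIndependent htop
  have hreg' : LinearIndependent ℂ (fun i : Fin (Fintype.card ι) => X.flatAlg.c0 ^ (i : ℕ)) := by
    rw [hN, flatAlg_c0]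
    exact hreg
  have h1 := X.flatAlg.generic_iff_small hreg'
  have h2 : X.flatAlg.A.GenericallySemisimple ↔ X.QH.GenericallySemisimple := Iff.rfl
  rw [← h2, h1]
  have h3 : IsSemisimpleRing (X.flatAlg.A.map (MvPowerSeries.constantCoeff (σ := ι)
      (R := ℂ))).Carrier ↔ IsSemisimpleRing X.smallQH.Carrier := Iff.rfl
  rw [h3, isSemisimpleRing_iff_isReduced ℂ,
    isReduced_iff_separable_of_cyclic X.c1class (n := X.dim + 1)
      (by rw [finrank_carrier, hN]) hreg]
  rfl

theorem minimal_index (hN : Fintype.card ι = X.dim + 1) (htop : X.vcup X.dim ≠ 0)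
    (hss : X.QH.GenericallySemisimple) {r : ℕ} (hr0 : 0 < r) (hr : ∀ β, r ∣ X.c1 β) :
    r ∣ X.dim ∨ r ∣ X.dim + 1 := by
  have hreg := X.c1_pow_linearIndependent htop
  have hn : Module.finrank ℂ X.smallQH.Carrier = X.dim + 1 := by rw [finrank_carrier, hN]
  have hred : IsReduced X.smallQH.Carrier := by
    rw [isReduced_iff_separable_of_cyclic X.c1class hn hreg]
    exact (X.minimal_iff hN htop).1 hss
  have hζ := Complex.isPrimitiveRoot_exp r hr0.ne'
  have h := card_mod_of_reduced X.c1class hn (Nat.succ_pos _) hr0 hreg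
    (X.grad hr hζ.pow_eq_one) hζ (X.grad_c1 hr hζ.pow_eq_one)
  rw [Nat.add_sub_cancel] at h
  exact h.symm

end FanoGW

end Pool.Agent.Helper18.Dub
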