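import Pool.Agent.Helper18.Dub.Bridge

/-!
# Fano manifolds whose (monodromy-invariant) cohomology has dimension `D + 1`
-/

open Pool.Agent.Helper18.Dub

namespace Pool.Agent.Results.MP_78bf89_ag.MinimalCohomology

/-- Let `X` be a Fano manifold of dimension `D` whose cohomology splits as `H' ⊕ V`, with basis
indexed by `κ ⊕ ν`, such that `H'` contains `1` and `c_1(X)` and the projection onto `H'` along `V`
is a complex combination of symmetries of `X` fixing `H'` (for instance `V = 0`, or `H'` the
invariants of the monodromy group). Assume `dim H' = D + 1` and `c_1(X)^D ≠ 0`. Then quantum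
cohomology at the generic point of `H'` is semisimple iff the minimal polynomial of `c_1(X) •` on
small quantum cohomology, which has degree `D + 1`, has simple roots; for `V = 0` this is
equivalent to generic semisimplicity of big quantum cohomology; and it implies `r ∣ D` or
`r ∣ D + 1` for every `r ≥ 1` dividing all `c_1(X) · β`. -/
theorem result {κ ν : Type} [Fintype κ] [DecidableEq κ] [Fintype ν] [DecidableEq ν]
    (X : FanoGW (κ ⊕ ν)) {o : κ} (ho : X.one = Sum.inl o)
    (hspan : FanoGW.proj κ ν ∈ Submodule.span ℂ {g | X.IsSymmetry g})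
    (hc : ∀ j, X.chern (Sum.inr j) = 0) (hN : Fintype.card κ = X.dim + 1)
    (htop : (X.cupMat ^ X.dim).mulVec (Pi.single X.one 1) ≠ 0) :
    ((IsSemisimpleRing (matAlg X.resMat) ↔ (minpoly ℂ X.chernMat).Separable) ∧
      (minpoly ℂ X.chernMat).natDegree = X.dim + 1) ∧
    (IsEmpty ν → (X.IsGenericallySemisimple ↔ IsSemisimpleRing (matAlg X.resMat))) ∧
    (IsSemisimpleRing (matAlg X.resMat) →
      ∀ r : ℕ, 0 < r → (∀ β, r ∣ X.c1 β) → r ∣ X.dim ∨ r ∣ X.dim + 1) := by
  rw [X.matAlg_res_iff, X.minpoly_chernMat, X.isGenericallySemisimple_iff]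
  exact ⟨FanoGW.ambient_iff_minpoly ho hspan hc hN htop,
    fun _ => ⟨FanoGW.generic_of_isEmpty, fun h => X.big_of_generic h⟩,
    fun h _ hr0 hr => FanoGW.ambient_index ho hspan hc hN htop h hr0 hr⟩

end Pool.Agent.Results.MP_78bf89_ag.MinimalCohomology
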