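import Pool.Agent.Helper18.Dub.Inv

/-!
# Semisimplicity is detected on the invariant part
-/

open scoped BigOperators
open Finset MvPowerSeries

namespace Pool.Agent.Helper18.Dub

namespace FanoGW

variable {κ ν : Type} [Fintype κ] [DecidableEq κ] [Fintype ν] [DecidableEq ν]
variable (X : FanoGW (κ ⊕ ν))

section act

variable {S : Type*} [CommRing S] [Algebra ℂ S] (f : MvPowerSeries κ ℂ →ₐ[ℂ] S)

/-- The quantum algebra along the span of the `φ_a`, `a ∈ κ`, base changed along `f`. -/
noncomputable def QHf : AlgStr S (κ ⊕ ν) := X.QHres.map f.toRingHom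

omit [Fintype κ] [DecidableEq κ] in
theorem f_C (z : ℂ) : f (C z) = algebraMap ℂ S z := by
  have := f.commutes z
  rwa [MvPowerSeries.algebraMap_apply, Algebra.algebraMap_self, RingHom.id_apply] at this

/-- the action of a complex matrix in coordinates -/
noncomputable def act (M : Matrix (κ ⊕ ν) (κ ⊕ ν) ℂ) (x : (X.QHf f).Carrier) :
    (X.QHf f).Carrier := fun k => ∑ j, algebraMap ℂ S (M k j) * x j

theorem act_apply (M : Matrix (κ ⊕ ν) (κ ⊕ ν) ℂ) (x : (X.QHf f).Carrier) (k : κ ⊕ ν) :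
    X.act f M x k = ∑ j, algebraMap ℂ S (M k j) * x j := rfl

theorem act_add (M N : Matrix (κ ⊕ ν) (κ ⊕ ν) ℂ) (x : (X.QHf f).Carrier) :
    X.act f (M + N) x = X.act f M x + X.act f N x := by
  funext k
  rw [AlgStr.add_apply, act_apply, act_apply, act_apply, ← Finset.sum_add_distrib]
  refine Finset.sum_congr rfl fun j _ => ?_
  rw [Matrix.add_apply, map_add]; ring

theorem act_zero (x : (X.QHf f).Carrier) : X.act f 0 x = 0 := by
  funext k
  rw [AlgStr.zero_apply, act_apply]
  refine Finset.sum_eq_zero fun j _ => ?_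
  rw [Matrix.zero_apply, map_zero, zero_mul]

theorem act_smul (c : ℂ) (M : Matrix (κ ⊕ ν) (κ ⊕ ν) ℂ) (x : (X.QHf f).Carrier) :
    X.act f (c • M) x = algebraMap ℂ S c • X.act f M x := by
  funext k
  rw [AlgStr.smul_apply, act_apply, act_apply, Finset.mul_sum]
  refine Finset.sum_congr rfl fun j _ => ?_
  rw [Matrix.smul_apply, smul_eq_mul, map_mul]; ring

theorem act_zero_right (M : Matrix (κ ⊕ ν) (κ ⊕ ν) ℂ) : X.act f M 0 = 0 := by
  funext k
  rw [AlgStr.zero_apply, act_apply]
  refine Finset.sum_eq_zero fun j _ => ?_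
  rw [AlgStr.zero_apply, mul_zero]

theorem act_proj (x : (X.QHf f).Carrier) : X.act f (proj κ ν) x = (X.QHf f).piFun x := by
  funext k
  rw [act_apply, Finset.sum_eq_single k]
  · rcases k with k | k
    · simp [proj, AlgStr.piFun]
    · simp [proj, AlgStr.piFun]
  · intro j _ hj
    rw [proj, Matrix.diagonal_apply_ne _ (Ne.symm hj), map_zero, zero_mul]
  · intro h
    exact absurd (Finset.mem_univ _) h

variable {X} {g : Matrix (κ ⊕ ν) (κ ⊕ ν) ℂ} (hg : X.IsSymmetry g)

include hg

theorem IsSymmetry.act_mul {o : κ} (ho : X.one = Sum.inl o) (x y : (X.QHf f).Carrier) :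
    X.act f g (x * y) = X.act f g x * X.act f g y := by
  have hsc : ∀ a b k : κ ⊕ ν, ∑ a', ∑ b', algebraMap ℂ S (g a' a * g b' b) *
      (X.QHf f).m a' b' k = ∑ p, algebraMap ℂ S (g k p) * (X.QHf f).m a b p := by
    intro a b k
    have h := congrArg f (hg.sc_eq ho a b k)
    simp only [map_sum, map_mul f, f_C] at h
    exact h
  funext k
  rw [act_apply, AlgStr.mul_apply]
  have h1 : ∀ p, algebraMap ℂ S (g k p) * (x * y) p = ∑ a, ∑ b, x a * y b *
      (algebraMap ℂ S (g k p) * (X.QHf f).m a b p) := by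
    intro p
    rw [AlgStr.mul_apply, Finset.mul_sum]
    refine Finset.sum_congr rfl fun a _ => ?_
    rw [Finset.mul_sum]
    refine Finset.sum_congr rfl fun b _ => ?_
    ring
  rw [Finset.sum_congr rfl fun p _ => h1 p, Finset.sum_comm]
  have h2 : ∀ a, ∑ p, ∑ b, x a * y b * (algebraMap ℂ S (g k p) * (X.QHf f).m a b p) =
      ∑ b, ∑ a', ∑ b', x a * y b * (algebraMap ℂ S (g a' a * g b' b) * (X.QHf f).m a' b' k) := by
    intro a
    rw [Finset.sum_comm]
    refine Finset.sum_congr rfl fun b _ => ?_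
    rw [← Finset.mul_sum, ← hsc a b k, Finset.mul_sum]
    refine Finset.sum_congr rfl fun a' _ => ?_
    rw [Finset.mul_sum]
  rw [Finset.sum_congr rfl fun a _ => h2 a]
  -- right hand side
  have h3 : ∀ a' b', X.act f g x a' * X.act f g y b' * (X.QHf f).m a' b' k =
      ∑ a, ∑ b, x a * y b * (algebraMap ℂ S (g a' a * g b' b) * (X.QHf f).m a' b' k) := by
    intro a' b'
    rw [act_apply, act_apply, Finset.sum_mul_sum, Finset.sum_mul]
    refine Finset.sum_congr rfl fun a _ => ?_
    rw [Finset.sum_mul]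
    refine Finset.sum_congr rfl fun b _ => ?_
    rw [map_mul]; ring
  rw [Finset.sum_congr rfl fun a' _ => Finset.sum_congr rfl fun b' _ => h3 a' b']
  -- reorder a b a' b' to a' b' a b
  rw [Finset.sum_congr rfl fun a _ => Finset.sum_comm]
  rw [Finset.sum_comm]
  refine Finset.sum_congr rfl fun a' _ => ?_
  rw [Finset.sum_congr rfl fun a _ => Finset.sum_comm]
  rw [Finset.sum_comm]

theorem IsSymmetry.act_nilpotent {o : κ} (ho : X.one = Sum.inl o) (x : (X.QHf f).Carrier)
    (hx : IsNilpotent x) : IsNilpotent (X.act f g x) := by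
  obtain ⟨n, hn⟩ := hx
  have h1 : ∀ m : ℕ, (X.act f g x) ^ (m + 1) = X.act f g (x ^ (m + 1)) := by
    intro m
    induction m with
    | zero => rw [zero_add, pow_one, pow_one]
    | succ m ih => rw [pow_succ, ih, ← hg.act_mul f ho, ← pow_succ]
  refine ⟨n + 1, ?_⟩
  rw [h1, pow_succ, hn, zero_mul, act_zero_right]

end act

section span

variable {X} {o : κ} (ho : X.one = Sum.inl o)
variable {S : Type*} [CommRing S] [Algebra ℂ S] (f : MvPowerSeries κ ℂ →ₐ[ℂ] S)

include ho

theorem act_nilpotent_of_mem_span {M : Matrix (κ ⊕ ν) (κ ⊕ ν) ℂ}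
    (hM : M ∈ Submodule.span ℂ {g | X.IsSymmetry g}) (x : (X.QHf f).Carrier)
    (hx : IsNilpotent x) : IsNilpotent (X.act f M x) := by
  induction hM using Submodule.span_induction with
  | mem g hg => exact IsSymmetry.act_nilpotent f hg ho x hx
  | zero => rw [act_zero]; exact IsNilpotent.zero
  | add M N _ _ hM hN => rw [act_add]; exact (Commute.all _ _).isNilpotent_add hM hN
  | smul c M _ hM =>
    rw [act_smul, Algebra.smul_def]
    exact (Commute.all _ _).isNilpotent_mul_left hM

/-- The scalar by which a combination of symmetries acts on the invariants. -/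
theorem exists_scalar {M : Matrix (κ ⊕ ν) (κ ⊕ ν) ℂ}
    (hM : M ∈ Submodule.span ℂ {g | X.IsSymmetry g}) :
    ∃ c : ℂ, (∀ z : (X.QHf f).Carrier, (∀ g, X.IsSymmetry g → X.act f g z = z) →
        X.act f M z = algebraMap ℂ S c • z) ∧
      M (Sum.inl o) (Sum.inl o) = c ∧
      ∀ j, ∑ k, X.pair k (Sum.inl o) * M k j = c * X.pair j (Sum.inl o) := by
  induction hM using Submodule.span_induction with
  | mem g hg =>
    refine ⟨1, fun z hz => ?_, ?_, fun j => ?_⟩
    · rw [map_one, one_smul]; exact hz g hg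
    · rw [hg.1, if_pos rfl]
    · have h := congrFun (congrFun (hg.pair_eq ho) j) (Sum.inl o)
      rw [Matrix.mul_apply, Finset.sum_eq_single (Sum.inl o)] at h
      · rw [hg.1, if_pos rfl, mul_one, Matrix.mul_apply] at h
        rw [one_mul, ← h]
        refine Finset.sum_congr rfl fun k _ => ?_
        rw [Matrix.transpose_apply, mul_comm]
      · intro k _ hk
        rw [hg.1, if_neg hk, mul_zero]
      · intro h'
        exact absurd (Finset.mem_univ _) h'
  | zero =>
    refine ⟨0, fun z _ => ?_, ?_, fun j => ?_⟩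
    · rw [act_zero, map_zero, zero_smul]
    · rfl
    · rw [zero_mul]
      refine Finset.sum_eq_zero fun k _ => ?_
      rw [Matrix.zero_apply, mul_zero]
  | add M N _ _ hM hN =>
    obtain ⟨c, h1, h2, h3⟩ := hM
    obtain ⟨d, h4, h5, h6⟩ := hN
    refine ⟨c + d, fun z hz => ?_, ?_, fun j => ?_⟩
    · rw [act_add, h1 z hz, h4 z hz, map_add, add_smul]
    · rw [Matrix.add_apply, h2, h5]
    · rw [add_mul, ← h3 j, ← h6 j, ← Finset.sum_add_distrib]
      refine Finset.sum_congr rfl fun k _ => ?_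
      rw [Matrix.add_apply, mul_add]
  | smul c M _ hM =>
    obtain ⟨d, h1, h2, h3⟩ := hM
    refine ⟨c * d, fun z hz => ?_, ?_, fun j => ?_⟩
    · rw [act_smul, h1 z hz, map_mul, mul_smul]
    · rw [Matrix.smul_apply, smul_eq_mul, h2]
    · rw [mul_assoc, ← h3 j, Finset.mul_sum]
      refine Finset.sum_congr rfl fun k _ => ?_
      rw [Matrix.smul_apply, smul_eq_mul]; ring

variable (hspan : proj κ ν ∈ Submodule.span ℂ {g | X.IsSymmetry g})

include hspan

/-- fixed vectors have no component outside the invariants -/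
theorem eq_zero_of_fixed (z : (X.QHf f).Carrier)
    (hz : ∀ g, X.IsSymmetry g → X.act f g z = z) (j : ν) : z (Sum.inr j) = 0 := by
  obtain ⟨c, h1, h2, -⟩ := exists_scalar ho f hspan
  have hc : c = 1 := by
    rw [← h2, proj, Matrix.diagonal_apply_eq, Sum.elim_inl]
  have h3 := congrFun (h1 z hz) (Sum.inr j)
  rw [act_proj, hc, map_one, one_smul] at h3
  rw [← h3]
  rfl

omit [CommRing S] [Algebra ℂ S] in
/-- invariant classes are orthogonal to the complement -/
theorem pair_inr_one (j : ν) : X.pair (Sum.inr j) (Sum.inl o) = 0 := by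
  obtain ⟨c, -, h2, h3⟩ := exists_scalar (S := MvPowerSeries κ ℂ) ho
    (AlgHom.id ℂ (MvPowerSeries κ ℂ)) hspan
  have hc : c = 1 := by
    rw [← h2, proj, Matrix.diagonal_apply_eq, Sum.elim_inl]
  have h4 := h3 (Sum.inr j)
  rw [hc, one_mul] at h4
  rw [← h4]
  refine Finset.sum_eq_zero fun k _ => ?_
  by_cases hk : k = Sum.inr j
  · subst hk
    rw [proj, Matrix.diagonal_apply_eq, Sum.elim_inr, mul_zero]
  · rw [proj, Matrix.diagonal_apply_ne _ hk, mul_zero]

omit [CommRing S] [Algebra ℂ S] in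
/-- The invariant classes are closed under the product. -/
theorem closed (a b : κ) (k : ν) : X.QHres.m (Sum.inl a) (Sum.inl b) (Sum.inr k) = 0 := by
  let z : (X.QHf (AlgHom.id ℂ (MvPowerSeries κ ℂ))).Carrier :=
    fun k => X.QHres.m (Sum.inl a) (Sum.inl b) k
  refine eq_zero_of_fixed ho (AlgHom.id ℂ (MvPowerSeries κ ℂ)) hspan z ?_ k
  intro g hg
  funext k
  rw [act_apply]
  show ∑ p, algebraMap ℂ (MvPowerSeries κ ℂ) (g k p) * X.QHres.m (Sum.inl a) (Sum.inl b) p =
    X.QHres.m (Sum.inl a) (Sum.inl b) k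
  have h := hg.sc_eq ho (Sum.inl a) (Sum.inl b) k
  have h2 : ∑ p, algebraMap ℂ (MvPowerSeries κ ℂ) (g k p) * X.QHres.m (Sum.inl a) (Sum.inl b) p =
      ∑ p, C (g k p) * X.QHres.m (Sum.inl a) (Sum.inl b) p := rfl
  rw [h2, ← h]
  rw [Finset.sum_eq_single (Sum.inl a)]
  · rw [Finset.sum_eq_single (Sum.inl b)]
    · rw [hg.1, hg.1, if_pos rfl, if_pos rfl, mul_one, map_one, one_mul]
    · intro j _ hj
      rw [hg.1 j, if_neg hj, mul_zero, map_zero, zero_mul]
    · intro h'
      exact absurd (Finset.mem_univ _) h'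
  · intro j _ hj
    refine Finset.sum_eq_zero fun l _ => ?_
    rw [hg.1 j, if_neg hj, zero_mul, map_zero, zero_mul]
  · intro h'
    exact absurd (Finset.mem_univ _) h'

end span

end FanoGW

end Pool.Agent.Helper18.Dub
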