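import Pool.Agent.Helper18.Dub.Bridge

/-!
# Semisimple quantum cohomology has no infinitesimal symmetries
-/

open Pool.Agent.Helper18.Dub

namespace Pool.Agent.Results.MP_78bf89_ag.NoInfinitesimalSymmetry

/-- Let `X` be a Fano manifold with generically semisimple big quantum cohomology. Then every
endomorphism `δ` of the cohomology with `δ 1 = 0` which infinitesimally preserves all genus-zero
correlators, `∑_{i ∈ s} ⟨… , δ φ_i, …⟩ = 0`, is zero. -/
theorem result {ι : Type} [Fintype ι] [DecidableEq ι] (X : FanoGW ι)
    (hss : X.IsGenericallySemisimple) (δ : Matrix ι ι ℂ) (hδ : X.IsInfSymmetry δ) : δ = 0 :=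
  hδ.eq_zero (X.isGenericallySemisimple_iff.1 hss)

end Pool.Agent.Results.MP_78bf89_ag.NoInfinitesimalSymmetry
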