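import Pool.Agent.Helper18.Dub.Amb

/-!
# The invariant part as a subalgebra
-/

open scoped BigOperators
open Finset MvPowerSeries

namespace Pool.Agent.Helper18.Dub

namespace AlgStr

variable {R : Type} [CommRing R] {κ ν : Type} [Fintype κ] [DecidableEq κ]
    [Fintype ν] [DecidableEq ν] (A : AlgStr R (κ ⊕ ν)) {o : κ} (ho : A.one = Sum.inl o)
    (hcl : ∀ a b k, A.m (Sum.inl a) (Sum.inl b) (Sum.inr k) = 0)

include ho hcl in
theorem mem_invPart_iff (x : A.Carrier) : x ∈ A.invPart ↔ ∀ j, x (Sum.inr j) = 0 := by
  constructor
  · intro hx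
    induction hx using Algebra.adjoin_induction with
    | mem x hx =>
      obtain ⟨a, rfl⟩ := hx
      intro j
      show A.basis (Sum.inl a) (Sum.inr j) = 0
      rw [basis_apply, if_neg (by simp)]
    | algebraMap r =>
      intro j
      rw [Algebra.algebraMap_eq_smul_one, smul_apply, one_apply, ho, if_neg (by simp), mul_zero]
    | add x y _ _ hx hy =>
      intro j
      rw [add_apply, hx j, hy j, add_zero]
    | mul x y _ _ hx hy =>
      intro j
      rw [mul_apply]
      refine Finset.sum_eq_zero fun a _ => Finset.sum_eq_zero fun b _ => ?_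
      rcases a with a | a
      · rcases b with b | b
        · rw [hcl, mul_zero]
        · rw [hy b, mul_zero, zero_mul]
      · rw [hx a, zero_mul, zero_mul]
  · intro hx
    rw [← A.basis.sum_repr x]
    refine Subalgebra.sum_mem _ fun c _ => ?_
    rw [basis_repr]
    rcases c with c | c
    · refine Subalgebra.smul_mem _ ?_ _
      exact Algebra.subset_adjoin (s := Set.range fun a : κ => A.basis (Sum.inl a)) ⟨c, rfl⟩
    · rw [hx c, zero_smul]
      exact Subalgebra.zero_mem _

include ho hcl in
theorem isReduced_invPart_iff : IsReduced A.invPart ↔ IsReduced (A.sub o ho hcl).Carrier := by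
  constructor
  · intro h
    let f : (A.sub o ho hcl).Carrier →+* A.invPart :=
      (A.subHom o ho hcl).codRestrict A.invPart fun x =>
        (A.mem_invPart_iff ho hcl _).2 fun j => rfl
    have hf : Function.Injective f := by
      intro x y hxy
      exact A.subHom_injective o ho hcl (congrArg Subtype.val hxy)
    exact isReduced_of_injective f hf
  · intro h
    refine ⟨fun x hx => ?_⟩
    have hx2 : IsNilpotent (x : A.Carrier) := hx.map A.invPart.subtype
    let y : (A.sub o ho hcl).Carrier := fun a => (x : A.Carrier) (Sum.inl a)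
    have hy : A.subHom o ho hcl y = (x : A.Carrier) := by
      funext k
      rcases k with k | k
      · rfl
      · exact ((A.mem_invPart_iff ho hcl _).1 x.2 k).symm
    have hy2 : IsNilpotent y := by
      rw [← hy] at hx2
      exact (IsNilpotent.map_iff (A.subHom_injective o ho hcl)).1 hx2
    have hy0 : y = 0 := hy2.eq_zero
    apply Subtype.ext
    rw [← hy, hy0, map_zero]
    rfl

end AlgStr

namespace FanoGW

variable {κ ν : Type} [Fintype κ] [DecidableEq κ] [Fintype ν] [DecidableEq ν]
variable {X : FanoGW (κ ⊕ ν)} {o : κ} (ho : X.one = Sum.inl o)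
variable (hspan : proj κ ν ∈ Submodule.span ℂ {g | X.IsSymmetry g})

theorem sub_map_eq {S : Type} [CommRing S] (f : MvPowerSeries κ ℂ →+* S)
    (hcl : ∀ a b k, (X.QHres.map f).m (Sum.inl a) (Sum.inl b) (Sum.inr k) = 0) :
    (X.QHres.map f).sub o ho hcl = (QHinv ho hspan).map f := rfl

include ho hspan in
/-- Generic semisimplicity along the invariant classes. -/
theorem generic_iff_invPart : X.QHres.GenericallySemisimple ↔
    IsSemisimpleRing (X.QHres.map (algebraMap (MvPowerSeries κ ℂ)
      (FractionRing (MvPowerSeries κ ℂ)))).invPart := by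
  have hcl : ∀ a b k, (X.QHres.map (algebraMap (MvPowerSeries κ ℂ)
      (FractionRing (MvPowerSeries κ ℂ)))).m (Sum.inl a) (Sum.inl b) (Sum.inr k) = 0 := by
    intro a b k
    show algebraMap _ _ (X.QHres.m (Sum.inl a) (Sum.inl b) (Sum.inr k)) = _
    rw [closed ho hspan, map_zero]
  rw [generic_iff_inv ho hspan,
    isSemisimpleRing_iff_isReduced (FractionRing (MvPowerSeries κ ℂ)),
    AlgStr.isReduced_invPart_iff _ (o := o) ho hcl, sub_map_eq ho hspan,
    AlgStr.GenericallySemisimple,
    isSemisimpleRing_iff_isReduced (FractionRing (MvPowerSeries κ ℂ))]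

include ho hspan in
theorem small_iff_invPart : IsSemisimpleRing X.smallQH.Carrier ↔
    IsSemisimpleRing X.smallQH.invPart := by
  have h2 := small_iff_inv ho hspan
  rw [QHres_map_constantCoeff] at h2
  have hcl := smallQH_closed ho hspan
  have h3 : IsReduced (X.smallQH.sub o ho hcl).Carrier ↔
      IsReduced (smallInv ho hspan).Carrier := by
    constructor
    · intro h
      let f : (smallInv ho hspan).Carrier →+* (X.smallQH.sub o ho hcl).Carrier :=
        AlgStr.castHom (A := smallInv ho hspan)
          (B := X.smallQH.sub o ho hcl) (fun a b k => smallInv_m ho hspan a b k) rfl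
      have hf : Function.Injective f := by
        intro x y hxy
        funext k
        exact congrFun hxy k
      exact isReduced_of_injective f hf
    · intro h
      let f : (X.smallQH.sub o ho hcl).Carrier →+* (smallInv ho hspan).Carrier :=
        AlgStr.castHom (A := X.smallQH.sub o ho hcl)
          (B := smallInv ho hspan) (fun a b k => (smallInv_m ho hspan a b k).symm) rfl
      have hf : Function.Injective f := by
        intro x y hxy
        funext k
        exact congrFun hxy k
      exact isReduced_of_injective f hf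
  have h4 : IsSemisimpleRing ((QHinv ho hspan).map (constantCoeff (σ := κ) (R := ℂ))).Carrier ↔
      IsReduced (smallInv ho hspan).Carrier := isSemisimpleRing_iff_isReduced ℂ _
  have h5 : IsSemisimpleRing X.smallQH.Carrier ↔ IsSemisimpleRing ((QHinv ho hspan).map
      (constantCoeff (σ := κ) (R := ℂ))).Carrier := h2
  rw [h5, h4, ← h3, isSemisimpleRing_iff_isReduced ℂ X.smallQH.invPart,
    AlgStr.isReduced_invPart_iff _ (o := o) ho hcl]

variable (hc : ∀ j, X.chern (Sum.inr j) = 0)

/-- the inclusion of the invariant part as an algebra homomorphism -/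
noncomputable def inclInvAlg : (smallInv ho hspan).Carrier →ₐ[ℂ] X.smallQH.Carrier :=
  { inclInv ho hspan with
    commutes' := fun r => by
      show inclInv ho hspan (algebraMap ℂ _ r) = algebraMap ℂ _ r
      rw [Algebra.algebraMap_eq_smul_one, Algebra.algebraMap_eq_smul_one]
      have h1 : inclInv ho hspan 1 = 1 := map_one _
      rw [← h1]
      funext k
      rcases k with k | k
      · rw [inclInv_inl, AlgStr.smul_apply, AlgStr.smul_apply, inclInv_inl]
      · rw [inclInv_inr, AlgStr.smul_apply, inclInv_inr, mul_zero] }

include hc in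
theorem minpoly_c1 : minpoly ℂ X.c1class = minpoly ℂ (c1inv ho hspan) := by
  have h1 : inclInvAlg ho hspan (c1inv ho hspan) = X.c1class := inclInv_c1 ho hspan hc
  rw [← h1]
  refine minpoly.algHom_eq _ ?_ _
  intro x y hxy
  funext k
  exact congrFun hxy (Sum.inl k)

include ho hspan hc in
theorem ambient_iff_minpoly (hN : Fintype.card κ = X.dim + 1) (htop : X.vcup X.dim ≠ 0) :
    (X.QHres.GenericallySemisimple ↔ (minpoly ℂ X.c1class).Separable) ∧
      (minpoly ℂ X.c1class).natDegree = X.dim + 1 := by
  have hreg := c1inv_pow_linearIndependent ho hspan hc htop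
  have hn : Module.finrank ℂ (smallInv ho hspan).Carrier = X.dim + 1 := by
    rw [finrank_carrier, hN]
  constructor
  · rw [ambient_iff ho hspan hc hN htop, minpoly_c1 ho hspan hc, chernMulInv,
      charpoly_eq_minpoly_of_cyclic (c1inv ho hspan) hn hreg]
  · rw [minpoly_c1 ho hspan hc, minpoly_natDegree_of_cyclic (c1inv ho hspan) hn hreg]

end FanoGW

end Pool.Agent.Helper18.Dub
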