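import Pool.Agent.Helper18.Dub.GWDefs
import Pool.Agent.Helper18.Dub.AlgDefs

/-!
# The quantum cohomology algebra of a Fano manifold
-/

open scoped BigOperators
open Finset MvPowerSeries

namespace Pool.Agent.Helper18.Dub

instance instIsDomainMvPowerSeries (κ : Type) : IsDomain (MvPowerSeries κ ℂ) :=
  NoZeroDivisors.to_isDomain _

namespace FanoGW

variable {ι : Type} [Fintype ι] [DecidableEq ι] (X : FanoGW ι)

theorem corr_unit (i j : ι) : X.corr {X.one, i, j} = X.pair i j := by
  rw [GWData.corr, finsum_eq_single _ X.zero]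
  · exact X.unit_zero i j
  · intro β hβ
    exact X.unit_ne β i j hβ

theorem corr_unit_many (s : Multiset ι) (hs : 3 ≤ Multiset.card s) : X.corr (X.one ::ₘ s) = 0 := by
  rw [GWData.corr]
  rw [finsum_congr (fun β => X.unit_many β s hs), finsum_zero]

theorem coeff_ser (s : Multiset ι) (m : ι →₀ ℕ) :
    coeff m (X.ser s) = X.corr (s + Finsupp.toMultiset m) / ∏ i, ((m i).factorial : ℂ) := rfl

theorem pair_mul_inv : X.pair * X.pair⁻¹ = 1 := Matrix.mul_nonsing_inv _ X.pair_nondeg

theorem inv_mul_pair : X.pair⁻¹ * X.pair = 1 := Matrix.nonsing_inv_mul _ X.pair_nondeg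

theorem pair_isSymm : X.pair.transpose = X.pair := by
  ext i j
  exact X.pair_symm j i

theorem pairInv_symm (i j : ι) : X.pair⁻¹ i j = X.pair⁻¹ j i := by
  have h : (X.pair⁻¹).transpose = X.pair⁻¹ := by
    rw [Matrix.transpose_nonsing_inv, X.pair_isSymm]
  have := congrFun (congrFun h j) i
  rw [Matrix.transpose_apply] at this
  exact this

theorem ser_unit (b l : ι) : X.ser {X.one, b, l} = C (X.pair b l) := by
  ext m
  rw [coeff_ser, coeff_C]
  by_cases hm : m = 0
  · subst hm
    rw [if_pos rfl, map_zero, add_zero, X.corr_unit]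
    simp
  · rw [if_neg hm]
    have h1 : ({X.one, b, l} : Multiset ι) + Finsupp.toMultiset m =
        X.one ::ₘ (({b, l} : Multiset ι) + Finsupp.toMultiset m) := by
      rw [← Multiset.cons_add]; rfl
    rw [h1, X.corr_unit_many, zero_div]
    rw [Multiset.card_add]
    have h2 : Multiset.card (Finsupp.toMultiset m) ≠ 0 := by
      intro h0
      rw [Multiset.card_eq_zero] at h0
      apply hm
      have := congrArg Multiset.toFinsupp h0
      rwa [Finsupp.toMultiset_toFinsupp, map_zero] at this
    have h3 : Multiset.card ({b, l} : Multiset ι) = 2 := rfl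
    omega

omit [Fintype ι] [DecidableEq ι] in
theorem mset_swap (a b l : ι) : ({a, b, l} : Multiset ι) = {b, a, l} := Multiset.cons_swap _ _ _

omit [Fintype ι] [DecidableEq ι] in
theorem mset_rot (a b l : ι) : ({a, b, l} : Multiset ι) = {b, l, a} := by
  rw [mset_swap a b l]
  show b ::ₘ a ::ₘ {l} = b ::ₘ l ::ₘ {a}
  congr 1
  exact Multiset.cons_swap _ _ _

/-- The big quantum cohomology algebra `H^*(X, ℂ[[t]])` (Novikov variables set to 1). -/
noncomputable def QH : AlgStr (MvPowerSeries ι ℂ) ι where
  m := X.sc
  one := X.one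
  comm := fun a b k => by
    simp only [sc]
    refine Finset.sum_congr rfl fun l _ => ?_
    rw [mset_swap a b l]
  one_mul := fun b k => by
    simp only [sc, ser_unit, ← map_mul, ← map_sum]
    have h := congrFun (congrFun X.inv_mul_pair k) b
    rw [Matrix.mul_apply, Matrix.one_apply] at h
    have h2 : ∑ l, X.pair⁻¹ k l * X.pair b l = if b = k then 1 else 0 := by
      rw [Finset.sum_congr rfl fun l _ => by rw [X.pair_symm b l], h]
      by_cases hkb : k = b
      · rw [if_pos hkb, if_pos hkb.symm]
      · rw [if_neg hkb, if_neg (fun h' => hkb h'.symm)]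
    rw [h2]
    split_ifs <;> simp
  assoc := fun a b c k => by
    have key : ∀ a b c k : ι, ∑ l, X.sc a b l * X.sc l c k =
        ∑ f, C (X.pair⁻¹ k f) * ∑ e, ∑ l, C (X.pair⁻¹ e l) * X.ser {a, b, e} * X.ser {l, c, f} := by
      intro a b c k
      have h1 : ∀ l, X.sc a b l * X.sc l c k = ∑ f, ∑ e, C (X.pair⁻¹ k f) *
          (C (X.pair⁻¹ e l) * X.ser {a, b, e} * X.ser {l, c, f}) := by
        intro l
        rw [sc, sc, Finset.sum_mul_sum, Finset.sum_comm]
        refine Finset.sum_congr rfl fun f _ => Finset.sum_congr rfl fun e _ => ?_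
        rw [X.pairInv_symm l e]
        ring
      rw [Finset.sum_congr rfl fun l _ => h1 l, Finset.sum_comm]
      refine Finset.sum_congr rfl fun f _ => ?_
      rw [Finset.sum_comm, Finset.mul_sum]
      refine Finset.sum_congr rfl fun e _ => ?_
      rw [Finset.mul_sum]
    have hcomm : ∀ a b k, X.sc a b k = X.sc b a k := by
      intro a b k
      simp only [sc]
      refine Finset.sum_congr rfl fun l _ => ?_
      rw [mset_swap a b l]
    have h2 : ∑ l, X.sc b c l * X.sc a l k = ∑ l, X.sc b c l * X.sc l a k :=
      Finset.sum_congr rfl fun l _ => by rw [hcomm a l k]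
    rw [h2, key a b c k, key b c a k]
    refine Finset.sum_congr rfl fun f _ => ?_
    rw [X.wdvv a b c f]

/-- The small quantum cohomology algebra (the fibre of the big one at `t = 0`). -/
noncomputable def smallQH : AlgStr ℂ ι := X.QH.map (constantCoeff (σ := ι) (R := ℂ))

/-- The class `c_1(X)` as an element of small quantum cohomology. -/
noncomputable def c1class : X.smallQH.Carrier := fun k => X.chern k

/-- Quantum multiplication by `c_1(X)` on small quantum cohomology. -/
noncomputable def chernMul : Module.End ℂ X.smallQH.Carrier :=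
  Algebra.lmul ℂ X.smallQH.Carrier X.c1class

end FanoGW

end Pool.Agent.Helper18.Dub
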