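import Pool.Agent.Helper18.Dub.Crit

/-!
# Regular first Chern class: generic semisimplicity is decided by small quantum cohomology
-/

open scoped BigOperators
open Finset MvPowerSeries

namespace Pool.Agent.Helper18.Dub

namespace FlatAlg

variable {κ : Type} [Fintype κ] [DecidableEq κ] (F : FlatAlg κ)

/-- The value of the Euler element at `t = 0`. -/
noncomputable def c0 : (F.A.map (constantCoeff (σ := κ) (R := ℂ))).Carrier :=
  F.A.mapHom constantCoeff F.E

theorem isUnit_det_W (σ : κ ≃ Fin (Fintype.card κ))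
    (hreg : LinearIndependent ℂ (fun i : Fin (Fintype.card κ) => F.c0 ^ (i : ℕ))) :
    IsUnit (F.W σ).det := by
  rw [MvPowerSeries.isUnit_iff_constantCoeff, isUnit_iff_ne_zero]
  intro h0
  rw [RingHom.map_det] at h0
  obtain ⟨v, hv0, hv⟩ := Matrix.exists_mulVec_eq_zero_iff.2 h0
  have h1 : ∑ i : κ, v i • F.c0 ^ (σ i : ℕ) = 0 := by
    apply (F.A.map (constantCoeff (σ := κ) (R := ℂ))).basis.repr.injective
    ext k
    rw [map_sum, map_zero, Finsupp.finsetSum_apply, Finsupp.zero_apply]
    have h2 := congrFun hv k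
    rw [Matrix.mulVec, dotProduct] at h2
    rw [← show (0 : κ → ℂ) k = 0 from rfl, ← h2]
    refine Finset.sum_congr rfl fun i _ => ?_
    rw [map_smul, Finsupp.smul_apply, smul_eq_mul, AlgStr.basis_repr, RingHom.mapMatrix_apply,
      Matrix.map_apply, c0, ← map_pow, AlgStr.mapHom_apply, mul_comm]
    rfl
  have h3 : ∑ i : Fin (Fintype.card κ), v (σ.symm i) • F.c0 ^ (i : ℕ) = 0 := by
    rw [← h1]
    refine Fintype.sum_equiv σ.symm _ _ fun i => ?_
    rw [Equiv.apply_symm_apply]
  have h4 := Fintype.linearIndependent_iff.1 hreg (fun i => v (σ.symm i)) h3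
  apply hv0
  funext i
  have := h4 (σ i)
  rwa [Equiv.symm_apply_apply] at this

/-- If the powers of `E(0)` are linearly independent, then the algebra is semisimple at the generic
point iff it is semisimple at `t = 0`. -/
theorem generic_iff_small
    (hreg : LinearIndependent ℂ (fun i : Fin (Fintype.card κ) => F.c0 ^ (i : ℕ))) :
    F.A.GenericallySemisimple ↔
      IsSemisimpleRing (F.A.map (constantCoeff (σ := κ) (R := ℂ))).Carrier := by
  rw [AlgStr.genericallySemisimple_iff, AlgStr.isSemisimpleRing_iff, AlgStr.disc_map]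
  constructor
  · intro h h0
    exact h (F.disc_eq_zero (Fintype.equivFin κ) (F.isUnit_det_W _ hreg) h0)
  · intro h h0
    exact h (by rw [h0, map_zero])

end FlatAlg

open Polynomial in
/-- If a reduced finite-dimensional algebra of dimension `n` has a cyclic element `c`, and an
endomorphism with `σ c = ζ c`, `ζ` a primitive `r`-th root of unity, then `n ≡ 0, 1 (mod r)`. -/
theorem card_mod_of_reduced {B : Type*} [CommRing B] [Algebra ℂ B] [IsReduced B] {n r : ℕ}
    (c : B) (hn : Module.finrank ℂ B = n) (hpos : 0 < n) (hr : 0 < r)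
    (hreg : LinearIndependent ℂ (fun i : Fin n => c ^ (i : ℕ)))
    (σ : B →ₐ[ℂ] B) {ζ : ℂ} (hζ : IsPrimitiveRoot ζ r) (hσ : σ c = ζ • c) :
    r ∣ n ∨ r ∣ n - 1 := by
  have hfin : FiniteDimensional ℂ B := Module.finite_of_finrank_pos (by omega)
  have hmin : ∀ q : ℂ[X], q.natDegree < n → Polynomial.aeval c q = 0 → q = 0 := by
    intro q hq h0
    rw [Polynomial.aeval_eq_sum_range' hq, Finset.sum_range] at h0
    have h1 := Fintype.linearIndependent_iff.1 hreg (fun i => q.coeff i) h0
    ext j
    rw [Polynomial.coeff_zero]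
    by_cases hj : j < n
    · exact h1 ⟨j, hj⟩
    · exact Polynomial.coeff_eq_zero_of_natDegree_lt (by omega)
  have hint : IsIntegral ℂ c := Algebra.IsIntegral.isIntegral c
  set m := minpoly ℂ c with hm
  have hmon : m.Monic := minpoly.monic hint
  have hdeg : m.natDegree = n := by
    apply le_antisymm
    · rw [← hn]; exact minpoly.natDegree_le c
    · by_contra hlt
      push Not at hlt
      exact hmon.ne_zero (hmin m hlt (minpoly.aeval ℂ c))
  have hm0 : Polynomial.aeval c m = 0 := minpoly.aeval ℂ c
  have hcoef : ∀ j, m.coeff j ≠ 0 → j ≤ n → r ∣ n - j := by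
    intro j hj hjn
    have h1 : Polynomial.aeval c (m.comp (Polynomial.C ζ * Polynomial.X)) = 0 := by
      rw [Polynomial.aeval_comp, map_mul, Polynomial.aeval_C, Polynomial.aeval_X,
        ← Algebra.smul_def, ← hσ]
      have := Polynomial.aeval_algHom_apply σ c m
      rw [this, hm0, map_zero]
    have h2 : m.comp (Polynomial.C ζ * Polynomial.X) - Polynomial.C (ζ ^ n) * m = 0 := by
      apply hmin
      · have h3 : ∀ k, n ≤ k →
            (m.comp (Polynomial.C ζ * Polynomial.X) - Polynomial.C (ζ ^ n) * m).coeff k = 0 := by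
          intro k hk
          rw [Polynomial.coeff_sub, Polynomial.comp_C_mul_X_coeff, Polynomial.coeff_C_mul]
          rcases Nat.eq_or_lt_of_le hk with h | h
          · subst h; ring
          · rw [Polynomial.coeff_eq_zero_of_natDegree_lt (by omega)]; ring
        by_contra hge
        push Not at hge
        have h4 := h3 _ hge
        have h5 : m.comp (Polynomial.C ζ * Polynomial.X) - Polynomial.C (ζ ^ n) * m = 0 :=
          Polynomial.leadingCoeff_eq_zero.1 h4
        rw [h5, Polynomial.natDegree_zero] at hge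
        omega
      · rw [map_sub, h1, map_mul, hm0, mul_zero, sub_zero]
    have h4 := congrArg (fun q => Polynomial.coeff q j) h2
    simp only [Polynomial.coeff_sub, Polynomial.comp_C_mul_X_coeff, Polynomial.coeff_C_mul,
      Polynomial.coeff_zero] at h4
    have h5 : ζ ^ j = ζ ^ n := by
      have : m.coeff j * (ζ ^ j - ζ ^ n) = 0 := by linear_combination h4
      rcases mul_eq_zero.1 this with h6 | h6
      · exact absurd h6 hj
      · exact sub_eq_zero.1 h6
    have hζ0 : ζ ^ j ≠ 0 := pow_ne_zero _ (hζ.ne_zero hr.ne')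
    have h7 : ζ ^ (n - j) = 1 := by
      have h8 : ζ ^ j * ζ ^ (n - j) = ζ ^ j * 1 := by
        rw [← pow_add, mul_one, h5]
        congr 1
        omega
      exact mul_left_cancel₀ hζ0 h8
    exact hζ.dvd_of_pow_eq_one _ h7
  by_contra hcon
  push Not at hcon
  obtain ⟨hc1, hc2⟩ := hcon
  have hp0 : m.coeff 0 = 0 := by
    by_contra h
    exact hc1 (by simpa using hcoef _ h (by omega))
  have hp1 : m.coeff 1 = 0 := by
    by_contra h
    exact hc2 (hcoef _ h (by omega))
  have hdvd : (Polynomial.X : ℂ[X]) ^ 2 ∣ m := by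
    rw [Polynomial.X_pow_dvd_iff]
    intro d hd
    have : d = 0 ∨ d = 1 := by omega
    rcases this with h | h
    · subst h; exact hp0
    · subst h; exact hp1
  obtain ⟨q, hq⟩ := hdvd
  have hq0 : q ≠ 0 := by
    intro h
    rw [h, mul_zero] at hq
    exact hmon.ne_zero hq
  have h9 : Polynomial.aeval c (Polynomial.X * q) = 0 := by
    have hnil : IsNilpotent (Polynomial.aeval c (Polynomial.X * q)) := by
      refine ⟨2, ?_⟩
      have h13 : (Polynomial.X * q) ^ 2 = (Polynomial.X ^ 2 * q) * q := by ring
      rw [← map_pow, h13, map_mul, ← hq, hm0, zero_mul]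
    exact hnil.eq_zero
  have h11 : (Polynomial.X * q).natDegree < n := by
    have h12 : m.natDegree = 2 + q.natDegree := by
      rw [hq, Polynomial.natDegree_mul (pow_ne_zero _ Polynomial.X_ne_zero) hq0,
        Polynomial.natDegree_X_pow]
    rw [Polynomial.natDegree_mul Polynomial.X_ne_zero hq0, Polynomial.natDegree_X]
    omega
  exact mul_ne_zero Polynomial.X_ne_zero hq0 (hmin _ h11 h9)

end Pool.Agent.Helper18.Dub
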