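import Pool.Agent.Helper18.Dub.Flat

/-!
# If the Euler field is regular at `t = 0` then the discriminant vanishes identically as soon as it
vanishes at `t = 0`
-/

open scoped BigOperators
open Finset MvPowerSeries

namespace Pool.Agent.Helper18.Dub

namespace FlatAlg

variable {κ : Type} [Fintype κ] [DecidableEq κ] (F : FlatAlg κ)

/-- coordinates of the powers of `E` -/
noncomputable def W (σ : κ ≃ Fin (Fintype.card κ)) : Matrix κ κ (MvPowerSeries κ ℂ) :=
  Matrix.of fun k i => (F.E ^ (σ i : ℕ)) k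

theorem pow_eq_sum (σ : κ ≃ Fin (Fintype.card κ)) (i : κ) :
    F.E ^ (σ i : ℕ) = ∑ k, F.W σ k i • F.A.basis k := by
  conv_lhs => rw [← F.A.basis.sum_repr (F.E ^ (σ i : ℕ))]
  rfl

theorem discr_pow (σ : κ ≃ Fin (Fintype.card κ)) :
    Algebra.discr (MvPowerSeries κ ℂ) (fun i : κ => F.E ^ (σ i : ℕ)) =
      (F.W σ).det ^ 2 * F.A.disc := by
  rw [AlgStr.disc, ← Algebra.discr_of_matrix_vecMul]
  congr 1
  funext i
  rw [F.pow_eq_sum σ i, Matrix.vecMul, dotProduct]
  refine Finset.sum_congr rfl fun k _ => ?_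
  rw [Matrix.map_apply, Algebra.smul_def, mul_comm]

/-- the element `j E^{j-1} e_a` -/
noncomputable def gam (a : κ) (j : ℕ) : F.A.Carrier :=
  (j : F.A.Carrier) * (F.E ^ (j - 1) * F.A.basis a)

theorem gam_expand (σ : κ ≃ Fin (Fintype.card κ)) (hW : IsUnit (F.W σ).det) (a : κ) :
    ∃ G : Matrix κ κ (MvPowerSeries κ ℂ), ∀ i,
      F.gam a (σ i) = ∑ k, G k i • F.E ^ (σ k : ℕ) := by
  let Y : Matrix κ κ (MvPowerSeries κ ℂ) := Matrix.of fun k i => F.gam a (σ i) k
  refine ⟨(F.W σ)⁻¹ * Y, fun i => ?_⟩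
  have h1 : (F.W σ) * ((F.W σ)⁻¹ * Y) = Y := by
    rw [← Matrix.mul_assoc, Matrix.mul_nonsing_inv _ hW, Matrix.one_mul]
  apply F.A.basis.repr.injective
  ext k
  rw [map_sum, Finsupp.finsetSum_apply]
  have h2 := congrFun (congrFun h1 k) i
  rw [Matrix.mul_apply] at h2
  have h3 : ∀ l, (F.A.basis.repr (((F.W σ)⁻¹ * Y) l i • F.E ^ (σ l : ℕ))) k =
      F.W σ k l * ((F.W σ)⁻¹ * Y) l i := by
    intro l
    rw [map_smul, Finsupp.smul_apply, smul_eq_mul, mul_comm, AlgStr.basis_repr]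
    rfl
  rw [Finset.sum_congr rfl fun l _ => h3 l, h2, AlgStr.basis_repr]
  rfl

theorem trace_gam (a : κ) (i j : ℕ) :
    Algebra.trace (MvPowerSeries κ ℂ) F.A.Carrier (F.gam a i * F.E ^ j) =
      (i : MvPowerSeries κ ℂ) *
        Algebra.trace (MvPowerSeries κ ℂ) F.A.Carrier (F.E ^ (i + j - 1) * F.A.basis a) := by
  rcases Nat.eq_zero_or_pos i with h | h
  · subst h
    simp [gam]
  · have h1 : F.gam a i * F.E ^ j =
        (i : MvPowerSeries κ ℂ) • (F.E ^ (i + j - 1) * F.A.basis a) := by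
      rw [Algebra.smul_def, map_natCast, gam]
      have : i + j - 1 = (i - 1) + j := by omega
      rw [this, pow_add]
      ring
    rw [h1, map_smul, smul_eq_mul]

theorem pderiv_trace_pow' (a : κ) (n : ℕ) :
    pderiv ℂ a (Algebra.trace (MvPowerSeries κ ℂ) F.A.Carrier (F.E ^ n)) =
      (n : MvPowerSeries κ ℂ) *
        Algebra.trace (MvPowerSeries κ ℂ) F.A.Carrier (F.E ^ (n - 1) * F.A.basis a) := by
  rcases Nat.eq_zero_or_pos n with h | h
  · subst h
    have h1 : Algebra.trace (MvPowerSeries κ ℂ) F.A.Carrier 1 =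
        ((Module.finrank (MvPowerSeries κ ℂ) F.A.Carrier : ℕ) : MvPowerSeries κ ℂ) := by
      have := Algebra.trace_algebraMap (R := MvPowerSeries κ ℂ) (S := F.A.Carrier) 1
      rw [map_one] at this
      rw [this]; simp
    rw [pow_zero, h1, Derivation.map_natCast, Nat.cast_zero, zero_mul]
  · obtain ⟨m, rfl⟩ : ∃ m, n = m + 1 := ⟨n - 1, by omega⟩
    rw [F.pderiv_trace_pow, Nat.add_sub_cancel]
    push_cast
    ring

theorem pderiv_det (σ : κ ≃ Fin (Fintype.card κ)) (hW : IsUnit (F.W σ).det) (a : κ) :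
    ∃ g, pderiv ℂ a (Algebra.discr (MvPowerSeries κ ℂ) (fun i : κ => F.E ^ (σ i : ℕ))) =
      g * Algebra.discr (MvPowerSeries κ ℂ) (fun i : κ => F.E ^ (σ i : ℕ)) := by
  obtain ⟨G, hG⟩ := F.gam_expand σ hW a
  rw [Algebra.discr_def]
  refine deriv_det_of_congr (pderiv ℂ a) _ G fun i j => ?_
  have h1 : ∑ k, G k i * Algebra.traceMatrix (MvPowerSeries κ ℂ)
      (fun i : κ => F.E ^ (σ i : ℕ)) k j =
      Algebra.trace (MvPowerSeries κ ℂ) F.A.Carrier (F.gam a (σ i) * F.E ^ (σ j : ℕ)) := by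
    rw [hG i, Finset.sum_mul, map_sum]
    refine Finset.sum_congr rfl fun k _ => ?_
    rw [Algebra.traceMatrix_apply, Algebra.traceForm_apply, smul_mul_assoc, map_smul, smul_eq_mul]
  have h2 : ∑ k, Algebra.traceMatrix (MvPowerSeries κ ℂ)
      (fun i : κ => F.E ^ (σ i : ℕ)) i k * G k j =
      Algebra.trace (MvPowerSeries κ ℂ) F.A.Carrier (F.gam a (σ j) * F.E ^ (σ i : ℕ)) := by
    rw [hG j, Finset.sum_mul, map_sum]
    refine Finset.sum_congr rfl fun k _ => ?_
    rw [Algebra.traceMatrix_apply, Algebra.traceForm_apply, smul_mul_assoc, map_smul, smul_eq_mul,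
      mul_comm (F.E ^ (σ i : ℕ)), mul_comm (G k j)]
  rw [h1, h2, F.trace_gam, F.trace_gam, Algebra.traceMatrix_apply, Algebra.traceForm_apply,
    ← pow_add, F.pderiv_trace_pow', add_comm (σ j : ℕ) (σ i : ℕ)]
  push_cast
  ring

/-- **Rigidity.** If the powers of `E` form a basis and the discriminant of the algebra vanishes at
`t = 0`, then it vanishes identically. -/
theorem disc_eq_zero (σ : κ ≃ Fin (Fintype.card κ)) (hW : IsUnit (F.W σ).det)
    (h0 : constantCoeff F.A.disc = 0) : F.A.disc = 0 := by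
  choose g hg using fun a => F.pderiv_det σ hW a
  have h1 : Algebra.discr (MvPowerSeries κ ℂ) (fun i : κ => F.E ^ (σ i : ℕ)) = 0 := by
    refine eq_zero_of_pderiv_dvd _ g hg ?_
    rw [F.discr_pow, map_mul, h0, mul_zero]
  rw [F.discr_pow] at h1
  exact ((hW.pow 2).mul_right_eq_zero).1 h1

end FlatAlg

end Pool.Agent.Helper18.Dub
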