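import Pool.Agent.Helper18.Dub.Bridge

/-!
# Eigenvalues of `c_1 •` and folded Betti numbers of Fano manifolds with semisimple big quantum
cohomology
-/

open Pool.Agent.Helper18.Dub

namespace Pool.Agent.Results.MP_78bf89_ag.SimpleEigenvalue

/-- Let `X` be a Fano manifold with generically semisimple big quantum cohomology, and
`N = dim H^{even}(X)`.
(1) Every eigenvalue `u` of `c_1 •` on small quantum cohomology whose eigenspace is a line is a
simple root of the characteristic polynomial.
(2) If `r ≥ 1` divides `c_1(X) · β` for all `β` and `m = dim ker (c_1 •) ≤ 1`, then the folded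
Betti numbers `∑_{p ≡ j mod r} b_{2p}(X)` are equal to a constant `q` for `r ∤ j` and to `q + m`
for `r ∣ j`. -/
theorem result {ι : Type} [Fintype ι] [DecidableEq ι] (X : FanoGW ι)
    (hss : X.IsGenericallySemisimple) :
    (∀ u : ℂ, (X.chernMat - Matrix.scalar ι u).rank + 1 = Fintype.card ι →
      X.chernMat.charpoly.rootMultiplicity u = 1) ∧
    (∀ r m : ℕ, 0 < r → (∀ β, r ∣ X.c1 β) → X.chernMat.rank + m = Fintype.card ι → m ≤ 1 →
      ∃ q : ℕ, ∀ j : ℕ, (Finset.univ.filter fun i => X.deg i ≡ j [MOD r]).card =
        q + if r ∣ j then m else 0) := by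
  rw [X.isGenericallySemisimple_iff] at hss
  constructor
  · intro u hu
    have h1 := X.rank_sub u
    have h2 : Module.finrank ℂ (X.chernMul.eigenspace u) = 1 := by omega
    rw [X.rootMultiplicity_eq u]
    refine le_antisymm (X.simple_of_eigenspace hss u h2.le) ?_
    rw [← h2]
    exact Submodule.finrank_mono Module.End.eigenspace_le_maxGenEigenspace
  · intro r m hr0 hr hm hm1
    have h1 := X.rank_chern
    have h2 : Module.finrank ℂ (LinearMap.ker X.chernMul) = m := by omega
    rw [← h2]
    exact X.folded_betti hss hr0 hr (by omega)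

end Pool.Agent.Results.MP_78bf89_ag.SimpleEigenvalue
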